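import Pool.Agent.W938.Rnd.Gen

/-!
# Asking about given positions first
-/

set_option autoImplicit false
set_option linter.unusedSectionVars false

namespace Pool.Agent.W938.NF

open Finset Pool.Agent.H889R3.RQ Pool.Agent.W938.Hyb Pool.Agent.H169R3.RQ
open Pool.Agent.H572R2 (EE EE_congr flp)
open Pool.Agent.H572R4.QA (var rs DegLe)

variable {N : ℕ}

/-- Ask about the positions in the list, then simulate. -/
noncomputable def pre (τ : ℝ) (n : ℕ) : List (Fin N) → ((Fin N → Bool) → ℝ) → DTree (Fin N)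
  | [], f => sim τ n f
  | j :: js, f => DTree.ask j (pre τ n js (rs j false f)) (pre τ n js (rs j true f))

/-- All restrictions to the positions of the list are in the family. -/
def QQ (F : Set ((Fin N → Bool) → ℝ)) : List (Fin N) → ((Fin N → Bool) → ℝ) → Prop
  | [], f => f ∈ F
  | j :: js, f => ∀ c, QQ F js (rs j c f)

lemma rs_inv (j : Fin N) (c : Bool) (f : (Fin N → Bool) → ℝ) (x : Fin N → Bool) (b : Bool) :
    rs j c f (Function.update x j b) = rs j c f x := by
  unfold rs
  rw [Function.update_idem]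

lemma pre_inv (τ : ℝ) (hτ : 0 < τ) (n : ℕ) : ∀ (js : List (Fin N)) (g : (Fin N → Bool) → ℝ)
    (j : Fin N), (∀ x b, g (Function.update x j b) = g x) →
    ∀ x b, (pre τ n js g).eval (Function.update x j b) = (pre τ n js g).eval x := by
  intro js
  induction js with
  | nil => intro g j hg; exact sim_inv τ hτ j n g hg
  | cons i js ih =>
    intro g j hg x b
    by_cases hij : i = j
    · subst hij
      have e : ∀ c, rs i c g = g := fun c => funext fun x => hg x c
      have h1 := ih g i hg x b
      simp only [pre, DTree.eval, e]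
      rw [h1]
      split_ifs <;> rfl
    · have hrs : ∀ c, ∀ x b, rs i c g (Function.update x j b) = rs i c g x := by
        intro c x b
        unfold rs
        rw [Function.update_comm (Ne.symm hij), hg]
      have hx : Function.update x j b i = x i := Function.update_of_ne hij _ _
      simp only [pre, DTree.eval, hx, ih _ j (hrs true) x b, ih _ j (hrs false) x b]

lemma bad_pre (τ : ℝ) (hτ : 0 < τ) (n : ℕ) (js : List (Fin N)) (f : (Fin N → Bool) → ℝ)
    (j : Fin N) : 2 * EE (bad f (pre τ n (j :: js) f))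
      = EE (bad (rs j false f) (pre τ n js (rs j false f)))
        + EE (bad (rs j true f) (pre τ n js (rs j true f))) := by
  rw [← Pool.Agent.H572R4.QA.EE_rs _ j, add_comm]
  congr 1
  · refine EE_congr fun x => ?_
    have h1 := pre_inv τ hτ n js _ j (rs_inv j false f) x false
    simp only [rs, bad, pre, DTree.eval, Function.update_self] at h1 ⊢
    simp only [Bool.false_eq_true, if_false]
    rw [h1]
    split_ifs <;> rfl
  · refine EE_congr fun x => ?_
    have h1 := pre_inv τ hτ n js _ j (rs_inv j true f) x true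
    simp only [rs, bad, pre, DTree.eval, Function.update_self] at h1 ⊢
    simp only [if_true]
    rw [h1]
    split_ifs <;> rfl

lemma pre_main (τ : ℝ) (hτ : 0 < τ) (n : ℕ) (F : Set ((Fin N → Bool) → ℝ)) (η : ℝ)
    (hF : ∀ f ∈ F, (sim τ n f).depth ≤ n ∧ EE (bad f (sim τ n f)) ≤ η) :
    ∀ (js : List (Fin N)) (f : (Fin N → Bool) → ℝ), QQ F js f →
      (pre τ n js f).depth ≤ js.length + n ∧ EE (bad f (pre τ n js f)) ≤ η := by
  intro js
  induction js with
  | nil =>
    intro f hf
    have := hF f hf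
    exact ⟨by simpa [pre] using this.1, this.2⟩
  | cons j js ih =>
    intro f hf
    obtain ⟨a1, a2⟩ := ih _ (hf false)
    obtain ⟨b1, b2⟩ := ih _ (hf true)
    refine ⟨?_, ?_⟩
    · simp only [pre, DTree.depth, List.length_cons]
      omega
    · have := bad_pre τ hτ n js f j
      linarith

/-- Simulation for families of functions with influential variables, after asking about some
positions. -/
theorem tree_pre (F : Set ((Fin N → Bool) → ℝ)) (d : ℕ)
    (hF : ∀ f ∈ F, ∀ (j : Fin N) (c : Bool), rs j c f ∈ F)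
    (h01 : ∀ f ∈ F, (∀ y, 0 ≤ f y) ∧ ∀ y, f y ≤ 1)
    (hdeg : ∀ f ∈ F, DegLe d f) (η τ : ℝ) (hη : 0 < η) (hτ0 : 0 < τ)
    (hinf : ∀ f ∈ F, η / 72 < var f → ∃ l, τ ≤ inf2 f l)
    (js : List (Fin N)) (f : (Fin N → Bool) → ℝ) (hf : QQ F js f) :
    ∃ T : DTree (Fin N), (T.depth : ℝ) ≤ js.length + (2 * ((d : ℝ) + 1) / (τ * η) + 1) ∧
      EE (bad f T) ≤ η := by
  set v : ℝ := η / 72 with hv
  have hv0 : 0 < v := by positivity
  have hd0 : (0 : ℝ) ≤ d := Nat.cast_nonneg d
  set n : ℕ := ⌈2 * ((d : ℝ) + 1) / (τ * η)⌉₊ with hn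
  have key : ∀ f ∈ F, (sim τ n f).depth ≤ n ∧ EE (bad f (sim τ n f)) ≤ η := by
    intro f hf
    have h3 := Pool.Agent.H169R3.RQ.a3 a1 N F τ v hτ0 hv0.le hF (by
      intro g hg hj
      by_contra hc
      push Not at hc
      obtain ⟨l, hl⟩ := hinf g hg hc
      have h4 := hj l
      linarith) n f hf
    obtain ⟨h3a, h3b⟩ := h3
    refine ⟨h3a, ?_⟩
    have htot := Pool.Agent.H023R3.RQ.a2 N d f
      (fun y => by rw [abs_le]; constructor <;> linarith [(h01 f hf).1 y, (h01 f hf).2 y])
      (hdeg f hf)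
    by_contra hc
    push Not at hc
    have h5 : 2 * ((d : ℝ) + 1) / (τ * η) ≤ (n : ℝ) := Nat.le_ceil _
    have h8 : 2 * ((d : ℝ) + 1) ≤ (n : ℝ) * τ * η := by
      rw [div_le_iff₀ (by positivity)] at h5
      linarith
    have h9 : η / 2 < EE (bad f (sim τ n f)) - 36 * v := by
      rw [hv]; linarith
    have h10 : 0 < (n : ℝ) * τ := by
      by_contra hn
      push Not at hn
      nlinarith
    have h11 := mul_lt_mul_of_pos_left h9 h10
    linarith
  obtain ⟨h1, h2⟩ := pre_main τ hτ0 n F η key js f hf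
  refine ⟨_, ?_, h2⟩
  have h3 : ((pre τ n js f).depth : ℝ) ≤ js.length + n := by exact_mod_cast h1
  have h6 : (n : ℝ) ≤ 2 * ((d : ℝ) + 1) / (τ * η) + 1 := (Nat.ceil_lt_add_one (by positivity)).le
  linarith

end Pool.Agent.W938.NF
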