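import Pool.Agent.W938.NF.Run
import Pool.Agent.W938.NF.Pre
import Pool.Agent.W938.Rnd.Main

/-!
# Random oracles and circuits with noisy, measured and clean questions
-/

set_option autoImplicit false
set_option linter.unusedSectionVars false

namespace Pool.Agent.W938.NF

open Filter Pool.Agent.H620R2.Gauge Pool.Agent.NPC Pool.Agent.H889R3.RQ Pool.Agent.W938.Hyb
open Pool.Agent.W938.Rnd (InjA)
open H568R2
open Pool.Agent.H628R3.RO (randomOracle)
open Pool.Agent.H572R2 (EE EE_congr)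
open Pool.Agent.H572R4.QA (var rs DegLe)

/-! ### Locality -/

lemma accN_local {A A' : Oracle} {lam : ℝ} {m : ℕ} (b : ℕ)
    (hA : ∀ z : List Bool, z.length ≤ b → A z = A' z) : ∀ (l : List NGate)
    (_ : ∀ q k, Sum.inl (Sum.inr (true, q, k)) ∈ l → q.length ≤ b)
    (_ : ∀ u q k, Sum.inr (u, q, k) ∈ l → q.length ≤ b) (ψ : (Fin m → Bool) → ℝ),
    accN A lam l ψ = accN A' lam l ψ
  | [], _, _, _ => rfl
  | Sum.inl g :: l, h1, h2, ψ => by
    simp only [accN]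
    rw [gateAct_local (A := A) (A' := A') (g := g) (fun q k hg y hy => hA y
      (hy.trans_le (h1 q k (by rw [hg]; exact List.mem_cons_self)))) ψ]
    exact accN_local b hA l (fun q k h => h1 q k (List.mem_cons_of_mem _ h))
      (fun u q k h => h2 u q k (List.mem_cons_of_mem _ h)) _
  | Sum.inr (false, q, k) :: l, h1, h2, ψ => by
    have hq := h2 false q k List.mem_cons_self
    have e : ∀ ψ : (Fin m → Bool) → ℝ, gateAct A (Sum.inr (true, q, k)) ψ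
        = gateAct A' (Sum.inr (true, q, k)) ψ := fun ψ =>
      gateAct_local (fun q' k' hg y hy => hA y (by
        simp only [Sum.inr.injEq, Prod.mk.injEq, true_and] at hg
        rw [hy, ← hg.1]; exact hq)) ψ
    simp only [accN, e]
    refine Finset.sum_congr rfl fun v _ => ?_
    exact accN_local b hA l (fun q k h => h1 q k (List.mem_cons_of_mem _ h))
      (fun u q k h => h2 u q k (List.mem_cons_of_mem _ h)) _
  | Sum.inr (true, q, k) :: l, h1, h2, ψ => by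
    have hq := h2 true q k List.mem_cons_self
    have e : ∀ ψ : (Fin m → Bool) → ℝ, gateAct A (Sum.inr (true, q, k)) ψ
        = gateAct A' (Sum.inr (true, q, k)) ψ := fun ψ =>
      gateAct_local (fun q' k' hg y hy => hA y (by
        simp only [Sum.inr.injEq, Prod.mk.injEq, true_and] at hg
        rw [hy, ← hg.1]; exact hq)) ψ
    simp only [accN, e]
    refine Finset.sum_congr rfl fun v _ => ?_
    rw [accN_local b hA l (fun q k h => h1 q k (List.mem_cons_of_mem _ h))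
      (fun u q k h => h2 u q k (List.mem_cons_of_mem _ h)) _]

/-! ### Short strings -/

/-- All strings of length at most `ℓ`. -/
def sl : ℕ → List (List Bool)
  | 0 => [[]]
  | ℓ + 1 => [] :: ((sl ℓ).map (List.cons false) ++ (sl ℓ).map (List.cons true))

lemma sl_length : ∀ ℓ, (sl ℓ).length + 1 = 2 ^ (ℓ + 1)
  | 0 => rfl
  | ℓ + 1 => by
    have := sl_length ℓ
    simp only [sl, List.length_cons, List.length_append, List.length_map]
    rw [pow_succ]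
    omega

lemma mem_sl : ∀ (ℓ : ℕ) (z : List Bool), z.length ≤ ℓ → z ∈ sl ℓ
  | 0, [], _ => by simp [sl]
  | 0, _ :: _, h => by simp at h
  | ℓ + 1, [], _ => by simp [sl]
  | ℓ + 1, b :: z, h => by
    have := mem_sl ℓ z (by simpa using h)
    cases b <;> simp [sl, this]

variable {N : ℕ}

/-- The positions of the short strings. -/
noncomputable def js (Z : Adm N) (ℓ : ℕ) : List (Fin N) := (sl ℓ).filterMap fun z => (Z.kd z).getRight?

lemma js_length (Z : Adm N) (ℓ : ℕ) : (js Z ℓ).length ≤ 2 ^ (ℓ + 1) := by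
  have h1 := List.length_filterMap_le (fun z => (Z.kd z).getRight?) (sl ℓ)
  have h2 := sl_length ℓ
  unfold js
  omega

lemma mem_js (Z : Adm N) (ℓ : ℕ) (z : List Bool) (hz : z.length ≤ ℓ) (i : Fin N)
    (hi : Z.kd z = Sum.inr i) : i ∈ js Z ℓ := by
  unfold js
  rw [List.mem_filterMap]
  exact ⟨z, mem_sl ℓ z hz, by rw [hi]; rfl⟩

lemma kd_const (Z : Adm N) (z : List Bool) (b : Bool) (h : ∀ y, Z.O y z = b) :
    ∃ b', Z.kd z = Sum.inl b' := by
  cases hk : Z.kd z with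
  | inl b' => exact ⟨b', rfl⟩
  | inr i =>
    have h1 := Z.kd_inr hk (fun _ => true)
    have h2 := Z.kd_inr hk (fun _ => false)
    rw [h] at h1 h2
    rw [h1] at h2
    simp at h2

/-- The short strings are constant. -/
def Sh (ℓ : ℕ) (Z : Adm N) : Prop := ∀ z : List Bool, z.length ≤ ℓ → ∃ b, Z.kd z = Sum.inl b

lemma Sh.fix {ℓ : ℕ} {Z : Adm N} (h : Sh ℓ Z) (j : Fin N) (c : Bool) : Sh ℓ (Z.fix j c) := by
  intro z hz
  obtain ⟨b, hb⟩ := h z hz
  exact kd_const _ z b fun y => Z.kd_inl hb _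

/-- The family of the functions. -/
def GG (lam : ℝ) (ℓ : ℕ) (c : List Unit × List NGate) (N : ℕ) : Set ((Fin N → Bool) → ℝ) :=
  {f | ∃ Z : Adm N, InjA Z ∧ Sh ℓ Z ∧ f = fN lam Z c}

lemma kd_fix {Z : Adm N} {j : Fin N} {c : Bool} {z : List Bool} {i : Fin N}
    (h : (Z.fix j c).kd z = Sum.inr i) : i ≠ j ∧ Z.kd z = Sum.inr i := by
  have h' : ∀ y, Z.O (Function.update y j c) z = y i := fun y => (Z.fix j c).kd_inr h y
  cases hk : Z.kd z with
  | inl b =>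
    have h1 := h' (fun _ => true)
    have h2 := h' (fun _ => false)
    rw [Z.kd_inl hk] at h1 h2
    rw [h1] at h2
    simp at h2
  | inr i' =>
    have h3 : ∀ y : Fin N → Bool, Function.update y j c i' = y i := fun y => by
      have h5 := h' y
      rw [Z.kd_inr hk] at h5
      exact h5
    by_cases hij : i' = j
    · subst hij
      have h1 := h3 (fun _ => true)
      have h2 := h3 (fun _ => false)
      rw [Function.update_self] at h1 h2
      rw [h1] at h2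
      simp at h2
    · have h4 := h3 (fun l => decide (l = i'))
      rw [Function.update_of_ne hij] at h4
      simp only [decide_true] at h4
      have h5 : i = i' := by simpa using h4.symm
      subst h5
      exact ⟨hij, rfl⟩

lemma QQ_fix (lam : ℝ) (ℓ : ℕ) (c : List Unit × List NGate) : ∀ (l : List (Fin N)) (Z : Adm N),
    InjA Z → (∀ z : List Bool, z.length ≤ ℓ → ∀ i, Z.kd z = Sum.inr i → i ∈ l) →
    QQ (GG lam ℓ c N) l (fN lam Z c) := by
  intro l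
  induction l with
  | nil =>
    intro Z hZ h
    refine ⟨Z, hZ, fun z hz => ?_, rfl⟩
    cases hk : Z.kd z with
    | inl b => exact ⟨b, rfl⟩
    | inr i => exact absurd (h z hz i hk) (by simp)
  | cons j l ih =>
    intro Z hZ h b
    refine ih (Z.fix j b) (hZ.fix j b) fun z hz i hi => ?_
    obtain ⟨h1, h2⟩ := kd_fix hi
    rcases List.mem_cons.1 (h z hz i h2) with h3 | h3
    · exact absurd h3 h1
    · exact h3

/-! ### Trees -/

lemma DegLe_mono {a b : ℕ} (h : a ≤ b) {f : (Fin N → Bool) → ℝ} (hf : DegLe a f) : DegLe b f :=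
  fun S hS => hf S (lt_of_le_of_lt h hS)

theorem tree_noisy {lam : ℝ} (h0 : 0 ≤ lam) (h1 : lam ≤ 1) {Z : Adm N} (hZ : InjA Z) {r : ℕ}
    {c : List Unit × List NGate} (hc : CleanRounds r c.2) (hok : NoiseOK c.1.length c.2) (T' : ℕ)
    (hT' : 2 * c.2.length + 1 ≤ T') (η : ℝ) (hη : 0 < η) (ℓ : ℕ)
    (hℓ : (max lam (1 - lam)) ^ (ℓ + 1)
      ≤ ((η / 72) / (192 * (T' : ℝ) ^ 3)) ^ 2 / (4 * KK T' (2 * r))) :
    ∃ T : DTree (Fin N), (T.depth : ℝ) ≤ 2 ^ (ℓ + 1) + (2 * (((2 * T' : ℕ) : ℝ) + 1)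
      / (((η / 72) ^ 4 / (2 ^ 21 * (T' : ℝ) ^ 9 * KK T' (2 * r))) ^ 2 * η) + 1) ∧
      EE (bad (fN lam Z c) T) ≤ η := by
  have hT1 : 1 ≤ T' := by omega
  have hTr : (0 : ℝ) < T' := by exact_mod_cast hT1
  have hK := KK_pos (Rm := 2 * r) hT1
  obtain ⟨T, t1, t2⟩ := tree_pre (GG lam ℓ c N) (2 * T')
    (by
      rintro f ⟨Z', hZ', hs, rfl⟩ j b
      exact ⟨Z'.fix j b, hZ'.fix j b, hs.fix j b, rfl⟩)
    (by
      rintro f ⟨Z', hZ', hs, rfl⟩
      exact (degN h0 h1 Z' c).2)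
    (by
      rintro f ⟨Z', hZ', hs, rfl⟩
      exact DegLe_mono (by omega) (degN h0 h1 Z' c).1)
    η (((η / 72) ^ 4 / (2 ^ 21 * (T' : ℝ) ^ 9 * KK T' (2 * r))) ^ 2) hη (by positivity)
    (by
      rintro f ⟨Z', hZ', hs, rfl⟩ hv
      exact inflN h0 h1 Z' hZ' ℓ r hs c hc hok T' hT' (η / 72) (by positivity) hv.le hℓ)
    (js Z ℓ) (fN lam Z c) (QQ_fix lam ℓ c _ Z hZ fun z hz i hi => mem_js Z ℓ z hz i hi)
  refine ⟨T, t1.trans ?_, t2⟩
  have h2 : ((js Z ℓ).length : ℝ) ≤ 2 ^ (ℓ + 1) := by exact_mod_cast js_length Z ℓ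
  linarith

/-! ### Bounds -/

theorem ngates_bound {C : List Bool → List Unit × List NGate} (hC : PolyTime (fun x => bits (C x))) :
    ∃ b : Polynomial ℕ, ∀ x, (C x).2.length ≤ b.eval x.length ∧
      (∀ q k, Sum.inl (Sum.inr (true, q, k)) ∈ (C x).2 → q.length ≤ b.eval x.length) ∧
      ∀ u q k, Sum.inr (u, q, k) ∈ (C x).2 → q.length ≤ b.eval x.length := by
  obtain ⟨q, hq⟩ := (Pool.Agent.H622R2.poly_of_polyTime hC).sz_le
  refine ⟨q.comp (Polynomial.C 4 * Polynomial.X + Polynomial.C 1), fun x => ?_⟩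
  have h0 : sz (C x) ≤ (q.comp (Polynomial.C 4 * Polynomial.X + Polynomial.C 1)).eval x.length := by
    have h1 := length_lt_sz (bits (C x))
    rw [bits_length] at h1
    refine h1.le.trans ((hq _).trans ?_)
    rw [Polynomial.eval_comp]
    apply eval_mono
    have h2 := sz_listBool_le x
    simp only [Polynomial.eval_add, Polynomial.eval_mul, Polynomial.eval_C, Polynomial.eval_X]
    omega
  have h3 : sz (C x) = sz (C x).1 + sz (C x).2 + 1 := sz_pair (C x).1 (C x).2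
  refine ⟨?_, ?_, ?_⟩
  · have := length_lt_sz (C x).2
    omega
  · intro q' k hmem
    have h4 := sz_le_of_mem hmem
    have h5 := length_lt_sz q'
    rw [sz_inl, sz_inr, sz_pair, sz_pair] at h4
    omega
  · intro u q' k hmem
    have h4 := sz_le_of_mem hmem
    have h5 := length_lt_sz q'
    rw [sz_inr, sz_pair, sz_pair] at h4
    omega

theorem countable_ncirc :
    {C : List Bool → List Unit × List NGate | PolyTime (fun x => bits (C x))}.Countable := by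
  have h1 : {D : List Bool → List Bool | PolyTime D}.Countable := countable_polyTime
  refine Set.MapsTo.countable_of_injOn (f := fun C x => bits (C x))
    (t := {D : List Bool → List Bool | PolyTime D}) (fun C hC => hC) ?_ h1
  intro C _ C' _ h
  funext x
  exact bits_injective (congrFun h x)

/-- The devices. -/
def Dev (r : ℕ → ℕ) : Type := {C : List Bool → List Unit × List NGate //
  PolyTime (fun x => bits (C x)) ∧
    ∀ x, CleanRounds (r x.length) (C x).2 ∧ NoiseOK (C x).1.length (C x).2}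

instance (r : ℕ → ℕ) : Countable (Dev r) := by
  have h1 : {C : List Bool → List Unit × List NGate |
      PolyTime (fun x => bits (C x)) ∧
        ∀ x, CleanRounds (r x.length) (C x).2 ∧ NoiseOK (C x).1.length (C x).2}.Countable := by
    refine countable_ncirc.mono ?_
    rintro C ⟨h, _⟩
    exact h
  exact h1.to_subtype

/-- The numbers. -/
lemma KK_le (P R : ℕ) (hP : 1 ≤ P) : KK P (2 * R) ≤ (((16 * P ^ 4) ^ 4 : ℕ) : ℝ) ^ (R + 1) := by
  unfold KK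
  have hP1 : (1 : ℝ) ≤ P := by exact_mod_cast hP
  have h1 : (1 : ℝ) ≤ 16 * (P : ℝ) ^ 4 := by
    have : (1 : ℝ) ≤ (P : ℝ) ^ 4 := one_le_pow₀ hP1
    linarith
  push_cast
  rw [← pow_mul]
  exact pow_le_pow_right₀ h1 (by omega)

lemma choose_s (X : ℕ) (hX : 1 ≤ X) : ∃ s : ℕ, X ≤ 2 ^ s ∧ 2 ^ s ≤ 2 * X := by
  refine ⟨Nat.log 2 X + 1, ?_, ?_⟩
  · exact (Nat.lt_pow_succ_log_self (by norm_num) X).le
  · rw [pow_succ, mul_comm]
    exact Nat.mul_le_mul_left 2 (Nat.pow_log_le_self 2 (by omega))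

/-- The depth in numbers. -/
theorem numbers (lam : ℝ) (h0 : 0 ≤ lam) (c0 : ℕ) (hc0 : (max lam (1 - lam)) ^ c0 ≤ 1 / 2)
    (hm1 : max lam (1 - lam) ≤ 1)
    (P R n k : ℕ) (hP : 1 ≤ P) : ∃ ℓ : ℕ,
    (max lam (1 - lam)) ^ (ℓ + 1) ≤ (((1 / ((n : ℝ) + 2) ^ k) / 72) / (192 * (P : ℝ) ^ 3)) ^ 2
      / (4 * KK P (2 * R)) ∧
    (2 : ℝ) ^ (ℓ + 1) + (2 * (((2 * P : ℕ) : ℝ) + 1)
      / ((((1 / ((n : ℝ) + 2) ^ k) / 72) ^ 4 / (2 ^ 21 * (P : ℝ) ^ 9 * KK P (2 * R))) ^ 2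
        * (1 / ((n : ℝ) + 2) ^ k)) + 1)
      ≤ (((2 * (2 * (4 * (16 * P ^ 4) ^ 4 * (13824 * P ^ 3 * (n + 2) ^ k) ^ 2)) ^ c0
        + 2 * (2 * P + 1) * (2 ^ 21 * 72 ^ 4 * P ^ 9 * (n + 2) ^ (4 * k)) ^ 2
          * ((16 * P ^ 4) ^ 4) ^ 2 * (n + 2) ^ k + 1) ^ (R + 1) : ℕ) : ℝ) := by
  have hμ0 : 0 ≤ max lam (1 - lam) := h0.trans (le_max_left _ _)
  have hP1 : (1 : ℝ) ≤ P := by exact_mod_cast hP
  have hP0 : (0 : ℝ) < P := by linarith
  have hK0 := KK_pos (Rm := 2 * R) hP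
  have hK1 := KK_le P R hP
  set K := KK P (2 * R) with hK
  obtain ⟨E, hE⟩ : ∃ E : ℕ, E = (16 * P ^ 4) ^ 4 := ⟨_, rfl⟩
  have hE1 : 1 ≤ E := by rw [hE]; exact Nat.one_le_pow _ _ (by positivity)
  rw [← hE] at hK1
  obtain ⟨Y, hY⟩ : ∃ Y : ℕ, Y = (13824 * P ^ 3 * (n + 2) ^ k) ^ 2 := ⟨_, rfl⟩
  have hY1 : 1 ≤ Y := by rw [hY]; exact Nat.one_le_pow _ _ (by positivity)
  obtain ⟨X, hX⟩ : ∃ X : ℕ, X = 4 * E * Y := ⟨_, rfl⟩
  have hX1 : 1 ≤ X := by rw [hX]; exact Nat.succ_le_of_lt (by positivity)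
  obtain ⟨s, hs1, hs2⟩ := choose_s (X ^ (R + 1)) (Nat.one_le_pow _ _ hX1)
  have hn0 : (0 : ℝ) < (n : ℝ) + 2 := by positivity
  refine ⟨c0 * s, ?_, ?_⟩
  · have h2 : (max lam (1 - lam)) ^ (c0 * s + 1) ≤ 1 / (X : ℝ) ^ (R + 1) := by
      calc (max lam (1 - lam)) ^ (c0 * s + 1) ≤ (max lam (1 - lam)) ^ (c0 * s) :=
            pow_le_pow_of_le_one hμ0 hm1 (Nat.le_succ _)
        _ = ((max lam (1 - lam)) ^ c0) ^ s := pow_mul _ _ _
        _ ≤ (1 / 2) ^ s := pow_le_pow_left₀ (pow_nonneg hμ0 _) hc0 _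
        _ = 1 / 2 ^ s := by rw [div_pow, one_pow]
        _ ≤ 1 / (X : ℝ) ^ (R + 1) := by
            apply one_div_le_one_div_of_le
            · have : (0 : ℝ) < X := by exact_mod_cast hX1
              positivity
            · exact_mod_cast hs1
    refine h2.trans ?_
    have e : (((1 / ((n : ℝ) + 2) ^ k) / 72) / (192 * (P : ℝ) ^ 3)) ^ 2 / (4 * K)
        = 1 / (4 * K * Y) := by
      rw [hY]
      push_cast
      field_simp
      norm_num
    rw [e]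
    apply one_div_le_one_div_of_le (by positivity)
    have h3 : (Y : ℝ) ≤ (Y : ℝ) ^ (R + 1) := le_self_pow₀ (by exact_mod_cast hY1) (by omega)
    have h4 : (4 : ℝ) ≤ 4 ^ (R + 1) := le_self_pow₀ (by norm_num) (by omega)
    have e2 : (X : ℝ) ^ (R + 1) = 4 ^ (R + 1) * (E : ℝ) ^ (R + 1) * (Y : ℝ) ^ (R + 1) := by
      rw [hX]
      push_cast
      rw [mul_pow, mul_pow]
    rw [e2]
    gcongr
  · have e : 2 * (((2 * P : ℕ) : ℝ) + 1)
      / ((((1 / ((n : ℝ) + 2) ^ k) / 72) ^ 4 / (2 ^ 21 * (P : ℝ) ^ 9 * K)) ^ 2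
        * (1 / ((n : ℝ) + 2) ^ k))
        = (2 * (2 * (P : ℝ) + 1) * (2 ^ 21 * 72 ^ 4 * (P : ℝ) ^ 9 * ((n : ℝ) + 2) ^ (4 * k)) ^ 2
          * ((n : ℝ) + 2) ^ k) * K ^ 2 := by
      push_cast
      field_simp
      ring
    rw [e]
    obtain ⟨W, hW⟩ : ∃ W : ℕ, W = 2 * (2 * P + 1) * (2 ^ 21 * 72 ^ 4 * P ^ 9 * (n + 2) ^ (4 * k)) ^ 2
          * (n + 2) ^ k := ⟨_, rfl⟩
    have hW1 : 1 ≤ W := by rw [hW]; exact Nat.succ_le_of_lt (by positivity)
    have hWr : (2 * (2 * (P : ℝ) + 1) * (2 ^ 21 * 72 ^ 4 * (P : ℝ) ^ 9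
        * ((n : ℝ) + 2) ^ (4 * k)) ^ 2 * ((n : ℝ) + 2) ^ k) = (W : ℝ) := by
      rw [hW]; push_cast; ring
    rw [hWr]
    have h5 : (W : ℝ) * K ^ 2 ≤ (((W * E ^ 2 : ℕ) : ℝ)) ^ (R + 1) := by
      have h6 : (W : ℝ) ≤ (W : ℝ) ^ (R + 1) := le_self_pow₀ (by exact_mod_cast hW1) (by omega)
      have h7 : K ^ 2 ≤ ((E : ℝ) ^ (R + 1)) ^ 2 := pow_le_pow_left₀ hK0.le hK1 2
      push_cast
      rw [mul_pow]
      have e3 : ((E : ℝ) ^ 2) ^ (R + 1) = ((E : ℝ) ^ (R + 1)) ^ 2 := by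
        rw [← pow_mul, ← pow_mul, mul_comm]
      rw [e3]
      gcongr
    have h8 : (2 : ℝ) ^ (c0 * s + 1) ≤ (((2 * (2 * X) ^ c0 : ℕ) : ℝ)) ^ (R + 1) := by
      have h9 : (2 : ℝ) ^ s ≤ 2 * (X : ℝ) ^ (R + 1) := by exact_mod_cast hs2
      have h10 : 2 * (X : ℝ) ^ (R + 1) ≤ (2 * (X : ℝ)) ^ (R + 1) := by
        rw [mul_pow]
        have h4 : (2 : ℝ) ≤ 2 ^ (R + 1) := le_self_pow₀ (by norm_num) (by omega)
        gcongr
      have h11 : (2 : ℝ) ≤ 2 ^ (R + 1) := le_self_pow₀ (by norm_num) (by omega)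
      calc (2 : ℝ) ^ (c0 * s + 1) = 2 * ((2 : ℝ) ^ s) ^ c0 := by
            rw [pow_succ, mul_comm c0 s, pow_mul]; ring
        _ ≤ 2 ^ (R + 1) * ((2 * (X : ℝ)) ^ (R + 1)) ^ c0 := by
            have := pow_le_pow_left₀ (by positivity) (h9.trans h10) c0
            gcongr
        _ = (((2 * (2 * X) ^ c0 : ℕ) : ℝ)) ^ (R + 1) := by
            push_cast
            rw [mul_pow 2 ((2 * (X : ℝ)) ^ c0), ← pow_mul, ← pow_mul, mul_comm (R + 1) c0]
    have h12 := pow_add_pow_le (x := (((2 * (2 * X) ^ c0 : ℕ) : ℝ)))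
      (y := (((W * E ^ 2 : ℕ) : ℝ))) (by positivity) (by positivity) (Nat.succ_ne_zero R)
    have h13 := pow_add_pow_le (x := (((2 * (2 * X) ^ c0 : ℕ) : ℝ)) + (((W * E ^ 2 : ℕ) : ℝ)))
      (y := 1) (by positivity) zero_le_one (Nat.succ_ne_zero R)
    rw [one_pow] at h13
    rw [Nat.succ_eq_add_one] at h12 h13
    have h14 : (2 : ℝ) ^ (c0 * s + 1) + ((W : ℝ) * K ^ 2 + 1)
        ≤ ((((2 * (2 * X) ^ c0 : ℕ) : ℝ)) + (((W * E ^ 2 : ℕ) : ℝ)) + 1) ^ (R + 1) := by linarith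
    refine h14.trans (le_of_eq ?_)
    rw [hX, hY, hW, hE]
    push_cast
    congr 1
    ring

open Polynomial in
theorem dev_tree (r : ℕ → ℕ) (lam : ℝ) (h0 : 0 < lam) (h1 : lam < 1) (g : Dev r) (k : ℕ) :
    ∃ d : ℕ, ∀ x : List Bool, ∃ T : DTree (List Bool),
    T.depth ≤ (x.length + 2) ^ (d * (r x.length + 1)) ∧
    MeasurableSet (WrongA (fun A => accN A lam (g.1 x).2 (initSt (g.1 x).1.length)) T) ∧
    randomOracle.real (WrongA (fun A => accN A lam (g.1 x).2 (initSt (g.1 x).1.length)) T)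
      ≤ 1 / ((x.length : ℝ) + 2) ^ k := by
  obtain ⟨C, hpoly, hC⟩ := g
  obtain ⟨B, hB⟩ := ngates_bound hpoly
  have hμ1 : max lam (1 - lam) < 1 := max_lt h1 (by linarith)
  have hμ0 : 0 ≤ max lam (1 - lam) := h0.le.trans (le_max_left _ _)
  obtain ⟨c0, hc0⟩ := exists_pow_lt_of_lt_one (show (0 : ℝ) < 1 / 2 by norm_num) hμ1
  obtain ⟨d, hd⟩ := poly_bound (2 * (2 * (4 * (Polynomial.C 16 * (2 * B + 1) ^ 4) ^ 4
      * (Polynomial.C 13824 * (2 * B + 1) ^ 3 * (X + 2) ^ k) ^ 2)) ^ c0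
        + 2 * (2 * (2 * B + 1) + 1) * (Polynomial.C (2 ^ 21 * 72 ^ 4) * (2 * B + 1) ^ 9
          * (X + 2) ^ (4 * k)) ^ 2 * ((Polynomial.C 16 * (2 * B + 1) ^ 4) ^ 4) ^ 2
          * (X + 2) ^ k + 1)
  refine ⟨d, fun x => ?_⟩
  set L := B.eval x.length with hL
  set n := x.length with hn
  obtain ⟨hB1, hB2, hB3⟩ := hB x
  have hη0 : (0 : ℝ) < 1 / ((n : ℝ) + 2) ^ k := by positivity
  obtain ⟨ℓ, hℓ1, hℓ2⟩ := numbers lam h0.le c0 hc0.le hμ1.le (2 * L + 1) (r n) n k (by omega)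
  obtain ⟨T, hT1, hT2, hT3⟩ := Pool.Agent.W938.Rnd.tree_oracle
    (fun A => accN A lam (C x).2 (initSt (C x).1.length)) L _ (1 / ((n : ℝ) + 2) ^ k)
    (fun A A' hAA => accN_local L hAA (C x).2 hB2 hB3 _)
    (fun N Z hZ => tree_noisy h0.le h1.le hZ (hC x).1 (hC x).2 (2 * L + 1) (by omega) _ hη0 ℓ hℓ1)
  refine ⟨T, ?_, hT2, hT3⟩
  have h2 := hT1.trans hℓ2
  have h3 := (Nat.cast_le (α := ℝ)).1 h2
  refine h3.trans ?_
  rw [pow_mul (n + 2) d]
  refine Nat.pow_le_pow_left (le_trans (le_of_eq ?_) (hd n)) _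
  simp [hL]

open Classical in
/-- The theorem for circuits with noisy, measured and clean questions. -/
theorem noisy_final (r : ℕ → ℕ) (lam : ℝ) (h0 : 0 < lam) (h1 : lam < 1) (k : ℕ) :
    ∃ T : ℕ → List Bool → DTree (List Bool),
    (∀ i, ∃ d : ℕ, ∀ x, (T i x).depth ≤ (x.length + 2) ^ (d * (r x.length + 1))) ∧
    (∀ w : List Bool → ℝ, (∀ x, 0 ≤ w x) → (∀ n, ∑ x : Fin n → Bool, w (List.ofFn x) ≤ 1) →
      ∀ᵐ A ∂randomOracle, ∀ L : Set (List Bool), IsNoisyBQP r lam A L → ∃ i, ∀ᶠ n : ℕ in atTop,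
        (∑ x : Fin n → Bool, if ((T i (List.ofFn x)).eval A = true ↔ List.ofFn x ∈ L) then 0
          else w (List.ofFn x)) * n ^ k ≤ 1) ∧
    (∀ S : Set (List Bool), (∀ n, 1 ≤ n → {x : Fin n → Bool | List.ofFn x ∈ S}.ncard ≤ n ^ k) →
      ∀ᵐ A ∂randomOracle, ∀ L : Set (List Bool), IsNoisyBQP r lam A L → ∃ i, ∀ᶠ n : ℕ in atTop,
        ∀ x : Fin n → Bool, List.ofFn x ∈ S →
          ((T i (List.ofFn x)).eval A = true ↔ List.ofFn x ∈ L)) :=
  Pool.Agent.W938.Rnd.languages (fun d n => (n + 2) ^ (d * (r n + 1)))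
    (fun (g : Dev r) x A => accN A lam (g.1 x).2 (initSt (g.1 x).1.length))
    (dev_tree r lam h0 h1) (IsNoisyBQP r lam) (fun A L ⟨C, a1, a2, a3⟩ => ⟨⟨C, a1, a2⟩, a3⟩) k

end Pool.Agent.W938.NF
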