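import Pool.Agent.W938.NF.Light

/-!
# Influential coordinates and bit fixing from a light lemma, for classes of processes with weights
-/

set_option autoImplicit false
set_option linter.unusedSectionVars false

namespace Pool.Agent.W938.NF

open Finset Pool.Agent.H722R2.AA Pool.Agent.H746R2.AA Pool.Agent.H703R2.AA Pool.Agent.H703R2.AA.Pr
  Pool.Agent.H703R2.AB Pool.Agent.H703R2.AC

variable {κ ι W : Type*} [Fintype κ] [DecidableEq κ] [Fintype ι] [DecidableEq ι] [Fintype W]

/-- A class of processes with weights of the positions: `C P L μ` means that `P` is in the class,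
that the positions in `L` are dead, and that `μ t k`, `t < n`, are the weights. -/
structure Cls (κ ι W : Type*) [Fintype κ] [DecidableEq κ] [Fintype ι] [DecidableEq ι] [Fintype W]
    (n : ℕ) where
  C : Pr κ ι W → Finset κ → (ℕ → κ → ℝ) → Prop
  nn : ∀ P L μ, C P L μ → ∀ t k, 0 ≤ μ t k
  sm : ∀ P L μ, C P L μ → ∀ t, ∑ k, μ t k ≤ 1
  dead : ∀ P L μ, C P L μ → ∀ t, ∀ l ∈ L, μ t l = 0
  res : ∀ P L μ, C P L μ → ∀ k, ∃ μ1 μ2, C (P.res k 1) (insert k L) μ1 ∧
    C (P.res k (-1)) (insert k L) μ2 ∧ ∀ t l, μ1 t l + μ2 t l = if l = k then 0 else 2 * μ t l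

variable {n : ℕ} (M : Cls κ ι W n)

/-- The potential. -/
noncomputable def Pot (n : ℕ) (μ : ℕ → κ → ℝ) : ℝ := ∑ t ∈ Finset.range n, ∑ k, μ t k

lemma Pot_nonneg {P : Pr κ ι W} {L : Finset κ} {μ : ℕ → κ → ℝ} (h : M.C P L μ) : 0 ≤ Pot n μ :=
  Finset.sum_nonneg fun t _ => Finset.sum_nonneg fun k _ => M.nn P L μ h t k

lemma Pot_le {P : Pr κ ι W} {L : Finset κ} {μ : ℕ → κ → ℝ} (h : M.C P L μ) : Pot n μ ≤ n := by
  calc Pot n μ ≤ ∑ _t ∈ Finset.range n, (1 : ℝ) := Finset.sum_le_sum fun t _ => M.sm P L μ h t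
    _ = _ := by simp

lemma Pot_res (k : κ) (μ μ1 μ2 : ℕ → κ → ℝ)
    (h : ∀ t l, μ1 t l + μ2 t l = if l = k then 0 else 2 * μ t l) :
    Pot n μ1 + Pot n μ2 = 2 * (Pot n μ - ∑ t ∈ Finset.range n, μ t k) := by
  unfold Pot
  rw [← Finset.sum_add_distrib, ← Finset.sum_sub_distrib, Finset.mul_sum]
  refine Finset.sum_congr rfl fun t _ => ?_
  rw [← Finset.sum_add_distrib]
  simp_rw [h]
  rw [← Finset.add_sum_erase Finset.univ (fun l : κ => if l = k then (0 : ℝ) else 2 * μ t l)
      (Finset.mem_univ k), if_pos rfl, zero_add,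
    ← Finset.add_sum_erase Finset.univ (fun l : κ => μ t l) (Finset.mem_univ k),
    add_sub_cancel_left, Finset.mul_sum]
  refine Finset.sum_congr rfl fun l hl => ?_
  rw [if_neg (Finset.ne_of_mem_erase hl)]

/-- The covariance bound. -/
theorem cov_abs (θ : ℝ) (hθ : 0 < θ) (B : ℝ) (T : ℕ)
    (g : List W → ℝ) (hg0 : ∀ a, 0 ≤ g a) (hg1 : ∀ a, g a ≤ 1)
    (hB : ∀ P L μ, M.C P L μ → (∀ t < n, ∀ k, μ t k ≤ θ) → Cov (P.out T g) (P.out T g) ≤ B)
    (h : (κ → ℤˣ) → ℝ) (I : ℝ) (hI : ∀ l, Real.sqrt (Inf h l) ≤ I) (hI0 : 0 ≤ I) :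
    ∀ (m : ℕ) (L : Finset κ) (P : Pr κ ι W) (μ : ℕ → κ → ℝ), Lᶜ.card = m → M.C P L μ →
      |Cov (P.out T g) h| ≤ Real.sqrt B * Real.sqrt (Cov h h)
        + Pot n μ / (2 * θ) * I := by
  intro m
  induction m with
  | zero =>
    intro L P μ hn hL
    have hlight := hB P L μ hL (fun t _ k => by
      have hk : k ∈ L := by
        by_contra hk
        have : k ∈ Lᶜ := Finset.mem_compl.2 hk
        rw [Finset.card_eq_zero.1 hn] at this
        simp at this
      rw [M.dead P L μ hL t k hk]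
      exact hθ.le)
    have h1 := abs_Cov_le (P.out T g) h
    have h2 : Real.sqrt (Cov (P.out T g) (P.out T g)) * Real.sqrt (Cov h h)
        ≤ Real.sqrt B * Real.sqrt (Cov h h) :=
      mul_le_mul_of_nonneg_right (Real.sqrt_le_sqrt hlight) (Real.sqrt_nonneg _)
    have h3 : 0 ≤ Pot n μ / (2 * θ) * I :=
      mul_nonneg (div_nonneg (Pot_nonneg M hL) (by positivity)) hI0
    linarith
  | succ m ih =>
    intro L P μ hn hL
    by_cases hlt : ∀ t < n, ∀ k, μ t k ≤ θ
    · have hlight := hB P L μ hL hlt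
      have h1 := abs_Cov_le (P.out T g) h
      have h2 : Real.sqrt (Cov (P.out T g) (P.out T g)) * Real.sqrt (Cov h h)
          ≤ Real.sqrt B * Real.sqrt (Cov h h) :=
        mul_le_mul_of_nonneg_right (Real.sqrt_le_sqrt hlight) (Real.sqrt_nonneg _)
      have h3 : 0 ≤ Pot n μ / (2 * θ) * I :=
        mul_nonneg (div_nonneg (Pot_nonneg M hL) (by positivity)) hI0
      linarith
    · push Not at hlt
      obtain ⟨t, ht, k, hk⟩ := hlt
      have hkL : k ∉ L := by
        intro hkL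
        rw [M.dead P L μ hL t k hkL] at hk
        linarith
      have hcard : (insert k L)ᶜ.card = m := by
        have h1 := Finset.card_compl_add_card L
        have h2 := Finset.card_compl_add_card (insert k L)
        rw [Finset.card_insert_of_notMem hkL] at h2
        omega
      obtain ⟨μ1, μ2, hM1, hM2, hμ⟩ := M.res P L μ hL k
      have i1 := ih (insert k L) (P.res k 1) μ1 hcard hM1
      have i2 := ih (insert k L) (P.res k (-1)) μ2 hcard hM2
      rw [out_res] at i1 i2
      have hsplit := Cov_split (P.out T g) h k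
      have hq : |Ex (fun x => sg x k * D (P.out T g) k x * h x)| ≤ 1 / 2 * I := by
        refine (abs_Ex_sg_mul_le k (D (P.out T g) k) h (fun x u => D_update _ k x u)).trans ?_
        refine mul_le_mul ?_ (hI k) (Real.sqrt_nonneg _) (by norm_num)
        rw [Real.sqrt_le_left (by norm_num)]
        refine Ex_le_const fun x => ?_
        have := abs_D_le (P.out T g) (P.out_nonneg T g hg0) (P.out_le T g hg1) k x
        rw [← sq_abs]
        exact pow_le_pow_left₀ (abs_nonneg _) this 2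
      have hPot := Pot_res (n := n) k μ μ1 μ2 hμ
      have hdk : θ ≤ ∑ t ∈ Finset.range n, μ t k :=
        hk.le.trans (Finset.single_le_sum (f := fun t => μ t k)
          (fun t _ => M.nn P L μ hL t k) (Finset.mem_range.2 ht))
      have hc3 : 0 < 2 * θ := by positivity
      have hfin : (Pot n μ1 / (2 * θ) * I + Pot n μ2 / (2 * θ) * I) / 2
          + 1 / 2 * I ≤ Pot n μ / (2 * θ) * I := by
        have e : (Pot n μ1 / (2 * θ) * I + Pot n μ2 / (2 * θ) * I) / 2
            = (Pot n μ - ∑ t ∈ Finset.range n, μ t k) / (2 * θ) * I := by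
          have : Pot n μ1 / (2 * θ) * I + Pot n μ2 / (2 * θ) * I
              = (Pot n μ1 + Pot n μ2) / (2 * θ) * I := by ring
          rw [this, hPot]; ring
        rw [e]
        have h5 : (Pot n μ - ∑ t ∈ Finset.range n, μ t k) / (2 * θ)
            ≤ Pot n μ / (2 * θ) - 1 / 2 := by
          rw [div_le_iff₀ hc3, sub_mul, div_mul_cancel₀ _ hc3.ne']
          linarith
        have h6 := mul_le_mul_of_nonneg_right h5 hI0
        linarith
      rw [hsplit]
      calc |(Cov (fr k 1 (P.out T g)) h + Cov (fr k (-1) (P.out T g)) h) / 2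
            + Ex (fun x => sg x k * D (P.out T g) k x * h x)|
          ≤ |(Cov (fr k 1 (P.out T g)) h + Cov (fr k (-1) (P.out T g)) h) / 2|
            + |Ex (fun x => sg x k * D (P.out T g) k x * h x)| := abs_add_le _ _
        _ ≤ (|Cov (fr k 1 (P.out T g)) h| + |Cov (fr k (-1) (P.out T g)) h|) / 2
            + |Ex (fun x => sg x k * D (P.out T g) k x * h x)| := by
            rw [abs_div, abs_of_pos (by norm_num : (0 : ℝ) < 2)]
            have := abs_add_le (Cov (fr k 1 (P.out T g)) h) (Cov (fr k (-1) (P.out T g)) h)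
            linarith
        _ ≤ _ := by linarith

/-- Influential coordinates from a light lemma. -/
theorem main_abs (θ : ℝ) (hθ : 0 < θ) (hn : 1 ≤ n) (T : ℕ) (g : List W → ℝ) (hg0 : ∀ a, 0 ≤ g a)
    (hg1 : ∀ a, g a ≤ 1) (P : Pr κ ι W) (μ : ℕ → κ → ℝ) (hP : M.C P ∅ μ)
    (hV : 0 < Cov (P.out T g) (P.out T g))
    (hB : ∀ P' L μ', M.C P' L μ' → (∀ t < n, ∀ k, μ' t k ≤ θ) →
      Cov (P'.out T g) (P'.out T g) ≤ Cov (P.out T g) (P.out T g) / 4) :
    ∃ l, (θ * Cov (P.out T g) (P.out T g) / n) ^ 2 ≤ Inf (P.out T g) l := by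
  set f := P.out T g with hf
  set V := Cov f f with hVdef
  have hT0 : (0 : ℝ) < n := by exact_mod_cast hn
  have hsq : Real.sqrt (V / 4) * Real.sqrt V ≤ V / 2 := by
    have e : V / 4 = (Real.sqrt V / 2) ^ 2 := by
      rw [div_pow, Real.sq_sqrt hV.le]; norm_num
    have h1 : Real.sqrt (V / 4) = Real.sqrt V / 2 := by
      rw [e, Real.sqrt_sq (by positivity)]
    rw [h1, div_mul_eq_mul_div, Real.mul_self_sqrt hV.le]
  have key : ∀ I : ℝ, 0 ≤ I → (∀ l, Real.sqrt (Inf f l) ≤ I) → θ * V / n ≤ I := by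
    intro I hI0 hI
    have h1 := cov_abs M θ hθ (V / 4) T g hg0 hg1 hB f I hI hI0 (∅ᶜ : Finset κ).card ∅ P μ
      rfl hP
    rw [← hf, ← hVdef, abs_of_pos hV] at h1
    have h2 := Pot_le M hP
    have h3 : Pot n μ / (2 * θ) * I ≤ n / (2 * θ) * I :=
      mul_le_mul_of_nonneg_right (div_le_div_of_nonneg_right h2 (by positivity)) hI0
    have h4 : V / 2 ≤ n / (2 * θ) * I := by linarith
    rw [div_le_iff₀ hT0]
    have h6 := mul_le_mul_of_nonneg_right h4 (by positivity : 0 ≤ 2 * θ)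
    have e2 : (n : ℝ) / (2 * θ) * I * (2 * θ) = I * n := by
      field_simp
    linarith
  rcases isEmpty_or_nonempty κ with hκ | hκ
  · exfalso
    have := key 0 le_rfl (fun l => (IsEmpty.false l).elim)
    have h2 : 0 < θ * V / n := by positivity
    linarith
  · obtain ⟨l, _, hl⟩ := Finset.exists_max_image (Finset.univ : Finset κ) (fun l => Inf f l)
      Finset.univ_nonempty
    refine ⟨l, ?_⟩
    have h1 := key (Real.sqrt (Inf f l)) (Real.sqrt_nonneg _)
      (fun l' => Real.sqrt_le_sqrt (hl l' (Finset.mem_univ _)))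
    calc _ ≤ Real.sqrt (Inf f l) ^ 2 := pow_le_pow_left₀ (by positivity) h1 2
      _ = _ := Real.sq_sqrt (Inf_nonneg f l)

end Pool.Agent.W938.NF
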