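import Pool.Agent.W938.Hyb.GateM

/-!
# Quantum circuits with noisy, measured and clean questions

A quantum computer whose access to the oracle is mostly noisy or classical.
-/

set_option autoImplicit false

namespace Pool.Agent.W938.NF

open Pool.Agent.NPC Pool.Agent.H620R2.Gauge Pool.Agent.W938.Hyb

/-- A gate: `inl g` is an ordinary gate `g` (a Hadamard gate, a multiply controlled not gate or a
clean oracle gate); `inr (false, q, k)` is an oracle gate whose question (the string in the qubits
`q`) is measured; `inr (true, q, k)` is an oracle gate before which noise acts on the qubits `q`. -/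
abbrev NGate : Type := Gate ⊕ (Bool × List ℕ × ℕ)

/-- The gate is a clean oracle gate: it asks a question in superposition, without noise. -/
def Clean (g : NGate) : Prop := ∃ q k, g = Sum.inl (Sum.inr (true, q, k))

/-- `R` is a round of parallel clean questions: all gates of `R` are clean oracle gates, and no gate
of `R` changes a qubit in which a gate of `R` finds its question. -/
def NRound (R : List NGate) : Prop :=
  (∀ g ∈ R, Clean g) ∧
  ∀ q k q' k', Sum.inl (Sum.inr (true, q, k)) ∈ R → Sum.inl (Sum.inr (true, q', k')) ∈ R → k ∉ q'

/-- The gates contain at most `r` rounds of parallel clean questions, and no further clean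
questions. -/
def CleanRounds : ℕ → List NGate → Prop
  | 0, l => ∀ g ∈ l, ¬ Clean g
  | r + 1, l => ∃ F R l', l = F ++ R ++ l' ∧ (∀ g ∈ F, ¬ Clean g) ∧ NRound R ∧ CleanRounds r l'

/-- Flip the qubits of the list `q` at which the list `e` has a one. -/
def flips {m : ℕ} (q : List ℕ) (e : List Bool) (s : Fin m → Bool) : Fin m → Bool :=
  fun j => xor (s j) (decide ((j.1, true) ∈ q.zip e))

/-- The probability of acceptance, that is, that in the end the measurement of the qubit `0` gives
`1`, in the state `ψ` and for the remaining gates given by the list.

* Measured question `(q, k)`: the qubits `q` are measured, with the outcome `v` (if `k` is among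
  them, it is not measured but read as `0`); then the qubit `k` is flipped if `v` is in the oracle.
* Noisy question `(q, k)` with the noise rate `lam`: each of the qubits `q` is flipped with
  probability `lam`, independently (the flipped qubits are given by `e`); then the oracle gate
  `(q, k)` is applied. -/
noncomputable def accN (A : Oracle) (lam : ℝ) {m : ℕ} : List NGate → ((Fin m → Bool) → ℝ) → ℝ
  | [], ψ => ∑ s, if rd s 0 then ψ s ^ 2 else 0
  | Sum.inl g :: l, ψ => accN A lam l (gateAct A g ψ)
  | Sum.inr (false, q, k) :: l, ψ => ∑ v : Fin q.length → Bool, accN A lam l (fun s =>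
      if q.map (rd (clr k s)) = List.ofFn v then gateAct A (Sum.inr (true, q, k)) ψ s else 0)
  | Sum.inr (true, q, k) :: l, ψ => ∑ e : Fin q.length → Bool,
      (∏ i, if e i then lam else 1 - lam) * accN A lam l (gateAct A (Sum.inr (true, q, k))
        (fun s => ψ (flips q (List.ofFn e) s)))

/-- The qubits of the noisy questions exist and are different from each other and from the qubit
with the answer. -/
def NoiseOK (m : ℕ) (l : List NGate) : Prop :=
  ∀ q k, Sum.inr (true, q, k) ∈ l → q.Nodup ∧ k ∉ q ∧ ∀ i ∈ q, i < m

/-- The language `L` is decided relative to `A` in bounded-error quantum polynomial time by circuits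
with noisy questions (noise rate `lam`), measured questions and, on inputs of length `n`, at most
`r n` rounds of clean questions (compare `IsBQP`). -/
def IsNoisyBQP (r : ℕ → ℕ) (lam : ℝ) (A : Oracle) (L : Set (List Bool)) : Prop :=
  ∃ C : List Bool → List Unit × List NGate, PolyTime (fun x => bits (C x)) ∧
    (∀ x, CleanRounds (r x.length) (C x).2 ∧ NoiseOK (C x).1.length (C x).2) ∧
    ∀ x, (x ∈ L → 2 / 3 ≤ accN A lam (C x).2 (initSt (C x).1.length)) ∧
      (x ∉ L → accN A lam (C x).2 (initSt (C x).1.length) ≤ 1 / 3)

end Pool.Agent.W938.NF
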