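import Pool.Agent.H703R2.AC.Osss

/-!
# The derivative of two-run functionals restricted to good pairs of histories
-/

set_option autoImplicit false
set_option linter.unusedSectionVars false

namespace Pool.Agent.W938.NF

open Finset Pool.Agent.H722R2.AA Pool.Agent.H746R2.AA Pool.Agent.H703R2.AA Pool.Agent.H703R2.AA.Pr
  Pool.Agent.H703R2.AB Pool.Agent.H703R2.AC

variable {κ ι W : Type*} [Fintype κ] [DecidableEq κ] [Fintype ι] [DecidableEq ι] [Fintype W]
variable (P : Pr κ ι W)

/-- Peeling. -/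
lemma peel3 (N : (κ → ι → ℝ) → (κ → ι → ℝ) → ℝ) (N0 : ∀ u v, 0 ≤ N u v)
    (N1 : ∀ h x u v, ∑ w, N (fun k => mv (P.Q h w x) (u k)) v = N u v)
    (N2 : ∀ h x u v, ∑ w, N u (fun k => mv (P.Q h w x) (v k)) = N u v)
    (ν : List W → κ → ℝ) (ε : ℝ) (s t s' t' : ℕ) (hs : s' < s) (ht : t' < t) (x y : κ → ℤˣ) :
    SS s t (fun a b => ind (gd ν ε a b) * N (fun k => P.z s' k a x) (fun k => P.z t' k b y))
      ≤ SS (s' + 1) (t' + 1)
        (fun a b => ind (gd ν ε a b) * N (fun k => P.z s' k a x) (fun k => P.z t' k b y)) := by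
  unfold SS
  have h1 : ∀ a : List W,
      S t (fun b => ind (gd ν ε a b) * N (fun k => P.z s' k a x) (fun k => P.z t' k b y))
      ≤ S (t' + 1) (fun b => ind (gd ν ε a b) * N (fun k => P.z s' k a x) (fun k => P.z t' k b y)) := by
    intro a
    refine S_peel (t' + 1) t ht _ fun b hb => ?_
    calc ∑ w, ind (gd ν ε a (w :: b)) * N (fun k => P.z s' k a x) (fun k => P.z t' k (w :: b) y)
        ≤ ∑ w, ind (gd ν ε a b) * N (fun k => P.z s' k a x) (fun k => mv (P.Q b w y) (P.z t' k b y)) := by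
          refine Finset.sum_le_sum fun w _ => ?_
          have e : (fun k => P.z t' k (w :: b) y) = fun k => mv (P.Q b w y) (P.z t' k b y) := by
            funext k
            exact P.z_cons t' k b w y (by omega)
          rw [e]
          exact mul_le_mul_of_nonneg_right (ind_mono (gd_right ν ε a w b)) (N0 _ _)
      _ = _ := by rw [← Finset.mul_sum, N2]
  refine (S_mono s h1).trans ?_
  refine S_peel (s' + 1) s hs _ fun a ha => ?_
  rw [← S_sum]
  refine S_mono _ fun b => ?_
  calc ∑ w, ind (gd ν ε (w :: a) b) * N (fun k => P.z s' k (w :: a) x) (fun k => P.z t' k b y)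
      ≤ ∑ w, ind (gd ν ε a b) * N (fun k => mv (P.Q a w x) (P.z s' k a x)) (fun k => P.z t' k b y) := by
        refine Finset.sum_le_sum fun w _ => ?_
        have e : (fun k => P.z s' k (w :: a) x) = fun k => mv (P.Q a w x) (P.z s' k a x) := by
          funext k
          exact P.z_cons s' k a w x (by omega)
        rw [e]
        exact mul_le_mul_of_nonneg_right (ind_mono fun hg => hg.2) (N0 _ _)
    _ = _ := by rw [← Finset.mul_sum, N1]

/-- The good pairs of histories, including the present one. -/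
def ge (ν : List W → κ → ℝ) (ε : ℝ) (h h' : List W) : Prop := gp ν ε h h' ∧ gd ν ε h h'

lemma ge_of_gd (ν : List W → κ → ℝ) (ε : ℝ) (w w' : W) (h h' : List W)
    (H : gd ν ε (w :: h) (w' :: h')) : ge ν ε h h' :=
  ⟨H.1.1, gd_right ν ε h w' h' H.2⟩

/-- The collision probability over good pairs. -/
noncomputable def CJ (ν : List W → κ → ℝ) (ε : ℝ) (s t : ℕ) (r : ℝ) : ℝ :=
  PE r (fun x y => SS s t (fun h h' => ind (ge ν ε h h') * ∑ j, qk P h j x * qk P h' j y))

lemma CJ_nonneg (ν : List W → κ → ℝ) (ε : ℝ) (s t : ℕ) {r : ℝ} (h0 : 0 ≤ r) (h1 : r ≤ 1) :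
    0 ≤ CJ P ν ε s t r :=
  PE_nonneg h0 h1 fun x y => SS_nonneg s t fun h h' => mul_nonneg (ind_nonneg _)
    (Finset.sum_nonneg fun j _ => mul_nonneg (qk_nonneg P h j x) (qk_nonneg P h' j y))

/-- The flipped form of the collision probability. -/
lemma CJ_fl (ν : List W → κ → ℝ) (ε : ℝ) (s t : ℕ) (r : ℝ) :
    CJ P ν ε s t r = PE r (fun x y => SS s t (fun h h' => ind (ge ν ε h h')
      * ∑ j, qk P h j (fl j x) * qk P h' j (fl j y))) := by
  unfold CJ
  rw [PE_SS, PE_SS]
  refine SS_congr' s t fun h h' _ _ => ?_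
  rw [PE_mul_left, PE_mul_left, PE_sum, PE_sum]
  congr 1
  refine Finset.sum_congr rfl fun k _ => ?_
  exact (PE_fl r k (fun x y => qk P h k x * qk P h' k y)).symm

/-- The norm of the sum of the contributions of two steps. -/
lemma levelI (ν : List W → κ → ℝ) (ε : ℝ) {r : ℝ} (h0 : 0 ≤ r) (h1 : r ≤ 1) (s t s' t' : ℕ)
    (hs : s' < s) (ht : t' < t) :
    PE r (fun x y => SS s t (fun a b => ind (gd ν ε a b)
      * nsq (∑ j, tn (P.z s' j a x) (P.z t' j b y)))) ≤ CJ P ν ε s' t' r := by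
  rw [CJ_fl]
  refine PE_mono h0 h1 fun x y => ?_
  refine (peel3 P (fun u v => nsq (∑ k, tn (u k) (v k))) (fun u v => nsq_nonneg _)
    P.N_tn_left P.N_tn_right ν ε s t s' t' hs ht x y).trans ?_
  rw [SS_succ]
  refine SS_mono' s' t' fun h h' hh hh' => ?_
  unfold qk
  rw [← two_run P h h' (fun k => P.A h (fl k x)) (fun k => P.A h' (fl k y)), Finset.mul_sum]
  refine Finset.sum_le_sum fun w _ => ?_
  rw [Finset.mul_sum]
  refine Finset.sum_le_sum fun w' _ => ?_
  simp_rw [P.z_top s' _ h w x hh, P.z_top t' _ h' w' y hh']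
  exact mul_le_mul_of_nonneg_right (ind_mono (ge_of_gd ν ε w w' h h')) (nsq_nonneg _)

lemma levelP (ν : List W → κ → ℝ) (ε : ℝ) {r : ℝ} (h0 : 0 ≤ r) (h1 : r ≤ 1) (s t s' t' : ℕ)
    (hs : s' < s) (ht : t' < t) :
    PE r (fun x y => SS s t (fun a b => ind (gd ν ε a b)
      * ∑ k, nsq (P.z s' k a x) * nsq (P.z t' k b y))) ≤ CJ P ν ε s' t' r := by
  rw [CJ_fl]
  refine PE_mono h0 h1 fun x y => ?_
  refine (peel3 P (fun u v => ∑ k, nsq (u k) * nsq (v k))
      (fun u v => Finset.sum_nonneg fun k _ => mul_nonneg (nsq_nonneg _) (nsq_nonneg _))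
      P.N_pr_left P.N_pr_right ν ε s t s' t' hs ht x y).trans ?_
  rw [SS_succ]
  refine SS_mono' s' t' fun h h' hh hh' => ?_
  have e : ∑ k, qk P h k (fl k x) * qk P h' k (fl k y)
      = ∑ w, ∑ w', ∑ k, nsq (mv (P.a h w (some k)) (P.A h (fl k x)))
        * nsq (mv (P.a h' w' (some k)) (P.A h' (fl k y))) := by
    unfold qk
    simp_rw [Finset.sum_mul_sum]
    calc ∑ k, ∑ w, ∑ w', nsq (mv (P.a h w (some k)) (P.A h (fl k x)))
        * nsq (mv (P.a h' w' (some k)) (P.A h' (fl k y)))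
        = ∑ w, ∑ k, ∑ w', nsq (mv (P.a h w (some k)) (P.A h (fl k x)))
        * nsq (mv (P.a h' w' (some k)) (P.A h' (fl k y))) := by rw [Finset.sum_comm]
      _ = _ := by
        refine Finset.sum_congr rfl fun w _ => ?_
        rw [Finset.sum_comm]
  rw [e, Finset.mul_sum]
  refine Finset.sum_le_sum fun w _ => ?_
  rw [Finset.mul_sum]
  refine Finset.sum_le_sum fun w' _ => ?_
  simp_rw [P.z_top s' _ h w x hh, P.z_top t' _ h' w' y hh']
  exact mul_le_mul_of_nonneg_right (ind_mono (ge_of_gd ν ε w w' h h'))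
    (Finset.sum_nonneg fun k _ => mul_nonneg (nsq_nonneg _) (nsq_nonneg _))

section Contr

variable {K : Type*} [Fintype K]

lemma contrL (m : K → ι → ι → ℝ) (hm : ∀ u, ∑ k, nsq (mv (m k) u) ≤ nsq u) (u v : κ → ι → ℝ) :
    ∑ k, nsq (∑ j, tn (mv (m k) (u j)) (v j)) ≤ nsq (∑ j, tn (u j) (v j)) := by
  simp_rw [nsq_sum_tn]
  have e : ∀ k i, nsq (∑ j, v j i • mv (m k) (u j)) = nsq (mv (m k) (∑ j, v j i • u j)) := by
    intro k i
    rw [mv_sum]
    congr 1
    exact Finset.sum_congr rfl fun j _ => (mv_smul _ _ _).symm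
  simp_rw [e]
  rw [Finset.sum_comm]
  exact Finset.sum_le_sum fun i _ => hm _

lemma contrB (m m' : K → ι → ι → ℝ) (hm : ∀ u, ∑ k, nsq (mv (m k) u) ≤ nsq u)
    (hm' : ∀ u, ∑ k, nsq (mv (m' k) u) ≤ nsq u) (u v : κ → ι → ℝ) :
    ∑ k, nsq (∑ j, tn (mv (m k) (u j)) (mv (m' k) (v j))) ≤ nsq (∑ j, tn (u j) (v j)) := by
  refine le_trans (Finset.sum_le_sum fun k _ => ?_) (contrL m hm u v)
  rw [nsq_sum_tn_comm, nsq_sum_tn_comm (fun j => mv (m k) (u j))]
  refine le_trans ?_ (contrL m' hm' v (fun j => mv (m k) (u j)))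
  exact Finset.single_le_sum (f := fun l => nsq (∑ j, tn (mv (m' l) (v j)) (mv (m k) (u j))))
    (fun l _ => nsq_nonneg _) (Finset.mem_univ k)

variable (b b' : List W → K → ι → ι → ℝ)

/-- The coincidence probability of two tests over good pairs. -/
noncomputable def GI (ν : List W → κ → ℝ) (ε : ℝ) (s t : ℕ) (r : ℝ) : ℝ :=
  SS s t (fun h h' => ind (gd ν ε h h')
    * ∑ k, PE r (fun x y => nsq (mv (b h k) (P.A h x)) * nsq (mv (b' h' k) (P.A h' y))))

/-- Its derivative. -/
noncomputable def GD (ν : List W → κ → ℝ) (ε : ℝ) (s t : ℕ) (r : ℝ) : ℝ :=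
  SS s t (fun h h' => ind (gd ν ε h h') * ∑ k, ∑ j, PE r (fun x y =>
    D (fun x => nsq (mv (b h k) (P.A h x))) j x * D (fun y => nsq (mv (b' h' k) (P.A h' y))) j y))

lemma GI_deriv (ν : List W → κ → ℝ) (ε : ℝ) (s t : ℕ) (r : ℝ) :
    HasDerivAt (GI P b b' ν ε s t) (GD P b b' ν ε s t r) r := by
  unfold GI GD
  refine hasDerivAt_SS s t _ _ r fun h h' => HasDerivAt.const_mul _ ?_
  exact HasDerivAt.fun_sum fun k _ => hasDerivAt_PE _ _ r

lemma GI_eq (ν : List W → κ → ℝ) (ε : ℝ) (s t : ℕ) (r : ℝ) :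
    GI P b b' ν ε s t r = PE r (fun x y => SS s t (fun h h' => ind (gd ν ε h h')
      * ∑ k, nsq (mv (b h k) (P.A h x)) * nsq (mv (b' h' k) (P.A h' y)))) := by
  unfold GI
  rw [PE_SS]
  refine SS_congr' s t fun h h' _ _ => ?_
  rw [PE_mul_left, PE_sum]

lemma GI_nonneg (ν : List W → κ → ℝ) (ε : ℝ) (s t : ℕ) {r : ℝ} (h0 : 0 ≤ r) (h1 : r ≤ 1) :
    0 ≤ GI P b b' ν ε s t r := by
  rw [GI_eq]
  exact PE_nonneg h0 h1 fun x y => SS_nonneg s t fun h h' => mul_nonneg (ind_nonneg _)
    (Finset.sum_nonneg fun k _ => mul_nonneg (nsq_nonneg _) (nsq_nonneg _))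

/-- The main differential inequality. -/
theorem flow (hb : ∀ h u, ∑ k, nsq (mv (b h k) u) ≤ nsq u)
    (hb' : ∀ h u, ∑ k, nsq (mv (b' h k) u) ≤ nsq u) (ν : List W → κ → ℝ) (ε : ℝ) {r : ℝ}
    (h0 : 0 ≤ r) (h1 : r ≤ 1) (s t : ℕ) (c : ℝ) (hc : 0 < c) :
    GD P b b' ν ε s t r
      ≤ 2 * ∑ s' ∈ Finset.range s, ∑ t' ∈ Finset.range t,
          (c * CJ P ν ε s' t' r + GI P b b' ν ε s t r / c) := by
  -- step 1: symmetrise
  have step1 : ∀ (h h' : List W), h.length = s → h'.length = t → ∀ (k : K) (j : κ),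
      PE r (fun x y => D (fun x => nsq (mv (b h k) (P.A h x))) j x
        * D (fun y => nsq (mv (b' h' k) (P.A h' y))) j y)
      ≤ 4 * PE r (fun x y =>
          dot (mv (b h k) (zt P s j h x)) (mv (b h k) (P.A h x))
          * dot (mv (b' h' k) (zt P t j h' y)) (mv (b' h' k) (P.A h' y))) := by
    intro h h' hh hh' k j
    have e1 : PE r (fun x y => D (fun x => nsq (mv (b h k) (P.A h x))) j x
        * D (fun y => nsq (mv (b' h' k) (P.A h' y))) j y)
        = 4 * PE r (fun x y =>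
          dot (mv (b h k) (zt P s j h x)) (mv (b h k) (Ab P j h x))
          * dot (mv (b' h' k) (zt P t j h' y)) (mv (b' h' k) (Ab P j h' y))) := by
      rw [← PE_mul_left]
      refine PE_congr fun x y => ?_
      rw [D_test P s j h x hh.le, D_test P t j h' y hh'.le]
      ring
    rw [e1]
    refine mul_le_mul_of_nonneg_left ?_ (by norm_num)
    have e3 : ∀ (T : ℕ) (h : List W) (m : ι → ι → ℝ), h.length = T → ∀ x : κ → ℤˣ,
        dot (mv m (zt P T j h x)) (mv m (P.A h x))
          = dot (mv m (zt P T j h x)) (mv m (Ab P j h x)) + sg x j * nsq (mv m (zt P T j h x)) := by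
      intro T h m hT x
      have h2 : mv m (P.A h x) = mv m (Ab P j h x) + sg x j • mv m (zt P T j h x) := by
        rw [← mv_smul, ← mv_add]
        congr 1
        exact A_eq_zt P T j h x hT.le
      rw [h2, dot_add_right, dot_smul_right, dot_self]
    simp_rw [e3 s h (b h k) hh, e3 t h' (b' h' k) hh']
    refine PE_avg_le h0 h1 j
      (fun x => dot (mv (b h k) (zt P s j h x)) (mv (b h k) (Ab P j h x)))
      (fun x => nsq (mv (b h k) (zt P s j h x)))
      (fun y => dot (mv (b' h' k) (zt P t j h' y)) (mv (b' h' k) (Ab P j h' y)))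
      (fun y => nsq (mv (b' h' k) (zt P t j h' y))) ?_ ?_ ?_ ?_ ?_ ?_
    · intro x
      rw [zt_fl P s j h x hh.le, Ab_fl]
    · intro x
      rw [zt_fl P s j h x hh.le]
    · intro x
      rw [zt_fl P t j h' x hh'.le, Ab_fl]
    · intro x
      rw [zt_fl P t j h' x hh'.le]
    · intro x; exact nsq_nonneg _
    · intro x; exact nsq_nonneg _
  -- step 2: expand
  have step2 : ∀ (h h' : List W) (x y : κ → ℤˣ), ∑ k, ∑ j,
          dot (mv (b h k) (zt P s j h x)) (mv (b h k) (P.A h x))
          * dot (mv (b' h' k) (zt P t j h' y)) (mv (b' h' k) (P.A h' y))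
      = ∑ s' ∈ Finset.range s, ∑ t' ∈ Finset.range t, ∑ k,
          dot (∑ j, tn (mv (b h k) (P.z s' j h x)) (mv (b' h' k) (P.z t' j h' y)))
            (tn (mv (b h k) (P.A h x)) (mv (b' h' k) (P.A h' y))) := by
    intro h h' x y
    have e4 : ∀ (k : K), ∑ s' ∈ Finset.range s, ∑ t' ∈ Finset.range t,
          dot (∑ j, tn (mv (b h k) (P.z s' j h x)) (mv (b' h' k) (P.z t' j h' y)))
            (tn (mv (b h k) (P.A h x)) (mv (b' h' k) (P.A h' y)))
        = ∑ j, dot (mv (b h k) (zt P s j h x)) (mv (b h k) (P.A h x))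
          * dot (mv (b' h' k) (zt P t j h' y)) (mv (b' h' k) (P.A h' y)) := by
      intro k
      have e5 : ∀ s' t', dot (∑ j, tn (mv (b h k) (P.z s' j h x)) (mv (b' h' k) (P.z t' j h' y)))
            (tn (mv (b h k) (P.A h x)) (mv (b' h' k) (P.A h' y)))
          = ∑ j, dot (mv (b h k) (P.z s' j h x)) (mv (b h k) (P.A h x))
            * dot (mv (b' h' k) (P.z t' j h' y)) (mv (b' h' k) (P.A h' y)) := by
        intro s' t'
        rw [dot_sum_left]
        exact Finset.sum_congr rfl fun j _ => dot_tn _ _ _ _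
      simp_rw [e5]
      calc ∑ s' ∈ Finset.range s, ∑ t' ∈ Finset.range t, ∑ j,
            dot (mv (b h k) (P.z s' j h x)) (mv (b h k) (P.A h x))
            * dot (mv (b' h' k) (P.z t' j h' y)) (mv (b' h' k) (P.A h' y))
          = ∑ s' ∈ Finset.range s, ∑ j, ∑ t' ∈ Finset.range t,
            dot (mv (b h k) (P.z s' j h x)) (mv (b h k) (P.A h x))
            * dot (mv (b' h' k) (P.z t' j h' y)) (mv (b' h' k) (P.A h' y)) := by
            refine Finset.sum_congr rfl fun s' _ => ?_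
            rw [Finset.sum_comm]
        _ = ∑ j, ∑ s' ∈ Finset.range s, ∑ t' ∈ Finset.range t,
            dot (mv (b h k) (P.z s' j h x)) (mv (b h k) (P.A h x))
            * dot (mv (b' h' k) (P.z t' j h' y)) (mv (b' h' k) (P.A h' y)) := by
            rw [Finset.sum_comm]
        _ = _ := by
            refine Finset.sum_congr rfl fun j _ => ?_
            rw [← Finset.sum_mul_sum, ← dot_sum_left, ← dot_sum_left, ← mv_sum, ← mv_sum]
            rfl
    calc ∑ k, ∑ j,
          dot (mv (b h k) (zt P s j h x)) (mv (b h k) (P.A h x))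
          * dot (mv (b' h' k) (zt P t j h' y)) (mv (b' h' k) (P.A h' y))
        = ∑ k, ∑ s' ∈ Finset.range s, ∑ t' ∈ Finset.range t,
          dot (∑ j, tn (mv (b h k) (P.z s' j h x)) (mv (b' h' k) (P.z t' j h' y)))
            (tn (mv (b h k) (P.A h x)) (mv (b' h' k) (P.A h' y))) :=
          Finset.sum_congr rfl fun k _ => (e4 k).symm
      _ = ∑ s' ∈ Finset.range s, ∑ k, ∑ t' ∈ Finset.range t,
          dot (∑ j, tn (mv (b h k) (P.z s' j h x)) (mv (b' h' k) (P.z t' j h' y)))
            (tn (mv (b h k) (P.A h x)) (mv (b' h' k) (P.A h' y))) := by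
          rw [Finset.sum_comm]
      _ = _ := by
          refine Finset.sum_congr rfl fun s' _ => ?_
          rw [Finset.sum_comm]
  -- step 3: the bound for each pair
  have step3 : ∀ s' ∈ Finset.range s, ∀ t' ∈ Finset.range t,
      PE r (fun x y => SS s t (fun h h' => ind (gd ν ε h h') * ∑ k,
          dot (∑ j, tn (mv (b h k) (P.z s' j h x)) (mv (b' h' k) (P.z t' j h' y)))
            (tn (mv (b h k) (P.A h x)) (mv (b' h' k) (P.A h' y)))))
        ≤ (c * CJ P ν ε s' t' r + GI P b b' ν ε s t r / c) / 2 := by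
    intro s' hs' t' ht'
    rw [Finset.mem_range] at hs' ht'
    have hpt : ∀ x y : κ → ℤˣ, SS s t (fun h h' => ind (gd ν ε h h') * ∑ k,
          dot (∑ j, tn (mv (b h k) (P.z s' j h x)) (mv (b' h' k) (P.z t' j h' y)))
            (tn (mv (b h k) (P.A h x)) (mv (b' h' k) (P.A h' y))))
        ≤ (c / 2) * SS s t (fun h h' => ind (gd ν ε h h')
              * nsq (∑ j, tn (P.z s' j h x) (P.z t' j h' y)))
          + (1 / (2 * c)) * SS s t (fun h h' => ind (gd ν ε h h')
              * ∑ k, nsq (mv (b h k) (P.A h x)) * nsq (mv (b' h' k) (P.A h' y))) := by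
      intro x y
      rw [← SS_mul_left, ← SS_mul_left, ← SS_add]
      refine SS_mono s t fun h h' => ?_
      have key : ∑ k,
          dot (∑ j, tn (mv (b h k) (P.z s' j h x)) (mv (b' h' k) (P.z t' j h' y)))
            (tn (mv (b h k) (P.A h x)) (mv (b' h' k) (P.A h' y)))
          ≤ (c / 2) * nsq (∑ j, tn (P.z s' j h x) (P.z t' j h' y))
            + (1 / (2 * c)) * ∑ k, nsq (mv (b h k) (P.A h x)) * nsq (mv (b' h' k) (P.A h' y)) := by
        calc ∑ k,
                dot (∑ j, tn (mv (b h k) (P.z s' j h x)) (mv (b' h' k) (P.z t' j h' y)))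
                  (tn (mv (b h k) (P.A h x)) (mv (b' h' k) (P.A h' y)))
            ≤ ∑ k, ((c / 2)
                * nsq (∑ j, tn (mv (b h k) (P.z s' j h x)) (mv (b' h' k) (P.z t' j h' y)))
                + (1 / (2 * c))
                * (nsq (mv (b h k) (P.A h x)) * nsq (mv (b' h' k) (P.A h' y)))) := by
              refine Finset.sum_le_sum fun k _ => ?_
              have := (le_abs_self _).trans (abs_dot_le
                (∑ j, tn (mv (b h k) (P.z s' j h x)) (mv (b' h' k) (P.z t' j h' y)))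
                (tn (mv (b h k) (P.A h x)) (mv (b' h' k) (P.A h' y))) c hc)
              rw [nsq_tn] at this
              refine this.trans (le_of_eq ?_)
              field_simp
          _ = (c / 2) * (∑ k,
              nsq (∑ j, tn (mv (b h k) (P.z s' j h x)) (mv (b' h' k) (P.z t' j h' y))))
            + (1 / (2 * c)) * ∑ k, nsq (mv (b h k) (P.A h x)) * nsq (mv (b' h' k) (P.A h' y)) := by
              simp_rw [Finset.sum_add_distrib, ← Finset.mul_sum]
          _ ≤ _ := by
              have := mul_le_mul_of_nonneg_left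
                (contrB (b h) (b' h') (hb h) (hb' h') (fun j => P.z s' j h x)
                  (fun j => P.z t' j h' y)) (by positivity : 0 ≤ c / 2)
              linarith
      have h2 := mul_le_mul_of_nonneg_left key (ind_nonneg (gd ν ε h h'))
      refine h2.trans (le_of_eq ?_)
      ring
    refine (PE_mono h0 h1 hpt).trans ?_
    rw [PE_add, PE_mul_left, PE_mul_left, ← GI_eq]
    have h3 := levelI P ν ε h0 h1 s t s' t' hs' ht'
    have h4 := mul_le_mul_of_nonneg_left h3 (by positivity : 0 ≤ c / 2)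
    have e7 : 1 / (2 * c) * GI P b b' ν ε s t r = GI P b b' ν ε s t r / c / 2 := by
      field_simp
    rw [e7]
    linarith
  calc GD P b b' ν ε s t r
      ≤ SS s t (fun h h' => ind (gd ν ε h h') * ∑ k, ∑ j, 4 * PE r (fun x y =>
          dot (mv (b h k) (zt P s j h x)) (mv (b h k) (P.A h x))
          * dot (mv (b' h' k) (zt P t j h' y)) (mv (b' h' k) (P.A h' y)))) := by
        unfold GD
        refine SS_mono' s t fun h h' hh hh' => mul_le_mul_of_nonneg_left ?_ (ind_nonneg _)
        exact Finset.sum_le_sum fun k _ => Finset.sum_le_sum fun j _ => step1 h h' hh hh' k j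
    _ = 4 * PE r (fun x y => SS s t (fun h h' => ind (gd ν ε h h') * ∑ k, ∑ j,
          dot (mv (b h k) (zt P s j h x)) (mv (b h k) (P.A h x))
          * dot (mv (b' h' k) (zt P t j h' y)) (mv (b' h' k) (P.A h' y)))) := by
        rw [PE_SS, ← SS_mul_left]
        refine SS_congr' s t fun h h' _ _ => ?_
        rw [PE_mul_left, PE_sum]
        simp_rw [PE_sum, ← Finset.mul_sum]
        ring
    _ = 4 * ∑ s' ∈ Finset.range s, ∑ t' ∈ Finset.range t, PE r (fun x y => SS s t (fun h h' =>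
          ind (gd ν ε h h') * ∑ k,
          dot (∑ j, tn (mv (b h k) (P.z s' j h x)) (mv (b' h' k) (P.z t' j h' y)))
            (tn (mv (b h k) (P.A h x)) (mv (b' h' k) (P.A h' y))))) := by
        have e8 : ∀ x y : κ → ℤˣ, SS s t (fun h h' => ind (gd ν ε h h') * ∑ k, ∑ j,
          dot (mv (b h k) (zt P s j h x)) (mv (b h k) (P.A h x))
          * dot (mv (b' h' k) (zt P t j h' y)) (mv (b' h' k) (P.A h' y)))
          = ∑ s' ∈ Finset.range s, ∑ t' ∈ Finset.range t, SS s t (fun h h' =>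
          ind (gd ν ε h h') * ∑ k,
          dot (∑ j, tn (mv (b h k) (P.z s' j h x)) (mv (b' h' k) (P.z t' j h' y)))
            (tn (mv (b h k) (P.A h x)) (mv (b' h' k) (P.A h' y)))) := by
          intro x y
          simp_rw [step2, Finset.mul_sum, ← SS_sum]
        rw [PE_congr e8, PE_sum]
        congr 1
        refine Finset.sum_congr rfl fun s' _ => ?_
        rw [PE_sum]
    _ ≤ 4 * ∑ s' ∈ Finset.range s, ∑ t' ∈ Finset.range t,
          (c * CJ P ν ε s' t' r + GI P b b' ν ε s t r / c) / 2 := by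
        refine mul_le_mul_of_nonneg_left ?_ (by norm_num)
        exact Finset.sum_le_sum fun s' hs' => Finset.sum_le_sum fun t' ht' => step3 s' hs' t' ht'
    _ = _ := by
        simp_rw [← Finset.sum_div]
        ring

end Contr

end Pool.Agent.W938.NF
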