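import Pool.Agent.W938.NF.Defs
import Pool.Agent.W938.Hyb.Circ

/-!
# Oracle gates with a general position function
-/

set_option autoImplicit false
set_option linter.unusedSectionVars false

namespace Pool.Agent.W938.NF

open Finset Pool.Agent.H722R2.AA Pool.Agent.H746R2.AA Pool.Agent.H703R2.AA
open Pool.Agent.H620R2.Gauge Pool.Agent.W938.Hyb

variable {m N : ℕ}

/-- The matrices of the gate which flips the qubit `k` if the bit at the position `pos s` is one. -/
noncomputable def gk (pos : (Fin m → Bool) → Bool ⊕ Fin N) (k : ℕ) :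
    Option (Fin N) → (Fin m → Bool) → (Fin m → Bool) → ℝ
  | none => fun s t =>
      Sum.elim (fun b => Ee (if b then Xf k s else s) t) (fun _ => (Ee s t + Ee (Xf k s) t) / 2)
        (pos s)
  | some l => fun s t => if pos s = Sum.inr l then (Ee s t - Ee (Xf k s) t) / 2 else 0

variable (pos : (Fin m → Bool) → Bool ⊕ Fin N) (k : ℕ) (hp : ∀ s, pos (Xf k s) = pos s)

/-- The value at a position. -/
def pv (y : Fin N → Bool) (p : Bool ⊕ Fin N) : Bool := Sum.elim (fun b => b) y p

lemma gk_act (x : Fin N → ℤˣ) (ψ : (Fin m → Bool) → ℝ) (s : Fin m → Bool) :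
    mv (fun i j => ∑ o, sgo x o * gk pos k o i j) ψ s
      = ψ (if pv (bx x) (pos s) then Xf k s else s) := by
  simp only [mv]
  simp_rw [Fintype.sum_option, sgo, one_mul]
  simp only [gk]
  cases hk : pos s with
  | inl b =>
    simp only [Sum.elim_inl, reduceCtorEq, if_false, mul_zero, Finset.sum_const_zero, add_zero, pv]
    rw [sum_Ee]
    rfl
  | inr l =>
    simp only [Sum.elim_inr, Sum.inr.injEq, mul_ite, mul_zero, Finset.sum_ite_eq,
      Finset.mem_univ, if_true, pv]
    rw [Adm.bx_sg]
    have e : ∀ j, ((Ee s j + Ee (Xf k s) j) / 2 + (if bx x l = true then (-1 : ℝ) else 1)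
        * ((Ee s j - Ee (Xf k s) j) / 2)) * ψ j
        = Ee (if bx x l = true then Xf k s else s) j * ψ j := by
      intro j
      split_ifs <;> ring
    rw [Finset.sum_congr rfl fun j _ => e j, sum_Ee]
    rfl

include hp in
lemma gk_orth (p l : Option (Fin N)) (hkl : p ≠ l) (i j : Fin m → Bool) :
    ∑ n, gk pos k p n i * gk pos k l n j = 0 := by
  have key : ∀ (l : Fin N) (i j : Fin m → Bool), ∑ n, gk pos k none n i
      * gk pos k (some l) n j = 0 := by
    intro l i j
    rw [sum_eq_of_pair k _ (fun _ => 0)]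
    · simp
    · intro s
      simp only [gk, hp, Xf_Xf]
      by_cases h : pos s = Sum.inr l
      · rw [h]
        simp only [Sum.elim_inr, if_true]
        ring
      · simp only [h, if_false, mul_zero, add_zero]
  cases p with
  | none => cases l with
    | none => exact absurd rfl hkl
    | some l => exact key l i j
  | some p => cases l with
    | none =>
      rw [← key p j i]
      exact Finset.sum_congr rfl fun n _ => mul_comm _ _
    | some l =>
      refine Finset.sum_eq_zero fun n _ => ?_
      have hkl' : p ≠ l := fun h => hkl (by rw [h])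
      simp only [gk]
      by_cases h1 : pos n = Sum.inr p
      · rw [if_neg (fun h2 : pos n = Sum.inr l => hkl' (Sum.inr.inj (h1.symm.trans h2))),
          mul_zero]
      · rw [if_neg h1, zero_mul]

include hp in
lemma gk_tot (i j : Fin m → Bool) :
    ∑ o, ∑ n, gk pos k o n i * gk pos k o n j = if i = j then 1 else 0 := by
  rw [← sum_Ee_Ee i j, Finset.sum_comm]
  refine sum_eq_of_pair k _ _ fun s => ?_
  simp only [Fintype.sum_option, gk, hp, Xf_Xf]
  cases hk : pos s with
  | inl b =>
    simp only [Sum.elim_inl, reduceCtorEq, if_false, mul_zero, Finset.sum_const_zero, add_zero]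
    cases b <;> simp only [Bool.false_eq_true, if_false, if_true] <;> ring
  | inr l =>
    simp only [Sum.elim_inr, Sum.inr.injEq, mul_ite, ite_mul, mul_zero, zero_mul]
    have e : ∀ c : ℝ, ∑ x : Fin N, (if l = x then (if l = x then c else 0) else 0) = c := by
      intro c
      simp
    simp only [e]
    ring

include hp in
lemma nsq_gk_le (l : Fin N) (ψ : (Fin m → Bool) → ℝ) :
    nsq (mv (gk pos k (some l)) ψ) ≤ ∑ s, if pos s = Sum.inr l then ψ s ^ 2 else 0 := by
  have e : ∀ s, mv (gk pos k (some l)) ψ s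
      = if pos s = Sum.inr l then (ψ s - ψ (Xf k s)) / 2 else 0 := by
    intro s
    simp only [mv, gk]
    split_ifs with h
    · simp_rw [div_mul_eq_mul_div, sub_mul]
      rw [← Finset.sum_div, Finset.sum_sub_distrib, sum_Ee, sum_Ee]
    · simp
  unfold nsq
  simp_rw [e]
  have h2 : ∑ s, (if pos s = Sum.inr l then (ψ s - ψ (Xf k s)) / 2 else 0) ^ 2
      ≤ ∑ s, ((if pos s = Sum.inr l then ψ s ^ 2 else 0)
        + (if pos (Xf k s) = Sum.inr l then ψ (Xf k s) ^ 2 else 0)) / 2 := by
    refine Finset.sum_le_sum fun s _ => ?_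
    rw [hp]
    split_ifs with h
    · nlinarith [sq_nonneg (ψ s + ψ (Xf k s))]
    · norm_num
  refine h2.trans (le_of_eq ?_)
  rw [← Finset.sum_div, Finset.sum_add_distrib,
    sum_Xf k (fun s => if pos s = Sum.inr l then ψ s ^ 2 else 0)]
  ring

/-! ### Outcomes -/

/-- The outcomes: strings of length at most `B`. -/
abbrev WW (B : ℕ) : Type := {z : List Bool // z.length ≤ B}

noncomputable instance (B : ℕ) : Fintype (WW B) :=
  (List.finite_length_le Bool B).fintype

lemma sum_WW (B n : ℕ) (hn : n ≤ B) (F : List Bool → ℝ) :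
    ∑ w : WW B, (if w.1.length = n then F w.1 else 0) = ∑ v : Fin n → Bool, F (List.ofFn v) := by
  classical
  rw [← Finset.sum_filter]
  refine (Finset.sum_bij (fun (v : Fin n → Bool) _ => (⟨List.ofFn v, by simpa using hn⟩ : WW B))
    ?_ ?_ ?_ ?_).symm
  · intro v _
    simp
  · intro v _ v' _ h
    exact List.ofFn_injective (congrArg Subtype.val h)
  · rintro ⟨w, hw⟩ h
    simp only [Finset.mem_filter, Finset.mem_univ, true_and] at h
    subst h
    exact ⟨fun i => w.get i, Finset.mem_univ _, Subtype.ext (List.ofFn_get w)⟩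
  · intro v _
    rfl

/-- The weight of a noise pattern. -/
noncomputable def wn (lam : ℝ) (e : List Bool) : ℝ := (e.map fun b => if b then lam else 1 - lam).prod

lemma wn_ofFn (lam : ℝ) {n : ℕ} (e : Fin n → Bool) :
    wn lam (List.ofFn e) = ∏ i, if e i then lam else 1 - lam := by
  unfold wn
  rw [List.map_ofFn, List.prod_ofFn]
  rfl

lemma sum_wn (lam : ℝ) (n : ℕ) : ∑ e : Fin n → Bool, wn lam (List.ofFn e) = 1 := by
  simp_rw [wn_ofFn]
  have h := Finset.prod_univ_sum (fun _ : Fin n => (Finset.univ : Finset Bool))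
    (fun _ (u : Bool) => if u then lam else 1 - lam)
  rw [Fintype.piFinset_univ] at h
  rw [← h]
  simp

lemma wn_nonneg {lam : ℝ} (h0 : 0 ≤ lam) (h1 : lam ≤ 1) (e : List Bool) : 0 ≤ wn lam e := by
  unfold wn
  refine List.prod_nonneg fun a ha => ?_
  obtain ⟨b, _, rfl⟩ := List.mem_map.1 ha
  split_ifs
  · exact h0
  · linarith

lemma wn_le {lam : ℝ} (h0 : 0 ≤ lam) (h1 : lam ≤ 1) (e : List Bool) :
    wn lam e ≤ (max lam (1 - lam)) ^ e.length := by
  induction e with
  | nil => simp [wn]
  | cons b e ih =>
    have e1 : wn lam (b :: e) = (if b then lam else 1 - lam) * wn lam e := rfl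
    rw [e1, List.length_cons, pow_succ, mul_comm]
    refine mul_le_mul ih ?_ ?_ ?_
    · split_ifs
      · exact le_max_left _ _
      · exact le_max_right _ _
    · split_ifs
      · exact h0
      · linarith
    · exact pow_nonneg (h0.trans (le_max_left _ _)) _

end Pool.Agent.W938.NF
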