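import Pool.Agent.W938.NF.Abs

/-!
# Processes with known, diluted and few free query distributions
-/

set_option autoImplicit false
set_option linter.unusedSectionVars false

namespace Pool.Agent.W938.NF

open Finset Pool.Agent.H722R2.AA Pool.Agent.H746R2.AA Pool.Agent.H703R2.AA Pool.Agent.H703R2.AA.Pr
  Pool.Agent.H703R2.AB Pool.Agent.H703R2.AC

section Ext

variable {W : Type*} [Fintype W]

/-- The sum over all extensions. -/
noncomputable def Es : ℕ → (List W → ℝ) → List W → ℝ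
  | 0, F => F
  | n + 1, F => Es n (fun h => ∑ w, F (w :: h))

lemma S_Es (s n : ℕ) (F : List W → ℝ) : S (s + n) F = S s (Es n F) := by
  induction n generalizing F with
  | zero => rfl
  | succ n ih =>
    change S (s + n) (fun h => ∑ w, F (w :: h)) = _
    rw [ih]
    rfl

lemma Es_mono (n : ℕ) {F G : List W → ℝ} (H : ∀ h, F h ≤ G h) (p : List W) : Es n F p ≤ Es n G p := by
  induction n generalizing F G with
  | zero => exact H p
  | succ n ih => exact ih fun h => Finset.sum_le_sum fun w _ => H (w :: h)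

lemma Es_zero_fun (n : ℕ) (p : List W) : Es n (fun _ => (0 : ℝ)) p = 0 := by
  induction n with
  | zero => rfl
  | succ n ih =>
    simp only [Es, Finset.sum_const_zero]
    exact ih

lemma Es_nonneg (n : ℕ) {F : List W → ℝ} (H : ∀ h, 0 ≤ F h) (p : List W) : 0 ≤ Es n F p := by
  rw [← Es_zero_fun (W := W) n p]
  exact Es_mono n H p

lemma Es_sum (n : ℕ) {τ : Type*} (s : Finset τ) (F : τ → List W → ℝ) (p : List W) :
    Es n (fun h => ∑ a ∈ s, F a h) p = ∑ a ∈ s, Es n (F a) p := by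
  induction n generalizing F with
  | zero => rfl
  | succ n ih =>
    simp only [Es]
    rw [← ih (fun a h => ∑ w, F a (w :: h))]
    congr 1
    funext h
    rw [Finset.sum_comm]

lemma Es_congr (n : ℕ) {F G : List W → ℝ} (H : ∀ h, F h = G h) (p : List W) : Es n F p = Es n G p := by
  rw [show F = G from funext H]

end Ext

variable {κ ι W : Type*} [Fintype κ] [DecidableEq κ] [Fintype ι] [DecidableEq ι] [Fintype W]

lemma Es_nsq (P : Pr κ ι W) (n : ℕ) (x : κ → ℤˣ) (p : List W) :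
    Es n (fun h => nsq (P.A h x)) p = nsq (P.A p x) := by
  induction n with
  | zero => rfl
  | succ n ih =>
    simp only [Es]
    rw [← ih]
    refine Es_congr n (fun h => ?_) p
    exact P.iso h x (P.A h x)

lemma Es_left (ν : List W → κ → ℝ) (ε : ℝ) (s n : ℕ) (u : κ → List W → ℝ) (hu : ∀ j h, 0 ≤ u j h)
    (c : κ → ℝ) (hc : ∀ j, 0 ≤ c j) (b : List W) :
    S (s + n) (fun h => ind (gd ν ε h b) * ∑ j, u j h * c j)
      ≤ S s (fun p => ind (gd ν ε p b) * ∑ j, Es n (u j) p * c j) := by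
  induction n generalizing u with
  | zero => exact le_rfl
  | succ n ih =>
    change S (s + n) (fun h => ∑ w, ind (gd ν ε (w :: h) b) * ∑ j, u j (w :: h) * c j) ≤ _
    refine le_trans ?_ (ih (fun j h => ∑ w, u j (w :: h))
      (fun j h => Finset.sum_nonneg fun w _ => hu j _))
    refine S_mono _ fun h => ?_
    calc ∑ w, ind (gd ν ε (w :: h) b) * ∑ j, u j (w :: h) * c j
        ≤ ∑ w, ind (gd ν ε h b) * ∑ j, u j (w :: h) * c j :=
          Finset.sum_le_sum fun w _ => mul_le_mul_of_nonneg_right (ind_mono fun hg => hg.2)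
            (Finset.sum_nonneg fun j _ => mul_nonneg (hu j _) (hc j))
      _ = _ := by
          rw [← Finset.mul_sum, Finset.sum_comm]
          simp_rw [Finset.sum_mul]

lemma Es_right (ν : List W → κ → ℝ) (ε : ℝ) (t n : ℕ) (v : κ → List W → ℝ) (hv : ∀ j h, 0 ≤ v j h)
    (c : κ → ℝ) (hc : ∀ j, 0 ≤ c j) (a : List W) :
    S (t + n) (fun h => ind (gd ν ε a h) * ∑ j, c j * v j h)
      ≤ S t (fun p => ind (gd ν ε a p) * ∑ j, c j * Es n (v j) p) := by
  induction n generalizing v with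
  | zero => exact le_rfl
  | succ n ih =>
    change S (t + n) (fun h => ∑ w, ind (gd ν ε a (w :: h)) * ∑ j, c j * v j (w :: h)) ≤ _
    refine le_trans ?_ (ih (fun j h => ∑ w, v j (w :: h))
      (fun j h => Finset.sum_nonneg fun w _ => hv j _))
    refine S_mono _ fun h => ?_
    calc ∑ w, ind (gd ν ε a (w :: h)) * ∑ j, c j * v j (w :: h)
        ≤ ∑ w, ind (gd ν ε a h) * ∑ j, c j * v j (w :: h) :=
          Finset.sum_le_sum fun w _ => mul_le_mul_of_nonneg_right (ind_mono (gd_right ν ε a w h))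
            (Finset.sum_nonneg fun j _ => mul_nonneg (hc j) (hv j _))
      _ = _ := by
          rw [← Finset.mul_sum, Finset.sum_comm]
          simp_rw [Finset.mul_sum]

lemma SS_Es (ν : List W → κ → ℝ) (ε : ℝ) (s n t n' : ℕ) (u v : κ → List W → ℝ)
    (hu : ∀ j h, 0 ≤ u j h) (hv : ∀ j h, 0 ≤ v j h) :
    SS (s + n) (t + n') (fun h h' => ind (gd ν ε h h') * ∑ j, u j h * v j h')
      ≤ SS s t (fun p p' => ind (gd ν ε p p') * ∑ j, Es n (u j) p * Es n' (v j) p') := by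
  unfold SS
  rw [S_S_comm]
  refine (S_mono (t + n') fun b => Es_left ν ε s n u hu (fun j => v j b) (fun j => hv j b) b).trans ?_
  rw [S_S_comm]
  exact S_mono s fun a => Es_right ν ε t n' v hv (fun j => Es n (u j) a)
    (fun j => Es_nonneg n (hu j) a) a

/-- The data of a process with `T` steps. The step `t` is free or not; its queries are tested at the
time `σ t`, by the test `bb t`. The tests of the steps which are not free have the known
probabilities `ν`. Up to dilution by `τ`, the tests dominate the query probabilities. Before the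
test of a step, all free steps have a smaller level `ρ`. -/
structure TD (P : Pr κ ι W) (T Rm : ℕ) (τ : ℝ) where
  σ : ℕ → ℕ
  fr : ℕ → Prop
  ρ : ℕ → ℕ
  bb : ℕ → List W → κ → ι → ι → ℝ
  ν : List W → κ → ℝ
  τ0 : 0 ≤ τ
  σle : ∀ t, σ t ≤ t
  σfr : ∀ t, ¬ fr t → σ t = t
  ρle : ∀ t, t < T → ρ t ≤ Rm
  ρm : ∀ t' t, t' < σ t → ρ t' ≤ ρ t
  ρs : ∀ t' t, t' < σ t → fr t' → ρ t' < ρ t
  bbc : ∀ t h u, ∑ k, nsq (mv (bb t h k) u) ≤ nsq u
  ν0 : ∀ h k, 0 ≤ ν h k
  ν1 : ∀ h, ∑ k, ν h k ≤ 1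
  νfr : ∀ h k, fr h.length → ν h k = 0
  νbb : ∀ t h k u, ¬ fr t → h.length = t → nsq (mv (bb t h k) u) = ν h k * nsq u
  dom : ∀ t, t < T → ∀ h, h.length = σ t → ∀ k x,
    Es (t - σ t) (fun h' => qk P h' k x) h ≤ nsq (mv (bb t h k) (P.A h x)) + τ * nsq (P.A h x)

namespace TD

variable {P : Pr κ ι W} {T Rm : ℕ} {τ : ℝ} (d : TD P T Rm τ)

/-- The mean weights. -/
noncomputable def mt (t : ℕ) (k : κ) : ℝ :=
  Ex (fun x => S (d.σ t) (fun h => nsq (mv (d.bb t h k) (P.A h x))))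

lemma mt_nonneg (t : ℕ) (k : κ) : 0 ≤ d.mt t k :=
  Ex_nonneg fun x => S_nonneg _ fun h => nsq_nonneg _

lemma sum_mt (t : ℕ) : ∑ k, d.mt t k ≤ 1 := by
  unfold mt
  rw [← Ex_sum]
  refine Ex_le_const fun x => ?_
  rw [← S_sum, ← P.S_nsq (d.σ t) x]
  exact S_mono _ fun h => d.bbc t h _

lemma dl_le (θ : ℝ) (hθ : 0 ≤ θ) (t : ℕ) (h : ∀ k, d.mt t k ≤ θ) (k : κ) :
    Pool.Agent.H703R2.AB.dl P d.ν t k ≤ θ := by
  by_cases hf : d.fr t
  · have : Pool.Agent.H703R2.AB.dl P d.ν t k = 0 := by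
      unfold Pool.Agent.H703R2.AB.dl
      rw [← S_zero_fun (W := W) t]
      refine S_congr' t fun h hh => ?_
      rw [d.νfr h k (by rw [hh]; exact hf), mul_zero]
    rw [this]; exact hθ
  · refine le_trans (le_of_eq ?_) (h k)
    unfold Pool.Agent.H703R2.AB.dl mt
    rw [Ex_S, d.σfr t hf]
    refine S_congr' t fun h hh => ?_
    have e : ∀ x, nsq (mv (d.bb t h k) (P.A h x)) = d.ν h k * nsq (P.A h x) := fun x =>
      d.νbb t h k _ hf hh
    simp_rw [e]
    rw [Ex_mul_left, mul_comm]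
    rfl

/-- Pointwise bound for products of domination bounds. -/
lemma prod_bound (hτ : 0 ≤ τ) (U V u v : κ → ℝ) (F F' : ℝ) (hF : 0 ≤ F) (hF' : 0 ≤ F')
    (hV0 : ∀ j, 0 ≤ V j) (hu0 : ∀ j, 0 ≤ u j) (hU : ∀ j, U j ≤ u j + τ * F)
    (hV : ∀ j, V j ≤ v j + τ * F') (hVs : ∑ j, V j ≤ F') (hus : ∑ j, u j ≤ F) :
    ∑ j, U j * V j ≤ ∑ j, u j * v j + 2 * τ * (F * F') := by
  calc ∑ j, U j * V j ≤ ∑ j, (u j * v j + (τ * F') * u j + (τ * F) * V j) := by
        refine Finset.sum_le_sum fun j _ => ?_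
        have h1 := mul_le_mul_of_nonneg_right (hU j) (hV0 j)
        have h2 := mul_le_mul_of_nonneg_left (hV j) (hu0 j)
        linarith
    _ = ∑ j, u j * v j + (τ * F') * ∑ j, u j + (τ * F) * ∑ j, V j := by
        rw [Finset.sum_add_distrib, Finset.sum_add_distrib, Finset.mul_sum, Finset.mul_sum]
    _ ≤ _ := by
        have h1 := mul_le_mul_of_nonneg_left hus (mul_nonneg hτ hF')
        have h2 := mul_le_mul_of_nonneg_left hVs (mul_nonneg hτ hF)
        linarith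

lemma sum_Es_qk (n : ℕ) (x : κ → ℤˣ) (p : List W) :
    ∑ j, Es n (fun h => qk P h j x) p ≤ nsq (P.A p x) := by
  rw [← Es_sum, ← Es_nsq P n x p]
  exact Es_mono n (fun h => sum_qk_le P h x) p

/-- Collisions are dominated by coincidences of the tests. -/
lemma CJ_le (hτ : 0 ≤ τ) (ε : ℝ) {r : ℝ} (h0 : 0 ≤ r) (h1 : r ≤ 1) (s t : ℕ) (hs : s < T)
    (ht : t < T) :
    CJ P d.ν ε s t r ≤ GI P (d.bb s) (d.bb t) d.ν ε (d.σ s) (d.σ t) r + 2 * τ := by
  have key : ∀ x y : κ → ℤˣ, SS s t (fun h h' => ind (ge d.ν ε h h') * ∑ j, qk P h j x * qk P h' j y)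
      ≤ SS (d.σ s) (d.σ t) (fun h h' => ind (gd d.ν ε h h')
        * ∑ k, nsq (mv (d.bb s h k) (P.A h x)) * nsq (mv (d.bb t h' k) (P.A h' y))) + 2 * τ := by
    intro x y
    obtain ⟨n, hn⟩ : ∃ n, s = d.σ s + n := ⟨s - d.σ s, by have := d.σle s; omega⟩
    obtain ⟨n', hn'⟩ : ∃ n', t = d.σ t + n' := ⟨t - d.σ t, by have := d.σle t; omega⟩
    have a1 : SS s t (fun h h' => ind (ge d.ν ε h h') * ∑ j, qk P h j x * qk P h' j y)
        ≤ SS s t (fun h h' => ind (gd d.ν ε h h') * ∑ j, qk P h j x * qk P h' j y) :=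
      SS_mono s t fun h h' => mul_le_mul_of_nonneg_right (ind_mono fun hg => hg.2)
        (Finset.sum_nonneg fun j _ => mul_nonneg (qk_nonneg P h j x) (qk_nonneg P h' j y))
    have a2 := SS_Es d.ν ε (d.σ s) n (d.σ t) n' (fun j h => qk P h j x) (fun j h => qk P h j y)
      (fun j h => qk_nonneg P h j x) (fun j h => qk_nonneg P h j y)
    rw [← hn, ← hn'] at a2
    refine (a1.trans a2).trans ?_
    have a3 : SS (d.σ s) (d.σ t) (fun p p' => 2 * τ * (nsq (P.A p x) * nsq (P.A p' y))) = 2 * τ := by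
      rw [SS_mul_left, SS_mul, P.S_nsq, P.S_nsq]; ring
    rw [← a3, ← SS_add]
    refine SS_mono' _ _ fun p p' hp hp' => ?_
    have hd1 := fun j => d.dom s hs p hp j x
    have hd2 := fun j => d.dom t ht p' hp' j y
    have e1 : s - d.σ s = n := by omega
    have e2 : t - d.σ t = n' := by omega
    rw [e1] at hd1
    rw [e2] at hd2
    have a4 := prod_bound hτ _ _ (fun j => nsq (mv (d.bb s p j) (P.A p x)))
      (fun j => nsq (mv (d.bb t p' j) (P.A p' y))) _ _ (nsq_nonneg (P.A p x)) (nsq_nonneg (P.A p' y))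
      (fun j => Es_nonneg n' (fun h => qk_nonneg P h j y) p') (fun j => nsq_nonneg _)
      hd1 hd2 (sum_Es_qk n' y p') (d.bbc s p _)
    have a5 := mul_le_mul_of_nonneg_left a4 (ind_nonneg (gd d.ν ε p p'))
    refine a5.trans ?_
    rw [mul_add]
    have a6 : ind (gd d.ν ε p p') * (2 * τ * (nsq (P.A p x) * nsq (P.A p' y)))
        ≤ 2 * τ * (nsq (P.A p x) * nsq (P.A p' y)) :=
      mul_le_of_le_one_left (mul_nonneg (by linarith) (mul_nonneg (nsq_nonneg _) (nsq_nonneg _)))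
        (ind_le_one _)
    linarith
  unfold CJ
  refine (PE_mono h0 h1 key).trans (le_of_eq ?_)
  rw [PE_add, PE_const, GI_eq]

/-- Collisions of two steps which are not free. -/
lemma CJ_known (hτ : 0 ≤ τ) (ε : ℝ) (hε : 0 ≤ ε) {r : ℝ} (h0 : 0 ≤ r) (h1 : r ≤ 1) (s t : ℕ)
    (hs : s < T) (ht : t < T) (fs : ¬ d.fr s) (ft : ¬ d.fr t) :
    CJ P d.ν ε s t r ≤ ε + 2 * τ := by
  have key : ∀ x y : κ → ℤˣ, SS s t (fun h h' => ind (ge d.ν ε h h') * ∑ j, qk P h j x * qk P h' j y)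
      ≤ ε + 2 * τ := by
    intro x y
    have a3 : SS s t (fun p p' => (ε + 2 * τ) * (nsq (P.A p x) * nsq (P.A p' y))) = ε + 2 * τ := by
      rw [SS_mul_left, SS_mul, P.S_nsq, P.S_nsq]; ring
    rw [← a3]
    refine SS_mono' _ _ fun p p' hp hp' => ?_
    have hF := nsq_nonneg (P.A p x)
    have hF' := nsq_nonneg (P.A p' y)
    by_cases hg : ge d.ν ε p p'
    · have e : ind (ge d.ν ε p p') = 1 := by unfold ind; rw [if_pos hg]
      rw [e, one_mul]
      have hd1 := fun j => d.dom s hs p (by rw [hp, d.σfr s fs]) j x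
      have hd2 := fun j => d.dom t ht p' (by rw [hp', d.σfr t ft]) j y
      have e1 : s - d.σ s = 0 := by rw [d.σfr s fs]; omega
      have e2 : t - d.σ t = 0 := by rw [d.σfr t ft]; omega
      rw [e1] at hd1
      rw [e2] at hd2
      simp only [Es] at hd1 hd2
      have a4 := prod_bound hτ _ _ (fun j => nsq (mv (d.bb s p j) (P.A p x)))
        (fun j => nsq (mv (d.bb t p' j) (P.A p' y))) _ _ hF hF'
        (fun j => qk_nonneg P p' j y) (fun j => nsq_nonneg _)
        hd1 hd2 (sum_qk_le P p' y) (d.bbc s p _)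
      refine a4.trans ?_
      have e3 : ∑ j, nsq (mv (d.bb s p j) (P.A p x)) * nsq (mv (d.bb t p' j) (P.A p' y))
          = (∑ j, d.ν p j * d.ν p' j) * (nsq (P.A p x) * nsq (P.A p' y)) := by
        rw [Finset.sum_mul]
        refine Finset.sum_congr rfl fun j _ => ?_
        rw [d.νbb s p j _ fs hp, d.νbb t p' j _ ft hp']
        ring
      rw [e3]
      have h5 := mul_le_mul_of_nonneg_right hg.1 (mul_nonneg hF hF')
      linarith
    · have e : ind (ge d.ν ε p p') = 0 := by unfold ind; rw [if_neg hg]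
      rw [e, zero_mul]
      have : 0 ≤ ε + 2 * τ := by linarith
      positivity
  unfold CJ
  refine (PE_mono h0 h1 key).trans (le_of_eq ?_)
  rw [PE_const]

lemma GI_zero (ε θ : ℝ) (hθ : 0 ≤ θ) (s t : ℕ) (hs : ∀ k, d.mt s k ≤ θ) :
    GI P (d.bb s) (d.bb t) d.ν ε (d.σ s) (d.σ t) 0 ≤ θ := by
  unfold GI
  have e : ∀ h h' : List W, ∀ k, PE 0 (fun x y => nsq (mv (d.bb s h k) (P.A h x))
      * nsq (mv (d.bb t h' k) (P.A h' y)))
      = Ex (fun x => nsq (mv (d.bb s h k) (P.A h x))) * Ex (fun y => nsq (mv (d.bb t h' k) (P.A h' y))) := by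
    intro h h' k
    rw [PE_zero]
    simp_rw [Ex_mul_left]
    rw [Ex_mul_right]
  simp_rw [e]
  have n1 : ∀ h k, 0 ≤ Ex (fun x => nsq (mv (d.bb s h k) (P.A h x))) := fun h k =>
    Ex_nonneg fun x => nsq_nonneg _
  have n2 : ∀ h k, 0 ≤ Ex (fun x => nsq (mv (d.bb t h k) (P.A h x))) := fun h k =>
    Ex_nonneg fun x => nsq_nonneg _
  calc SS (d.σ s) (d.σ t) (fun h h' => ind (gd d.ν ε h h') * ∑ k,
        Ex (fun x => nsq (mv (d.bb s h k) (P.A h x))) * Ex (fun y => nsq (mv (d.bb t h' k) (P.A h' y))))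
      ≤ SS (d.σ s) (d.σ t) (fun h h' => ∑ k,
        Ex (fun x => nsq (mv (d.bb s h k) (P.A h x))) * Ex (fun y => nsq (mv (d.bb t h' k) (P.A h' y)))) :=
        SS_mono _ _ fun h h' => mul_le_of_le_one_left
          (Finset.sum_nonneg fun k _ => mul_nonneg (n1 h k) (n2 h' k)) (ind_le_one _)
    _ = ∑ k, d.mt s k * d.mt t k := by
        rw [SS_sum]
        refine Finset.sum_congr rfl fun k _ => ?_
        rw [SS_mul (d.σ s) (d.σ t) (fun h => Ex (fun x => nsq (mv (d.bb s h k) (P.A h x))))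
          (fun h => Ex (fun x => nsq (mv (d.bb t h k) (P.A h x))))]
        unfold mt
        rw [Ex_S, Ex_S]
    _ ≤ ∑ k, θ * d.mt t k := Finset.sum_le_sum fun k _ =>
        mul_le_mul_of_nonneg_right (hs k) (d.mt_nonneg t k)
    _ ≤ θ * 1 := by
        rw [← Finset.mul_sum]
        exact mul_le_mul_of_nonneg_left (d.sum_mt t) hθ
    _ = θ := mul_one θ

end TD

/-- A form of the lemma of Gronwall. -/
lemma gron (G G' : ℝ → ℝ) (a : ℝ) (hd : ∀ r, HasDerivAt G (G' r) r)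
    (h : ∀ r, 0 ≤ r → r ≤ 1 → G' r ≤ a + G r) (ha : 0 ≤ a) (hG : 0 ≤ G 0) (r : ℝ) (h0 : 0 ≤ r)
    (h1 : r ≤ 1) : G r ≤ 3 * (G 0 + a) := by
  set F : ℝ → ℝ := fun r => (G r + a) * Real.exp (-r) with hF
  have hFd : ∀ r, HasDerivAt F (G' r * Real.exp (-r) + (G r + a) * (Real.exp (-r) * (-1))) r := by
    intro r
    have h2 : HasDerivAt (fun r : ℝ => Real.exp (-r)) (Real.exp (-r) * (-1)) r :=
      ((hasDerivAt_id r).neg).exp
    exact ((hd r).add_const a).mul h2
  have hanti : AntitoneOn F (Set.Icc 0 1) := by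
    refine antitoneOn_of_deriv_nonpos (convex_Icc 0 1)
      (fun x _ => (hFd x).continuousAt.continuousWithinAt)
      (fun x _ => (hFd x).differentiableAt.differentiableWithinAt) ?_
    intro x hx
    rw [interior_Icc] at hx
    rw [(hFd x).deriv]
    have h3 := h x hx.1.le hx.2.le
    have h4 := Real.exp_pos (-x)
    nlinarith
  have h5 := hanti (Set.left_mem_Icc.2 zero_le_one) (Set.mem_Icc.2 ⟨h0, h1⟩) h0
  simp only [hF, neg_zero, Real.exp_zero, mul_one] at h5
  have h6 : G r + a ≤ (G 0 + a) * Real.exp r := by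
    have h7 := mul_le_mul_of_nonneg_right h5 (Real.exp_pos r).le
    rw [mul_assoc, ← Real.exp_add, neg_add_cancel, Real.exp_zero, mul_one] at h7
    exact h7
  have h8 : Real.exp r ≤ 3 := by
    have h9 : Real.exp r ≤ Real.exp 1 := Real.exp_le_exp.2 h1
    have h10 := Real.exp_one_lt_d9
    linarith
  have h11 := mul_le_mul_of_nonneg_left h8 (add_nonneg hG ha)
  linarith

namespace TD

variable {P : Pr κ ι W} {T Rm : ℕ} {τ : ℝ} (d : TD P T Rm τ)

/-- Collisions of a light process are rare. -/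
theorem CJ_bound (hτ : 0 ≤ τ) (ε : ℝ) (hε : 0 ≤ ε) (θ : ℝ) (hθ : 0 ≤ θ)
    (hlight : ∀ t < T, ∀ k, d.mt t k ≤ θ) :
    ∀ (N s t : ℕ), d.ρ s + d.ρ t = N → s < T → t < T → ∀ r : ℝ, 0 ≤ r → r ≤ 1 →
      CJ P d.ν ε s t r ≤ (16 * (T : ℝ) ^ 4) ^ (N + 1) * (θ + (ε + 2 * τ)) := by
  intro N
  induction N using Nat.strong_induction_on with
  | _ N ih =>
    intro s t hN hsT htT r hr0 hr1
    have hT1 : (1 : ℝ) ≤ T := by
      have : 1 ≤ T := by omega
      exact_mod_cast this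
    have hT4 : (1 : ℝ) ≤ (T : ℝ) ^ 4 := one_le_pow₀ hT1
    have hQ1 : (1 : ℝ) ≤ 16 * (T : ℝ) ^ 4 := by linarith
    set Q : ℝ := 16 * (T : ℝ) ^ 4 with hQ
    set e' : ℝ := θ + (ε + 2 * τ) with he'
    have he0 : 0 ≤ e' := by rw [he']; linarith
    set B : ℝ := Q ^ N * e' with hB
    have hQN : 1 ≤ Q ^ N := one_le_pow₀ hQ1
    have hBe : e' ≤ B := by
      rw [hB]
      exact le_mul_of_one_le_left he0 hQN
    have hB0 : 0 ≤ B := he0.trans hBe
    -- the earlier pairs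
    have hprev : ∀ s' < d.σ s, ∀ t' < d.σ t, ∀ r : ℝ, 0 ≤ r → r ≤ 1 → CJ P d.ν ε s' t' r ≤ B := by
      intro s' hs' t' ht' r hr0 hr1
      have hs'T : s' < T := lt_of_lt_of_le hs' ((d.σle s).trans hsT.le)
      have ht'T : t' < T := lt_of_lt_of_le ht' ((d.σle t).trans htT.le)
      by_cases fs : d.fr s'
      · have h1 := d.ρs s' s hs' fs
        have h2 := d.ρm t' t ht'
        have h3 := ih (d.ρ s' + d.ρ t') (by omega) s' t' rfl hs'T ht'T r hr0 hr1
        refine h3.trans ?_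
        rw [hB]
        refine mul_le_mul_of_nonneg_right ?_ he0
        exact pow_le_pow_right₀ hQ1 (by omega)
      · by_cases ft : d.fr t'
        · have h1 := d.ρm s' s hs'
          have h2 := d.ρs t' t ht' ft
          have h3 := ih (d.ρ s' + d.ρ t') (by omega) s' t' rfl hs'T ht'T r hr0 hr1
          refine h3.trans ?_
          rw [hB]
          refine mul_le_mul_of_nonneg_right ?_ he0
          exact pow_le_pow_right₀ hQ1 (by omega)
        · have h3 := d.CJ_known hτ ε hε hr0 hr1 s' t' hs'T ht'T fs ft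
          refine h3.trans (le_trans ?_ hBe)
          rw [he']; linarith
    have hG := gron (GI P (d.bb s) (d.bb t) d.ν ε (d.σ s) (d.σ t))
      (GD P (d.bb s) (d.bb t) d.ν ε (d.σ s) (d.σ t)) (4 * (T : ℝ) ^ 4 * B)
      (fun r => GI_deriv P _ _ _ _ _ _ r) (by
        intro r hr0 hr1
        have h1 := flow P (d.bb s) (d.bb t) (fun h u => d.bbc s h u) (fun h u => d.bbc t h u) d.ν ε
          hr0 hr1 (d.σ s) (d.σ t) (2 * (T : ℝ) ^ 2) (by positivity)
        refine h1.trans ?_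
        have hg0 := GI_nonneg P (d.bb s) (d.bb t) d.ν ε (d.σ s) (d.σ t) hr0 hr1
        set g := GI P (d.bb s) (d.bb t) d.ν ε (d.σ s) (d.σ t) r with hg
        have hc0 : 0 ≤ 2 * (T : ℝ) ^ 2 * B + g / (2 * (T : ℝ) ^ 2) := by positivity
        have hcs : ((d.σ s : ℕ) : ℝ) ≤ T := by exact_mod_cast (d.σle s).trans hsT.le
        have hct : ((d.σ t : ℕ) : ℝ) ≤ T := by exact_mod_cast (d.σle t).trans htT.le
        calc 2 * ∑ s' ∈ Finset.range (d.σ s), ∑ t' ∈ Finset.range (d.σ t),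
              (2 * (T : ℝ) ^ 2 * CJ P d.ν ε s' t' r + g / (2 * (T : ℝ) ^ 2))
            ≤ 2 * ∑ _s' ∈ Finset.range (d.σ s), ∑ _t' ∈ Finset.range (d.σ t),
              (2 * (T : ℝ) ^ 2 * B + g / (2 * (T : ℝ) ^ 2)) := by
              refine mul_le_mul_of_nonneg_left ?_ (by norm_num)
              refine Finset.sum_le_sum fun s' hs' => Finset.sum_le_sum fun t' ht' => ?_
              rw [Finset.mem_range] at hs' ht'
              have := mul_le_mul_of_nonneg_left (hprev s' hs' t' ht' r hr0 hr1)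
                (by positivity : 0 ≤ 2 * (T : ℝ) ^ 2)
              linarith
          _ = 2 * (((d.σ s : ℕ) : ℝ) * (((d.σ t : ℕ) : ℝ)
              * (2 * (T : ℝ) ^ 2 * B + g / (2 * (T : ℝ) ^ 2)))) := by
              simp only [Finset.sum_const, Finset.card_range, nsmul_eq_mul]
          _ ≤ 2 * ((T : ℝ) * ((T : ℝ) * (2 * (T : ℝ) ^ 2 * B + g / (2 * (T : ℝ) ^ 2)))) := by
              gcongr
          _ = 4 * (T : ℝ) ^ 4 * B + g := by
              field_simp
              ring)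
      (by positivity) (GI_nonneg P _ _ _ _ _ _ le_rfl zero_le_one) r hr0 hr1
    have hG0 := d.GI_zero ε θ hθ s t (hlight s hsT)
    have hC := d.CJ_le hτ ε hr0 hr1 s t hsT htT
    have hfin : 3 * (θ + 4 * (T : ℝ) ^ 4 * B) + 2 * τ ≤ Q ^ (N + 1) * e' := by
      have e1 : Q ^ (N + 1) * e' = Q * B := by rw [hB, pow_succ]; ring
      rw [e1]
      have h1 : θ + 2 * τ ≤ B := le_trans (by rw [he']; linarith) hBe
      have h2 : θ ≤ B := le_trans (by linarith) h1
      have h3 : B ≤ (T : ℝ) ^ 4 * B := le_mul_of_one_le_left hB0 hT4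
      rw [hQ]
      linarith
    linarith

/-- Restriction. -/
noncomputable def rsc (k : κ) (s : ℤˣ) : TD (P.res k s) T Rm τ where
  σ := d.σ
  fr := d.fr
  ρ := d.ρ
  bb := fun t h l => if l = k then fun _ _ => 0 else d.bb t h l
  ν := rn d.ν k
  τ0 := d.τ0
  σle := d.σle
  σfr := d.σfr
  ρle := d.ρle
  ρm := d.ρm
  ρs := d.ρs
  bbc := by
    intro t h u
    refine le_trans (Finset.sum_le_sum fun l _ => ?_) (d.bbc t h u)
    split_ifs
    · have : nsq (mv (fun _ _ => (0 : ℝ)) u) = 0 := by simp [mv, nsq]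
      rw [this]
      exact nsq_nonneg _
    · exact le_rfl
  ν0 := rn_nonneg d.ν d.ν0 k
  ν1 := rn_sum d.ν d.ν0 1 d.ν1 k
  νfr := by
    intro h l hf
    unfold rn
    split_ifs
    · rfl
    · exact d.νfr h l hf
  νbb := by
    intro t h l u hf hh
    unfold rn
    split_ifs
    · simp [mv, nsq]
    · exact d.νbb t h l u hf hh
  dom := by
    intro t ht h hh l x
    rw [P.A_res]
    have e : ∀ h', qk (P.res k s) h' l x = if l = k then 0 else qk P h' l (Function.update x k s) :=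
      fun h' => qk_res P k s h' l x
    by_cases hl : l = k
    · rw [Es_congr _ (fun h' => by rw [e h', if_pos hl]) h, if_pos hl, Es_zero_fun]
      have h1 := d.dom t ht h hh l (Function.update x k s)
      have : nsq (mv (fun _ _ => (0 : ℝ)) (P.A h (Function.update x k s))) = 0 := by simp [mv, nsq]
      rw [this, zero_add]
      exact mul_nonneg d.τ0 (nsq_nonneg _)
    · rw [Es_congr _ (fun h' => by rw [e h', if_neg hl]) h, if_neg hl]
      exact d.dom t ht h hh l (Function.update x k s)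

lemma mt_rsc (k : κ) (t : ℕ) (l : κ) :
    (d.rsc k 1).mt t l + (d.rsc k (-1)).mt t l = if l = k then 0 else 2 * d.mt t l := by
  have e : ∀ s : ℤˣ, (d.rsc k s).mt t l = if l = k then 0
      else Ex (Pool.Agent.H746R2.AA.fr k s (fun x => S (d.σ t) (fun h => nsq (mv (d.bb t h l) (P.A h x))))) := by
    intro s
    unfold mt rsc
    simp only
    split_ifs with hl
    · refine (Ex_congr (ι := κ) (h := fun _ => (0 : ℝ)) fun x => ?_).trans (Ex_const 0)
      refine (S_congr' (G := fun _ => (0 : ℝ)) _ fun h _ => ?_).trans (S_zero_fun (W := W) (d.σ t))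
      simp [mv, nsq]
    · refine Ex_congr fun x => ?_
      unfold Pool.Agent.H746R2.AA.fr
      refine S_congr' _ fun h _ => ?_
      rw [P.A_res]
  rw [e, e]
  split_ifs with hl
  · norm_num
  · rw [mt, Ex_split k (fun x => S (d.σ t) (fun h => nsq (mv (d.bb t h l) (P.A h x))))]
    ring

end TD

/-- The class of processes with data. -/
def TDC (κ ι W : Type*) [Fintype κ] [DecidableEq κ] [Fintype ι] [DecidableEq ι] [Fintype W]
    (T Rm : ℕ) (τ : ℝ) : Cls κ ι W T where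
  C := fun P L μ => ∃ d : TD P T Rm τ, (∀ t k, μ t k = d.mt t k) ∧ ∀ t, ∀ l ∈ L, μ t l = 0
  nn := by
    rintro P L μ ⟨d, h1, _⟩ t k
    rw [h1]; exact d.mt_nonneg t k
  sm := by
    rintro P L μ ⟨d, h1, _⟩ t
    simp_rw [h1]; exact d.sum_mt t
  dead := by
    rintro P L μ ⟨d, _, h2⟩ t l hl
    exact h2 t l hl
  res := by
    rintro P L μ ⟨d, h1, h2⟩ k
    have hz : ∀ t, ∀ l ∈ insert k L, (d.rsc k 1).mt t l = 0 ∧ (d.rsc k (-1)).mt t l = 0 := by
      intro t l hl
      have h3 := d.mt_rsc k t l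
      have h4 := (d.rsc k 1).mt_nonneg t l
      have h5 := (d.rsc k (-1)).mt_nonneg t l
      have h6 : (if l = k then 0 else 2 * d.mt t l) = 0 := by
        split_ifs with hlk
        · rfl
        · rw [← h1, h2 t l (Finset.mem_of_mem_insert_of_ne hl hlk), mul_zero]
      rw [h6] at h3
      constructor <;> linarith
    refine ⟨(d.rsc k 1).mt, (d.rsc k (-1)).mt, ⟨d.rsc k 1, fun _ _ => rfl, fun t l hl => (hz t l hl).1⟩,
      ⟨d.rsc k (-1), fun _ _ => rfl, fun t l hl => (hz t l hl).2⟩, fun t l => ?_⟩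
    rw [d.mt_rsc]
    split_ifs
    · rfl
    · rw [h1]

/-- The constant `K`. -/
noncomputable def KK (T Rm : ℕ) : ℝ := (16 * (T : ℝ) ^ 4) ^ (2 * Rm + 1)

/-- The influence theorem. -/
theorem td_main {P : Pr κ ι W} {T Rm : ℕ} {τ : ℝ} (d : TD P T Rm τ) (hT : 1 ≤ T) (g : List W → ℝ)
    (hg0 : ∀ a, 0 ≤ g a) (hg1 : ∀ a, g a ≤ 1) (v : ℝ) (hv : 0 < v)
    (hV : v ≤ Cov (P.out T g) (P.out T g))
    (hτ : τ ≤ (v / (192 * (T : ℝ) ^ 3)) ^ 2 / (4 * KK T Rm)) :
    ∃ l, (v ^ 4 / (2 ^ 21 * (T : ℝ) ^ 9 * KK T Rm)) ^ 2 ≤ Inf (P.out T g) l := by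
  set V := Cov (P.out T g) (P.out T g) with hVd
  have hT1 : (1 : ℝ) ≤ T := by exact_mod_cast hT
  have hT4 : (1 : ℝ) ≤ (T : ℝ) ^ 4 := one_le_pow₀ hT1
  have hQ1 : (1 : ℝ) ≤ 16 * (T : ℝ) ^ 4 := by linarith
  have hK1 : 1 ≤ KK T Rm := one_le_pow₀ hQ1
  have hK0 : 0 < KK T Rm := by linarith
  set K := KK T Rm with hK
  have hVpos : 0 < V := hv.trans_le hV
  set c : ℝ := V / (192 * (T : ℝ) ^ 3) with hc
  have hc0 : 0 < c := by positivity
  set ε : ℝ := c ^ 2 / (4 * K) with hε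
  have hε0 : 0 < ε := by positivity
  set θ : ℝ := ε * V / (8 * (T : ℝ) ^ 2) with hθ
  have hθ0 : 0 < θ := by positivity
  have hV1 : V ≤ 1 := by
    have := Cov_self_le (P.out T g) 1 (fun x => by
      rw [abs_of_nonneg (P.out_nonneg T g hg0 x)]; exact P.out_le T g hg1 x)
    linarith
  have hθε : θ ≤ ε := by
    rw [hθ, div_le_iff₀ (by positivity)]
    have h1 : (1 : ℝ) ≤ (T : ℝ) ^ 2 := one_le_pow₀ hT1
    have h2 : V ≤ 8 * (T : ℝ) ^ 2 := by linarith
    exact mul_le_mul_of_nonneg_left h2 hε0.le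
  have hτε : τ ≤ ε := by
    refine hτ.trans ?_
    rw [hε, hc]
    gcongr
  obtain ⟨l, hl⟩ := main_abs (TDC κ ι W T Rm τ) θ hθ0 hT T g hg0 hg1 P d.mt
    ⟨d, fun _ _ => rfl, by simp⟩ hVpos (by
      rintro P' L μ' ⟨d', h1, _⟩ hlight
      have hl' : ∀ t < T, ∀ k, d'.mt t k ≤ θ := fun t ht k => by rw [← h1]; exact hlight t ht k
      have h2 := lightI P' d'.ν d'.ν0 d'.ν1 ε hε0 c hc0 θ hθ0.le T (by
        intro r hr0 hr1 s hs t ht
        have h3 := d'.CJ_bound d'.τ0 ε hε0.le θ hθ0.le hl' _ s t rfl hs ht r hr0 hr1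
        refine h3.trans ?_
        have h4 : d'.ρ s + d'.ρ t + 1 ≤ 2 * Rm + 1 := by
          have := d'.ρle s hs
          have := d'.ρle t ht
          omega
        have h5 : (16 * (T : ℝ) ^ 4) ^ (d'.ρ s + d'.ρ t + 1) ≤ K := pow_le_pow_right₀ hQ1 h4
        have h6 : 0 ≤ θ + (ε + 2 * τ) := by
          have := d'.τ0
          positivity
        have h7 : θ + (ε + 2 * τ) ≤ 4 * ε := by linarith
        calc (16 * (T : ℝ) ^ 4) ^ (d'.ρ s + d'.ρ t + 1) * (θ + (ε + 2 * τ))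
            ≤ K * (4 * ε) := mul_le_mul h5 h7 h6 hK0.le
          _ = c ^ 2 := by rw [hε]; field_simp)
        (fun t ht k => d'.dl_le θ hθ0.le t (hl' t ht) k) g hg0 hg1
      refine h2.trans (le_of_eq ?_)
      have e1 : 24 * (T : ℝ) ^ 3 * c = V / 8 := by
        rw [hc]; field_simp; ring
      have e2 : (T : ℝ) ^ 2 * θ / ε = V / 8 := by
        rw [hθ]; field_simp
      rw [e1, e2]; ring)
  refine ⟨l, le_trans ?_ hl⟩
  have h1 : v ^ 4 / (2 ^ 21 * (T : ℝ) ^ 9 * K) ≤ θ * V / T := by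
    have e : θ * V / T = V ^ 4 / (1179648 * (T : ℝ) ^ 9 * K) := by
      rw [hθ, hε, hc]
      field_simp
      norm_num
    rw [e]
    have h2 : v ^ 4 ≤ V ^ 4 := pow_le_pow_left₀ hv.le hV 4
    apply div_le_div₀ (by positivity) h2 (by positivity)
    have : (1179648 : ℝ) ≤ 2 ^ 21 := by norm_num
    gcongr
  exact pow_le_pow_left₀ (by positivity) h1 2

end Pool.Agent.W938.NF
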