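import Pool.Agent.W938.NF.Tim
import Pool.Agent.W938.NF.TD
import Pool.Agent.W938.Rnd.Infl

/-!
# Circuits with noisy, measured and clean questions as processes
-/

set_option autoImplicit false
set_option linter.unusedSectionVars false

namespace Pool.Agent.W938.NF

open Finset Pool.Agent.H722R2.AA Pool.Agent.H746R2.AA Pool.Agent.H703R2.AA Pool.Agent.H703R2.AA.Pr
  Pool.Agent.H703R2.AB
open Pool.Agent.H620R2.Gauge Pool.Agent.W938.Hyb Pool.Agent.W938.Rnd

section Ext

variable {W : Type*} [Fintype W]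

lemma Es_congr' (n : ℕ) {F G : List W → ℝ} (p : List W)
    (H : ∀ h, h.length = p.length + n → F h = G h) : Es n F p = Es n G p := by
  induction n generalizing F G with
  | zero => exact H p rfl
  | succ n ih =>
    simp only [Es]
    refine ih fun h hh => Finset.sum_congr rfl fun w _ => H (w :: h) ?_
    rw [List.length_cons, hh]
    omega

lemma Es_mono' (n : ℕ) {F G : List W → ℝ} (p : List W)
    (H : ∀ h, h.length = p.length + n → F h ≤ G h) : Es n F p ≤ Es n G p := by
  induction n generalizing F G with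
  | zero => exact H p rfl
  | succ n ih =>
    simp only [Es]
    refine ih fun h hh => Finset.sum_le_sum fun w _ => H (w :: h) ?_
    rw [List.length_cons, hh]
    omega

end Ext

variable {m N B : ℕ} {lam : ℝ} (h0 : 0 ≤ lam) (h1 : lam ≤ 1) (Z : Adm N) (M : List Micro)

lemma ctl_fst (h : List (WW B)) :
    ((MM m B h0 h1 Z).ctl (M, []) h).1 = M.drop h.length := by
  induction h with
  | nil => simp [Mach.ctl]
  | cons w h ih =>
    have e : ∀ (c : Cn) (w : WW B), ((MM m B h0 h1 Z).nxt c w).1 = c.1.tail := by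
      rintro ⟨t, last⟩ w
      cases t <;> rfl
    change ((MM m B h0 h1 Z).nxt ((MM m B h0 h1 Z).ctl (M, []) h) w).1 = _
    rw [e, ih, List.tail_drop]
    rfl

lemma ctl_some (h : List (WW B)) (a : Micro) (ha : M[h.length]? = some a) :
    (MM m B h0 h1 Z).ctl (M, []) h
      = (a :: M.drop (h.length + 1), ((MM m B h0 h1 Z).ctl (M, []) h).2) := by
  have e1 := ctl_fst (m := m) h0 h1 Z M h
  obtain ⟨hlt, h2⟩ := List.getElem?_eq_some_iff.1 ha
  rw [List.drop_eq_getElem_cons hlt, h2] at e1
  rw [← e1]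

/-- The process. -/
noncomputable def NP (m B : ℕ) : Pr (Fin N) (Fin m → Bool) (WW B) :=
  (MM m B h0 h1 Z).pr (M, []) (initSt m) (Pool.Agent.H116R3.RQ.initSt_norm m)

lemma NP_a (h : List (WW B)) (w : WW B) (o : Option (Fin N)) :
    (NP h0 h1 Z M m B).a h w o = (MM m B h0 h1 Z).m ((MM m B h0 h1 Z).ctl (M, []) h) w o := rfl

lemma NP_A (h : List (WW B)) (w : WW B) (y : Fin N → ℤˣ) :
    (NP h0 h1 Z M m B).A (w :: h) y = mv ((MM m B h0 h1 Z).Q ((MM m B h0 h1 Z).ctl (M, []) h) w y)
      ((NP h0 h1 Z M m B).A h y) := rfl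

lemma mv_ite (c : Prop) [Decidable c] (K : (Fin m → Bool) → (Fin m → Bool) → ℝ)
    (ψ : (Fin m → Bool) → ℝ) :
    mv (fun n i => if c then K n i else 0) ψ = if c then mv K ψ else fun _ => 0 := by
  split_ifs
  · rfl
  · exact mv_fun_zero' ψ

lemma nsq_ite (c : Prop) [Decidable c] (ψ : (Fin m → Bool) → ℝ) :
    nsq (if c then ψ else fun _ => 0) = if c then nsq ψ else 0 := by
  split_ifs
  · rfl
  · simp [nsq]

lemma qk_u (h : List (WW B)) (g : Gate) (ha : M[h.length]? = some (Micro.u g)) (l : Fin N)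
    (y : Fin N → ℤˣ) : qk (NP h0 h1 Z M m B) h l y ≤ Z.wt g l ((NP h0 h1 Z M m B).A h y) := by
  unfold qk
  simp_rw [NP_a]
  rw [ctl_some h0 h1 Z M h _ ha]
  have e : ∀ w, (MM m B h0 h1 Z).m (Micro.u g :: M.drop (h.length + 1),
      ((MM m B h0 h1 Z).ctl (M, []) h).2) w (some l)
      = fun n i => if w.1 = [] then Z.gm g (some l) n i else 0 := fun w => rfl
  simp_rw [e, mv_ite, nsq_ite]
  rw [sum_nil]
  · rw [if_pos (by rfl)]
    exact Z.nsq_gm_le g l _
  · intro w hw
    rw [if_neg hw]

lemma qk_me (h : List (WW B)) (q : List ℕ) (k : ℕ) (ha : M[h.length]? = some (Micro.me q k))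
    (l : Fin N) (y : Fin N → ℤˣ) : qk (NP h0 h1 Z M m B) h l y = 0 := by
  unfold qk
  refine Finset.sum_eq_zero fun w _ => ?_
  rw [NP_a, ctl_some h0 h1 Z M h _ ha]
  have e : (MM m B h0 h1 Z).m (Micro.me q k :: M.drop (h.length + 1),
      ((MM m B h0 h1 Z).ctl (M, []) h).2) w (some l) = fun n i => 0 := by
    funext n i
    simp [MM, stm]
  rw [e, mv_fun_zero']
  simp [nsq]

lemma qk_kn (h : List (WW B)) (k : ℕ) (ha : M[h.length]? = some (Micro.kn k))
    (l : Fin N) (y : Fin N → ℤˣ) : qk (NP h0 h1 Z M m B) h l y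
      ≤ if Z.kd ((MM m B h0 h1 Z).ctl (M, []) h).2 = Sum.inr l
        then nsq ((NP h0 h1 Z M m B).A h y) else 0 := by
  unfold qk
  simp_rw [NP_a]
  rw [ctl_some h0 h1 Z M h _ ha]
  generalize ((MM m B h0 h1 Z).ctl (M, []) h).2 = last
  have e : ∀ w, (MM m B h0 h1 Z).m (Micro.kn k :: M.drop (h.length + 1), last) w (some l)
      = fun n i => if w.1 = [] then gk (fun _ => Z.kd last) k (some l) n i else 0 := fun w => rfl
  simp_rw [e, mv_ite, nsq_ite]
  rw [sum_nil]
  · rw [if_pos (by rfl)]
    refine (nsq_gk_le (fun _ => Z.kd last) k (fun _ => rfl) l _).trans (le_of_eq ?_)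
    by_cases hk : Z.kd last = Sum.inr l
    · simp only [hk, if_true]
      rfl
    · simp [hk]
  · intro w hw
    rw [if_neg hw]

lemma flips_read {q : List ℕ} {k : ℕ} (hq : q.Nodup) (hk : k ∉ q) (hm : ∀ i ∈ q, i < m)
    (e : List Bool) (he : e.length = q.length) (s : Fin m → Bool) :
    q.map (rd (clr k (flips q e s))) = List.zipWith xor (q.map (rd s)) e := by
  refine List.ext_getElem (by simp [he]) fun i h1 h2 => ?_
  have hi : i < q.length := by simpa using h1
  have hie : i < e.length := by omega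
  have hlt : q[i] < m := hm _ (List.getElem_mem hi)
  rw [List.getElem_map, List.getElem_zipWith, List.getElem_map,
    Adm.rd_clr_ne (fun h => hk (by rw [← h]; exact List.getElem_mem hi))]
  unfold rd
  rw [dif_pos hlt, dif_pos hlt]
  unfold flips
  congr 1
  have key : (q[i], true) ∈ q.zip e ↔ e[i] = true := by
    constructor
    · intro h
      obtain ⟨j, hj, hj2⟩ := List.getElem_of_mem h
      rw [List.getElem_zip, Prod.mk.injEq] at hj2
      have hjq : j < q.length := by rw [List.length_zip] at hj; omega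
      have h3 : j = i := (List.Nodup.getElem_inj_iff hq).1 hj2.1
      subst h3
      exact hj2.2
    · intro h
      rw [← h]
      have hz : i < (q.zip e).length := by rw [List.length_zip]; omega
      have : (q.zip e)[i] = (q[i], e[i]) := List.getElem_zip
      rw [← this]
      exact List.getElem_mem hz
  by_cases hb : e[i] = true
  · rw [hb]
    simp only [decide_eq_true_eq]
    exact key.2 hb
  · have hb' : e[i] = false := by simpa using hb
    rw [hb']
    simp only [decide_eq_false_iff_not]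
    exact fun h => hb (key.1 h)

lemma zx : ∀ z e : List Bool, e.length = z.length → List.zipWith xor z (List.zipWith xor z e) = e
  | [], [], _ => rfl
  | [], _ :: _, h => by simp at h
  | _ :: _, [], h => by simp at h
  | a :: z, b :: e, h => by
    simp only [List.length_cons, Nat.add_right_cancel_iff] at h
    simp only [List.zipWith_cons_cons]
    rw [zx z e h]
    cases a <;> cases b <;> rfl

include h0 h1 in
lemma noise_le (hinj : InjA Z) (ℓ : ℕ) (hs : ∀ z : List Bool, z.length ≤ ℓ → ∃ b, Z.kd z = Sum.inl b)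
    (n : ℕ) (z : List Bool) (hz : z.length = n) (l : Fin N) :
    ∑ e : Fin n → Bool, (if Z.kd (List.zipWith xor z (List.ofFn e)) = Sum.inr l
      then wn lam (List.ofFn e) else 0) ≤ (max lam (1 - lam)) ^ (ℓ + 1) := by
  have hμ0 : 0 ≤ max lam (1 - lam) := h0.trans (le_max_left _ _)
  have hμ1 : max lam (1 - lam) ≤ 1 := max_le h1 (by linarith)
  by_cases hn : n ≤ ℓ
  · refine le_trans (le_of_eq (Finset.sum_eq_zero fun e _ => ?_)) (pow_nonneg hμ0 _)
    rw [if_neg]
    intro h
    obtain ⟨b, hb⟩ := hs (List.zipWith xor z (List.ofFn e)) (by simp [hz]; omega)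
    rw [hb] at h
    simp at h
  · by_cases hex : ∃ e0 : Fin n → Bool, Z.kd (List.zipWith xor z (List.ofFn e0)) = Sum.inr l
    · obtain ⟨e0, he0⟩ := hex
      rw [Finset.sum_eq_single e0]
      · rw [if_pos he0]
        refine (wn_le h0 h1 _).trans ?_
        rw [List.length_ofFn]
        exact pow_le_pow_of_le_one hμ0 hμ1 (by omega)
      · intro e _ he
        rw [if_neg]
        intro h
        apply he
        have h2 := hinj _ _ l (fun y => Z.kd_inr h y) (fun y => Z.kd_inr he0 y)
        have h3 := congrArg (List.zipWith xor z) h2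
        rw [zx _ _ (by simp [hz]), zx _ _ (by simp [hz])] at h3
        exact List.ofFn_injective h3
      · intro h; exact absurd (Finset.mem_univ _) h
    · push Not at hex
      refine le_trans (le_of_eq (Finset.sum_eq_zero fun e _ => ?_)) (pow_nonneg hμ0 _)
      rw [if_neg (hex e)]

lemma qk_no (hinj : InjA Z) (ℓ : ℕ) (hs : ∀ z : List Bool, z.length ≤ ℓ → ∃ b, Z.kd z = Sum.inl b)
    (h : List (WW B)) (q : List ℕ) (k : ℕ) (hqn : q.Nodup) (hk : k ∉ q) (hm : ∀ i ∈ q, i < m)
    (ha : M[h.length]? = some (Micro.no q k))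
    (l : Fin N) (y : Fin N → ℤˣ) : qk (NP h0 h1 Z M m B) h l y
      ≤ (max lam (1 - lam)) ^ (ℓ + 1) * nsq ((NP h0 h1 Z M m B).A h y) := by
  have hμ0 : 0 ≤ max lam (1 - lam) := h0.trans (le_max_left _ _)
  unfold qk
  simp_rw [NP_a]
  rw [ctl_some h0 h1 Z M h _ ha]
  generalize ((MM m B h0 h1 Z).ctl (M, []) h).2 = last
  generalize (NP h0 h1 Z M m B).A h y = ψ
  by_cases hq : q.length ≤ B
  · have e : ∀ w, (MM m B h0 h1 Z).m (Micro.no q k :: M.drop (h.length + 1), last) w (some l)
        = fun n i => if w.1.length = q.length then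
            Real.sqrt (wn lam w.1) * Z.gm (Sum.inr (true, q, k)) (some l) n (flips q w.1 i)
            else 0 := by
      intro w
      funext n i
      simp only [MM, stm, hq, if_true]
    have e2 : ∀ w : WW B, nsq (mv (fun n i => if w.1.length = q.length then
            Real.sqrt (wn lam w.1) * Z.gm (Sum.inr (true, q, k)) (some l) n (flips q w.1 i)
            else 0) ψ)
        ≤ if w.1.length = q.length then wn lam w.1 * ∑ s : Fin m → Bool,
            (if Z.kd (List.zipWith xor (q.map (rd s)) w.1) = Sum.inr l then ψ s ^ 2 else 0)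
            else 0 := by
      intro w
      rw [mv_ite, nsq_ite]
      split_ifs with hw
      · have e3 : mv (fun n i => Real.sqrt (wn lam w.1)
              * Z.gm (Sum.inr (true, q, k)) (some l) n (flips q w.1 i)) ψ
            = fun n => Real.sqrt (wn lam w.1)
              * mv (Z.gm (Sum.inr (true, q, k)) (some l)) (fun s => ψ (flips q w.1 s)) n := by
          funext n
          unfold mv
          rw [Finset.mul_sum]
          rw [← sum_flips q w.1 (fun i => Real.sqrt (wn lam w.1)
            * (Z.gm (Sum.inr (true, q, k)) (some l) n i * ψ (flips q w.1 i)))]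
          refine Finset.sum_congr rfl fun i _ => ?_
          rw [flips_flips]
          ring
        have e4 : nsq (fun n => Real.sqrt (wn lam w.1)
              * mv (Z.gm (Sum.inr (true, q, k)) (some l)) (fun s => ψ (flips q w.1 s)) n)
            = Real.sqrt (wn lam w.1) ^ 2
              * nsq (mv (Z.gm (Sum.inr (true, q, k)) (some l)) (fun s => ψ (flips q w.1 s))) :=
          nsq_smul _ _
        rw [e3, e4, Real.sq_sqrt (wn_nonneg h0 h1 w.1)]
        refine mul_le_mul_of_nonneg_left ?_ (wn_nonneg h0 h1 w.1)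
        refine (Z.nsq_gm_le _ l _).trans (le_of_eq ?_)
        unfold Adm.wt
        dsimp only
        rw [← sum_flips q w.1]
        refine Finset.sum_congr rfl fun s _ => ?_
        rw [flips_flips]
        unfold Adm.kq
        rw [flips_read hqn hk hm w.1 hw]
      · exact le_rfl
    simp_rw [e]
    refine (Finset.sum_le_sum fun w _ => e2 w).trans ?_
    rw [sum_WW B q.length hq (fun w => wn lam w * ∑ s : Fin m → Bool,
            (if Z.kd (List.zipWith xor (q.map (rd s)) w) = Sum.inr l then ψ s ^ 2 else 0))]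
    simp_rw [Finset.mul_sum]
    rw [Finset.sum_comm]
    unfold nsq
    rw [Finset.mul_sum]
    refine Finset.sum_le_sum fun s _ => ?_
    have e5 : ∀ e : Fin q.length → Bool, wn lam (List.ofFn e)
        * (if Z.kd (List.zipWith xor (q.map (rd s)) (List.ofFn e)) = Sum.inr l then ψ s ^ 2 else 0)
        = (if Z.kd (List.zipWith xor (q.map (rd s)) (List.ofFn e)) = Sum.inr l
          then wn lam (List.ofFn e) else 0) * ψ s ^ 2 := by
      intro e
      split_ifs <;> ring
    simp_rw [e5]
    rw [← Finset.sum_mul]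
    exact mul_le_mul_of_nonneg_right (noise_le h0 h1 Z hinj ℓ hs q.length _ (by simp) l)
      (sq_nonneg _)
  · have e : ∀ w, (MM m B h0 h1 Z).m (Micro.no q k :: M.drop (h.length + 1), last) w (some l)
        = fun n i => 0 := by
      intro w
      funext n i
      simp [MM, stm, hq]
    simp_rw [e, mv_fun_zero']
    refine le_trans (le_of_eq ?_) (mul_nonneg (pow_nonneg hμ0 _) (nsq_nonneg ψ))
    simp [nsq]

lemma wt_zero (g : Gate) (l : Fin N) : Z.wt g l (fun _ : Fin m → Bool => 0) = 0 := by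
  unfold Adm.wt
  split
  · simp
  · rfl

/-- Clean gates of a round do not change the test of a gate of the round. -/
lemma Es_wt (y : Fin N → ℤˣ) (q : List ℕ) (k : ℕ) (hk : k ∉ q) (l : Fin N) :
    ∀ (n : ℕ) (h : List (WW B)), (∀ s, h.length ≤ s → s < h.length + n →
      ∃ q' k', M[s]? = some (Micro.u (Sum.inr (true, q', k'))) ∧ k' ∉ q) →
    Es n (fun h' => Z.wt (Sum.inr (true, q, k)) l ((NP h0 h1 Z M m B).A h' y)) h
      = Z.wt (Sum.inr (true, q, k)) l ((NP h0 h1 Z M m B).A h y) := by
  intro n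
  induction n with
  | zero => intro h _; rfl
  | succ n ih =>
    intro h hh
    rw [← ih h (fun s hs1 hs2 => hh s hs1 (by omega))]
    simp only [Es]
    refine Es_congr' n h fun h' hh' => ?_
    obtain ⟨q', k', h2, h3⟩ := hh h'.length (by omega) (by omega)
    rw [sum_nil]
    · rw [NP_A, ctl_some h0 h1 Z M h' _ h2, MQ_u, if_pos (by rfl), Z.wt_gate _ q' hk h3]
    · intro w hw
      rw [NP_A, ctl_some h0 h1 Z M h' _ h2, MQ_u, if_neg hw, wt_zero]

/-- The tests. -/
noncomputable def bbf (last : List Bool) (a : Option Micro) (l : Fin N) :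
    (Fin m → Bool) → (Fin m → Bool) → ℝ :=
  match a with
  | some (Micro.u (Sum.inr (true, q, k))) => fun s t => if Z.kq q k s = Sum.inr l then Ee s t else 0
  | some (Micro.kn _) => fun s t => if Z.kd last = Sum.inr l then Ee s t else 0
  | _ => fun _ _ => 0

/-- The known weights. -/
noncomputable def nuf (last : List Bool) (a : Option Micro) (l : Fin N) : ℝ :=
  match a with
  | some (Micro.kn _) => if Z.kd last = Sum.inr l then 1 else 0
  | _ => 0

lemma nuf_nonneg (last : List Bool) (a : Option Micro) (l : Fin N) : 0 ≤ nuf Z last a l := by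
  unfold nuf
  split
  · split_ifs <;> norm_num
  · exact le_rfl

lemma sum_kd (z : List Bool) (c : ℝ) (hc : 0 ≤ c) :
    ∑ l : Fin N, (if Z.kd z = Sum.inr l then c else 0) ≤ c := by
  cases hk : Z.kd z with
  | inl b => simpa using hc
  | inr l0 => simp

lemma nuf_sum (last : List Bool) (a : Option Micro) : ∑ l, nuf Z last a l ≤ 1 := by
  unfold nuf
  split
  · exact sum_kd Z last 1 zero_le_one
  · simp

lemma bbf_cl (last : List Bool) (q : List ℕ) (k : ℕ) (l : Fin N) (ψ : (Fin m → Bool) → ℝ) :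
    nsq (mv (bbf Z last (some (Micro.u (Sum.inr (true, q, k)))) l) ψ)
      = Z.wt (Sum.inr (true, q, k)) l ψ := by
  have e : ∀ s : Fin m → Bool, mv (bbf Z last (some (Micro.u (Sum.inr (true, q, k)))) l) ψ s
      = if Z.kq q k s = Sum.inr l then ψ s else 0 := by
    intro s
    unfold mv bbf
    dsimp only
    split_ifs
    · exact sum_Ee s ψ
    · simp
  unfold nsq Adm.wt
  simp_rw [e]
  refine Finset.sum_congr rfl fun s _ => ?_
  split_ifs
  · rfl
  · norm_num

lemma bbf_kn (last : List Bool) (k : ℕ) (l : Fin N) (ψ : (Fin m → Bool) → ℝ) :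
    nsq (mv (bbf Z last (some (Micro.kn k)) l) ψ)
      = if Z.kd last = Sum.inr l then nsq ψ else 0 := by
  have e : ∀ s : Fin m → Bool, mv (bbf Z last (some (Micro.kn k)) l) ψ s
      = if Z.kd last = Sum.inr l then ψ s else 0 := by
    intro s
    unfold mv bbf
    dsimp only
    split_ifs
    · exact sum_Ee s ψ
    · simp
  unfold nsq
  simp_rw [e]
  split_ifs <;> simp

lemma bbf_cases (a : Option Micro) : (∃ q k, a = some (Micro.u (Sum.inr (true, q, k)))) ∨
    (∃ k, a = some (Micro.kn k)) ∨ (∀ last l, bbf (m := m) Z last a l = fun _ _ => 0) ∧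
      ∀ last l, nuf Z last a l = 0 := by
  rcases a with _ | a
  · exact Or.inr (Or.inr ⟨fun _ _ => rfl, fun _ _ => rfl⟩)
  · cases a with
    | u g =>
      rcases g with i | ⟨b, q, k⟩
      · exact Or.inr (Or.inr ⟨fun _ _ => rfl, fun _ _ => rfl⟩)
      · cases b with
        | false => exact Or.inr (Or.inr ⟨fun _ _ => rfl, fun _ _ => rfl⟩)
        | true => exact Or.inl ⟨q, k, rfl⟩
    | me q k => exact Or.inr (Or.inr ⟨fun _ _ => rfl, fun _ _ => rfl⟩)
    | kn k => exact Or.inr (Or.inl ⟨k, rfl⟩)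
    | no q k => exact Or.inr (Or.inr ⟨fun _ _ => rfl, fun _ _ => rfl⟩)

lemma bbf_sum (last : List Bool) (a : Option Micro) (ψ : (Fin m → Bool) → ℝ) :
    ∑ l, nsq (mv (bbf Z last a l) ψ) ≤ nsq ψ := by
  rcases bbf_cases (m := m) Z a with ⟨q, k, rfl⟩ | ⟨k, rfl⟩ | ⟨h2, _⟩
  · simp_rw [bbf_cl]
    exact Z.sum_wt_le _ _
  · simp_rw [bbf_kn]
    exact sum_kd Z last _ (nsq_nonneg ψ)
  · simp_rw [h2, mv_fun_zero']
    simp only [nsq, ne_eq, OfNat.ofNat_ne_zero, not_false_eq_true, zero_pow, Finset.sum_const_zero]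
    exact nsq_nonneg ψ

lemma wt_not (g : Gate) (hg : ∀ q k, g ≠ Sum.inr (true, q, k)) (l : Fin N) (ψ : (Fin m → Bool) → ℝ) :
    Z.wt g l ψ = 0 := wt_free Z hg l ψ

/-- The data of the process. -/
theorem exists_TD (hinj : InjA Z) (ℓ r : ℕ)
    (hs : ∀ z : List Bool, z.length ≤ ℓ → ∃ b, Z.kd z = Sum.inl b) (hM : CRM r M)
    (hok : ∀ q k, Micro.no q k ∈ M → q.Nodup ∧ k ∉ q ∧ ∀ i ∈ q, i < m) :
    Nonempty (TD (NP h0 h1 Z M m B) M.length (2 * r) ((max lam (1 - lam)) ^ (ℓ + 1))) := by
  have hμ0 : 0 ≤ max lam (1 - lam) := h0.trans (le_max_left _ _)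
  obtain ⟨σ, ρ, s1, s2, s3, s4, s5, s6⟩ := tstr r M hM
  refine ⟨{
    σ := σ
    fr := frM M
    ρ := ρ
    bb := fun t h => bbf Z ((MM m B h0 h1 Z).ctl (M, []) h).2 M[t]?
    ν := fun h => nuf Z ((MM m B h0 h1 Z).ctl (M, []) h).2 M[h.length]?
    τ0 := pow_nonneg hμ0 _
    σle := s1
    σfr := s2
    ρle := fun t _ => s3 t
    ρm := s4
    ρs := s5
    bbc := fun t h u => bbf_sum Z _ _ u
    ν0 := fun h k => nuf_nonneg Z _ _ _
    ν1 := fun h => nuf_sum Z _ _
    νfr := ?_
    νbb := ?_
    dom := ?_ }⟩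
  · rintro h l ⟨q, k, hf⟩
    rw [hf]
    rfl
  · intro t h l u hf hh
    rw [hh]
    rcases bbf_cases (m := m) Z M[t]? with ⟨q, k, h2⟩ | ⟨k, h2⟩ | ⟨h2, h3⟩
    · exact absurd ⟨q, k, h2⟩ hf
    · rw [h2, bbf_kn]
      simp only [nuf]
      split_ifs <;> ring
    · rw [h2, h3, mv_fun_zero']
      simp [nsq]
  · intro t ht h hh l y
    have hF := nsq_nonneg ((NP h0 h1 Z M m B).A h y)
    have hτ := mul_nonneg (pow_nonneg hμ0 (ℓ + 1)) hF
    by_cases hf : frM M t
    · obtain ⟨q, k, h2⟩ := hf
      rw [h2, bbf_cl]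
      have hst := s1 t
      have hkq : k ∉ q := by
        obtain ⟨q', k', h3, h4⟩ := s6 t q k h2 t hst le_rfl
        rw [h2] at h3
        simp only [Option.some.injEq, Micro.u.injEq, Sum.inr.injEq, Prod.mk.injEq, true_and] at h3
        rw [h3.2]
        exact h4
      have h5 : Es (t - σ t) (fun h' => qk (NP h0 h1 Z M m B) h' l y) h
          ≤ Es (t - σ t) (fun h' => Z.wt (Sum.inr (true, q, k)) l ((NP h0 h1 Z M m B).A h' y)) h := by
        refine Es_mono' _ h fun h' hh' => qk_u h0 h1 Z M h' _ ?_ l y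
        have : h'.length = t := by omega
        rw [this]
        exact h2
      rw [Es_wt h0 h1 Z M y q k hkq l (t - σ t) h (fun s hs1 hs2 => s6 t q k h2 s (by omega)
        (by omega))] at h5
      linarith
    · have e0 : σ t = t := s2 t hf
      have e1 : t - σ t = 0 := by omega
      have hht : h.length = t := by omega
      rw [e1]
      simp only [Es]
      have hnn := nsq_nonneg (mv (bbf Z ((MM m B h0 h1 Z).ctl (M, []) h).2 M[t]? l)
        ((NP h0 h1 Z M m B).A h y))
      obtain ⟨a, ha⟩ : ∃ a, M[t]? = some a := ⟨M[t], List.getElem?_eq_getElem ht⟩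
      have ha' : M[h.length]? = some a := by rw [hht]; exact ha
      cases a with
      | u g =>
        have h2 := qk_u (m := m) h0 h1 Z M h g ha' l y
        rw [wt_not Z g (fun q k hg => hf ⟨q, k, by rw [ha, hg]⟩)] at h2
        linarith
      | me q k =>
        rw [qk_me (m := m) h0 h1 Z M h q k ha' l y]
        linarith
      | kn k =>
        have h2 := qk_kn (m := m) h0 h1 Z M h k ha' l y
        rw [ha, bbf_kn]
        linarith
      | no q k =>
        obtain ⟨o1, o2, o3⟩ := hok q k (List.mem_of_getElem? ha)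
        have h2 := qk_no (m := m) h0 h1 Z M hinj ℓ hs h q k o1 o2 o3 ha' l y
        linarith

end Pool.Agent.W938.NF
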