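import Pool.Agent.W938.NF.Flow

/-!
# The variance of a process whose collisions over good pairs are rare
-/

set_option autoImplicit false
set_option linter.unusedSectionVars false

namespace Pool.Agent.W938.NF

open Finset Pool.Agent.H722R2.AA Pool.Agent.H746R2.AA Pool.Agent.H703R2.AA Pool.Agent.H703R2.AA.Pr
  Pool.Agent.H703R2.AB

variable {κ ι W : Type*} [Fintype κ] [DecidableEq κ] [Fintype ι] [DecidableEq ι] [Fintype W]
variable (P : Pr κ ι W)

/-- The bound for one pair of steps. -/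
lemma pairI {r : ℝ} (h0 : 0 ≤ r) (h1 : r ≤ 1) (ν : List W → κ → ℝ) (ε : ℝ)
    (c : ℝ) (hc : 0 < c) (s t T : ℕ) (hsT : s < T) (htT : t < T) (hC : CJ P ν ε s t r ≤ c ^ 2) :
    PE r (fun x y => SS T T (fun a b => ind (gd ν ε a b)
      * |∑ k, dot (P.z s k a x) (P.qq a k x) * dot (P.z t k b y) (P.qq b k y)|))
      ≤ 12 * T * c := by
  have hT1 : (1 : ℝ) ≤ T := by
    have : 1 ≤ T := by omega
    exact_mod_cast this
  set c1 : ℝ := 1 / c with hc1
  set c2 : ℝ := 8 * (T : ℝ) / c with hc2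
  have hc1' : 0 < c1 := by positivity
  have hc2' : 0 < c2 := by positivity
  have hpt : ∀ x y : κ → ℤˣ, SS T T (fun a b => ind (gd ν ε a b)
      * |∑ k, dot (P.z s k a x) (P.qq a k x) * dot (P.z t k b y) (P.qq b k y)|)
      ≤ (2 * c1) * SS T T (fun a b => ind (gd ν ε a b)
          * nsq (∑ k, tn (P.z s k a x) (P.z t k b y)))
        + (2 / c1) * SS T T (fun a b => nsq (P.A a x) * nsq (P.A b y))
        + (c2 / 2) * SS T T (fun a b => ind (gd ν ε a b)
          * ∑ k, nsq (P.z s k a x) * nsq (P.z t k b y))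
        + (1 / (2 * c2)) * SS T T (fun a b => ∑ k, nsq (P.rr a b k x y)) := by
    intro x y
    rw [← SS_mul_left, ← SS_mul_left, ← SS_mul_left, ← SS_mul_left, ← SS_add, ← SS_add, ← SS_add]
    refine SS_mono T T fun a b => ?_
    have hb := mul_le_mul_of_nonneg_left (P.pt_bound c1 c2 hc1' hc2' s t a b x y)
      (ind_nonneg (gd ν ε a b))
    refine hb.trans ?_
    have h3 : ind (gd ν ε a b) * (nsq (P.A a x) * nsq (P.A b y) / c1)
        ≤ nsq (P.A a x) * nsq (P.A b y) / c1 := by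
      refine mul_le_of_le_one_left ?_ (ind_le_one _)
      exact div_nonneg (mul_nonneg (nsq_nonneg _) (nsq_nonneg _)) hc1'.le
    have h4 : ind (gd ν ε a b) * ((∑ k, nsq (P.rr a b k x y)) / c2)
        ≤ (∑ k, nsq (P.rr a b k x y)) / c2 := by
      refine mul_le_of_le_one_left ?_ (ind_le_one _)
      exact div_nonneg (Finset.sum_nonneg fun k _ => nsq_nonneg _) hc2'.le
    have e3 : (2 / c1) * (nsq (P.A a x) * nsq (P.A b y)) = 2 * (nsq (P.A a x) * nsq (P.A b y) / c1) := by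
      ring
    have e4 : (1 / (2 * c2)) * (∑ k, nsq (P.rr a b k x y)) = ((∑ k, nsq (P.rr a b k x y)) / c2) / 2 := by
      field_simp
    rw [e3, e4]
    linarith
  refine (PE_mono h0 h1 hpt).trans ?_
  rw [PE_add, PE_add, PE_add, PE_mul_left, PE_mul_left, PE_mul_left, PE_mul_left, P.PE_AA]
  have b1 := (levelI P ν ε h0 h1 T T s t hsT htT).trans hC
  have b2 := (levelP P ν ε h0 h1 T T s t hsT htT).trans hC
  have b3 := P.PE_rr h0 h1 T
  have d1 := mul_le_mul_of_nonneg_left b1 (by positivity : 0 ≤ 2 * c1)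
  have d2 := mul_le_mul_of_nonneg_left b2 (by positivity : 0 ≤ c2 / 2)
  have d3 := mul_le_mul_of_nonneg_left b3 (by positivity : 0 ≤ 1 / (2 * c2))
  have f1 : 2 * c1 * c ^ 2 = 2 * c := by
    rw [hc1]; field_simp
  have f2 : c2 / 2 * c ^ 2 = 4 * T * c := by
    rw [hc2]; field_simp; ring
  have f3 : 1 / (2 * c2) * (64 * T) = 4 * c := by
    rw [hc2]; field_simp; ring
  have f4 : 2 / c1 * 1 = 2 * c := by
    rw [hc1]; field_simp
  rw [f1] at d1
  rw [f2] at d2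
  rw [f3] at d3
  rw [f4]
  have g2 : c ≤ T * c := by
    have := mul_le_mul_of_nonneg_right hT1 hc.le
    linarith
  linarith

/-- The part of the second moment coming from good pairs. -/
noncomputable def Gg (ν : List W → κ → ℝ) (ε : ℝ) (T : ℕ) (g : List W → ℝ) (r : ℝ) : ℝ :=
  SS T T (fun a b => (ind (gd ν ε a b) * (g a * g b))
    * PE r (fun x y => nsq (P.A a x) * nsq (P.A b y)))

/-- The part of the second moment coming from bad pairs. -/
noncomputable def Bg (ν : List W → κ → ℝ) (ε : ℝ) (T : ℕ) (g : List W → ℝ) (r : ℝ) : ℝ :=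
  SS T T (fun a b => (ind (¬ gd ν ε a b) * (g a * g b))
    * PE r (fun x y => nsq (P.A a x) * nsq (P.A b y)))

lemma Gg_deriv (ν : List W → κ → ℝ) (ε : ℝ) (T : ℕ) (g : List W → ℝ) (r : ℝ) :
    HasDerivAt (Gg P ν ε T g) (SS T T (fun a b => (ind (gd ν ε a b) * (g a * g b))
      * ∑ k, PE r (fun x y => D (fun x => nsq (P.A a x)) k x * D (fun y => nsq (P.A b y)) k y))) r := by
  unfold Gg
  exact hasDerivAt_SS T T _ _ r fun a b =>
    (hasDerivAt_PE (fun x => nsq (P.A a x)) (fun y => nsq (P.A b y)) r).const_mul _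

lemma derivI {r : ℝ} (h0 : 0 ≤ r) (h1 : r ≤ 1) (ν : List W → κ → ℝ)
    (ε : ℝ) (c : ℝ) (hc : 0 < c) (T : ℕ) (hC : ∀ s < T, ∀ t < T, CJ P ν ε s t r ≤ c ^ 2)
    (g : List W → ℝ) (hg0 : ∀ a, 0 ≤ g a) (hg1 : ∀ a, g a ≤ 1) :
    |SS T T (fun a b => (ind (gd ν ε a b) * (g a * g b))
      * ∑ k, PE r (fun x y => D (fun x => nsq (P.A a x)) k x * D (fun y => nsq (P.A b y)) k y))|
      ≤ 12 * (T : ℝ) ^ 3 * c := by
  refine (SS_abs _ _ _).trans ?_
  have step : SS T T (fun a b => |(ind (gd ν ε a b) * (g a * g b))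
      * ∑ k, PE r (fun x y => D (fun x => nsq (P.A a x)) k x * D (fun y => nsq (P.A b y)) k y)|)
      ≤ SS T T (fun a b => PE r (fun x y => ∑ s ∈ Finset.range T, ∑ t ∈ Finset.range T,
        ind (gd ν ε a b)
          * |∑ k, dot (P.z s k a x) (P.qq a k x) * dot (P.z t k b y) (P.qq b k y)|)) := by
    refine SS_mono' T T fun a b ha hb => ?_
    rw [abs_mul]
    have hgg : |ind (gd ν ε a b) * (g a * g b)| ≤ ind (gd ν ε a b) := by
      have hi := ind_nonneg (gd ν ε a b)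
      have h3 : 0 ≤ g a * g b := mul_nonneg (hg0 a) (hg0 b)
      have h4 : g a * g b ≤ 1 := mul_le_one₀ (hg1 a) (hg0 b) (hg1 b)
      rw [abs_of_nonneg (mul_nonneg hi h3)]
      exact mul_le_of_le_one_right hi h4
    rw [← PE_sum]
    calc |ind (gd ν ε a b) * (g a * g b)|
          * |PE r (fun x y => ∑ k, D (fun x => nsq (P.A a x)) k x * D (fun y => nsq (P.A b y)) k y)|
        ≤ ind (gd ν ε a b)
          * PE r (fun x y => |∑ k, D (fun x => nsq (P.A a x)) k x * D (fun y => nsq (P.A b y)) k y|) :=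
          mul_le_mul hgg (PE_abs h0 h1 _) (abs_nonneg _) (ind_nonneg _)
      _ = PE r (fun x y => ind (gd ν ε a b)
          * |∑ k, D (fun x => nsq (P.A a x)) k x * D (fun y => nsq (P.A b y)) k y|) := by
          rw [PE_mul_left]
      _ ≤ _ := by
          refine PE_mono h0 h1 fun x y => ?_
          rw [P.D_prod T a b ha.le hb.le]
          simp_rw [← Finset.mul_sum]
          refine mul_le_mul_of_nonneg_left ?_ (ind_nonneg _)
          refine (Finset.abs_sum_le_sum_abs _ _).trans ?_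
          exact Finset.sum_le_sum fun s _ => Finset.abs_sum_le_sum_abs _ _
  refine step.trans ?_
  rw [← PE_SS r T T (fun a b x y => ∑ s ∈ Finset.range T, ∑ t ∈ Finset.range T,
        ind (gd ν ε a b)
          * |∑ k, dot (P.z s k a x) (P.qq a k x) * dot (P.z t k b y) (P.qq b k y)|)]
  simp_rw [SS_sum]
  rw [PE_sum]
  simp_rw [PE_sum]
  calc ∑ s ∈ Finset.range T, ∑ t ∈ Finset.range T,
        PE r (fun x y => SS T T (fun a b => ind (gd ν ε a b)
          * |∑ k, dot (P.z s k a x) (P.qq a k x) * dot (P.z t k b y) (P.qq b k y)|))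
      ≤ ∑ _s ∈ Finset.range T, ∑ _t ∈ Finset.range T, 12 * T * c :=
        Finset.sum_le_sum fun s hs' => Finset.sum_le_sum fun t ht' =>
          pairI P h0 h1 ν ε c hc s t T (Finset.mem_range.1 hs') (Finset.mem_range.1 ht')
            (hC s (Finset.mem_range.1 hs') t (Finset.mem_range.1 ht'))
    _ = _ := by
        simp only [Finset.sum_const, Finset.card_range, nsmul_eq_mul]
        ring

lemma Gg_sub (ν : List W → κ → ℝ) (ε : ℝ) (c : ℝ) (hc : 0 < c) (T : ℕ)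
    (hC : ∀ r : ℝ, 0 ≤ r → r ≤ 1 → ∀ s < T, ∀ t < T, CJ P ν ε s t r ≤ c ^ 2)
    (g : List W → ℝ) (hg0 : ∀ a, 0 ≤ g a) (hg1 : ∀ a, g a ≤ 1) :
    |Gg P ν ε T g 1 - Gg P ν ε T g 0| ≤ 12 * (T : ℝ) ^ 3 * c := by
  have := (convex_Icc (0 : ℝ) 1).norm_image_sub_le_of_norm_hasDerivWithin_le
    (f := Gg P ν ε T g) (C := 12 * (T : ℝ) ^ 3 * c)
    (fun r _ => (Gg_deriv P ν ε T g r).hasDerivWithinAt)
    (fun r hr => by
      rw [Real.norm_eq_abs]
      exact derivI P hr.1 hr.2 ν ε c hc T (hC r hr.1 hr.2) g hg0 hg1)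
    (Set.left_mem_Icc.2 zero_le_one) (Set.right_mem_Icc.2 zero_le_one)
  simpa using this

lemma Gg_add_Bg (ν : List W → κ → ℝ) (ε : ℝ) (T : ℕ) (g : List W → ℝ) (r : ℝ) :
    Gg P ν ε T g r + Bg P ν ε T g r = PE r (fun x y => P.out T g x * P.out T g y) := by
  rw [P.PE_out]
  unfold Gg Bg
  rw [← SS_add]
  refine SS_congr' T T fun a b _ _ => ?_
  rw [ind_not]; ring

/-- The light lemma. -/
theorem lightI (ν : List W → κ → ℝ) (hν0 : ∀ h k, 0 ≤ ν h k) (hν : ∀ h, ∑ k, ν h k ≤ 1)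
    (ε : ℝ) (hε : 0 < ε) (c : ℝ) (hc : 0 < c) (θ : ℝ) (hθ : 0 ≤ θ) (T : ℕ)
    (hC : ∀ r : ℝ, 0 ≤ r → r ≤ 1 → ∀ s < T, ∀ t < T, CJ P ν ε s t r ≤ c ^ 2)
    (hdl : ∀ t < T, ∀ k, dl P ν t k ≤ θ)
    (g : List W → ℝ) (hg0 : ∀ a, 0 ≤ g a) (hg1 : ∀ a, g a ≤ 1) :
    Cov (P.out T g) (P.out T g) ≤ 24 * (T : ℝ) ^ 3 * c + (T : ℝ) ^ 2 * θ / ε := by
  have hC2 := Gg_sub P ν ε c hc T hC g hg0 hg1
  have hC1 := Gg_sub P ν ε c hc T hC (fun _ => 1) (fun _ => zero_le_one) (fun _ => le_rfl)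
  have hPE0 : ∀ {r : ℝ}, 0 ≤ r → r ≤ 1 → ∀ a b : List W,
      0 ≤ PE r (fun x y => nsq (P.A a x) * nsq (P.A b y)) := fun h0 h1 a b =>
    PE_nonneg h0 h1 fun x y => mul_nonneg (nsq_nonneg _) (nsq_nonneg _)
  have hB0 : 0 ≤ Bg P ν ε T g 0 := by
    unfold Bg
    refine SS_nonneg T T fun a b => ?_
    exact mul_nonneg (mul_nonneg (ind_nonneg _) (mul_nonneg (hg0 a) (hg0 b)))
      (hPE0 le_rfl zero_le_one a b)
  have hB1 : Bg P ν ε T g 1 ≤ Bg P ν ε T (fun _ => 1) 1 := by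
    unfold Bg
    refine SS_mono T T fun a b => ?_
    refine mul_le_mul_of_nonneg_right ?_ (hPE0 zero_le_one le_rfl a b)
    refine mul_le_mul_of_nonneg_left ?_ (ind_nonneg _)
    rw [one_mul]
    exact mul_le_one₀ (hg1 a) (hg0 b) (hg1 b)
  have hone : ∀ r : ℝ, Gg P ν ε T (fun _ => 1) r + Bg P ν ε T (fun _ => 1) r = 1 := by
    intro r
    rw [Gg_add_Bg]
    simp_rw [P.out_one, one_mul]
    exact PE_const r 1
  have hbad : Bg P ν ε T (fun _ => 1) 0 ≤ (T : ℝ) ^ 2 * θ / ε := by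
    have h1 := bad_le P ν hν0 1 hν T ε θ hε hθ hdl
    rw [one_mul] at h1
    have e : Bg P ν ε T (fun _ => 1) 0
        = SS T T (fun a b => ind (¬ gd ν ε a b) * (P.p a * P.p b)) := by
      unfold Bg
      refine SS_congr' T T fun a b _ _ => ?_
      rw [PE_zero]
      have : ∀ x : κ → ℤˣ, Ex (fun y => nsq (P.A a x) * nsq (P.A b y)) = nsq (P.A a x) * P.p b := by
        intro x
        rw [Ex_mul_left]; rfl
      simp_rw [this]
      rw [Ex_mul_right]
      simp only [mul_one, p]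
    rw [e]
    exact h1
  have hcov : Cov (P.out T g) (P.out T g)
      = (Gg P ν ε T g 1 + Bg P ν ε T g 1) - (Gg P ν ε T g 0 + Bg P ν ε T g 0) := by
    rw [Gg_add_Bg, Gg_add_Bg, PE_one, PE_zero]
    unfold Cov
    congr 1
    simp_rw [Ex_mul_left]
    rw [Ex_mul_right]
  have h1 := (abs_le.1 hC2).2
  have h2 := (abs_le.1 hC1).1
  have h3 := hone 1
  have h4 := hone 0
  rw [hcov]
  linarith

end Pool.Agent.W938.NF
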