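import Pool.Agent.W938.NF.Gm

/-!
# The machine of a circuit with noisy, measured and clean questions
-/

set_option autoImplicit false
set_option linter.unusedSectionVars false

namespace Pool.Agent.W938.NF

open Finset Pool.Agent.H722R2.AA Pool.Agent.H746R2.AA Pool.Agent.H703R2.AA
open Pool.Agent.H620R2.Gauge Pool.Agent.W938.Hyb

variable {m N B : ℕ}

/-- The elementary steps: an ordinary gate, the measurement of a question, the oracle gate whose
question is the last outcome, and the noisy oracle gate. -/
inductive Micro
  | u (g : Gate)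
  | me (q : List ℕ) (k : ℕ)
  | kn (k : ℕ)
  | no (q : List ℕ) (k : ℕ)

lemma flips_flips (q : List ℕ) (e : List Bool) (s : Fin m → Bool) :
    flips q e (flips q e s) = s := by
  funext j
  simp [flips]

lemma flips_inj (q : List ℕ) (e : List Bool) (s t : Fin m → Bool) :
    flips q e s = flips q e t ↔ s = t := by
  constructor
  · intro h
    rw [← flips_flips q e s, h, flips_flips]
  · intro h
    rw [h]

/-- Flipping as a permutation. -/
def flipsE (q : List ℕ) (e : List Bool) : (Fin m → Bool) ≃ (Fin m → Bool) where
  toFun := flips q e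
  invFun := flips q e
  left_inv := flips_flips q e
  right_inv := flips_flips q e

lemma sum_flips (q : List ℕ) (e : List Bool) (f : (Fin m → Bool) → ℝ) :
    ∑ s, f (flips q e s) = ∑ s, f s := (flipsE q e).sum_comp f

/-- The step matrices. -/
noncomputable def stm (Z : Adm N) (lam : ℝ) (a : Micro) (last : List Bool) (w : WW B)
    (o : Option (Fin N)) (n i : Fin m → Bool) : ℝ :=
  match a with
  | Micro.u g => if w.1 = [] then Z.gm g o n i else 0
  | Micro.me q k => if o = none ∧ w.1 = (q.map (rd (clr k i))).take B then Ee n i else 0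
  | Micro.kn k => if w.1 = [] then gk (fun _ => Z.kd last) k o n i else 0
  | Micro.no q k => if q.length ≤ B then
      (if w.1.length = q.length then
        Real.sqrt (wn lam w.1) * Z.gm (Sum.inr (true, q, k)) o n (flips q w.1 i) else 0)
      else (if w.1 = [] ∧ o = none then Ee n i else 0)

/-- The trivial outcome. -/
def w0 : WW B := ⟨[], by simp⟩

lemma sum_nil (F : WW B → ℝ) (h : ∀ w : WW B, w.1 ≠ [] → F w = 0) : ∑ w, F w = F w0 := by
  refine Finset.sum_eq_single w0 (fun w _ hw => h w fun h1 => hw (Subtype.ext h1)) ?_
  intro h; exact absurd (Finset.mem_univ _) h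

lemma id_orth (k l : Option (Fin N)) (hkl : k ≠ l) (i j : Fin m → Bool) :
    ∑ w : WW B, ∑ n : Fin m → Bool, (if w.1 = [] ∧ k = none then Ee n i else 0)
      * (if w.1 = [] ∧ l = none then Ee n j else 0) = 0 := by
  refine Finset.sum_eq_zero fun w _ => Finset.sum_eq_zero fun n _ => ?_
  by_cases h : w.1 = [] ∧ k = none
  · rw [if_neg (c := w.1 = [] ∧ l = none) (fun h2 => hkl (h.2.trans h2.2.symm)), mul_zero]
  · rw [if_neg h, zero_mul]

lemma id_tot (i j : Fin m → Bool) :
    ∑ k : Option (Fin N), ∑ w : WW B, ∑ n : Fin m → Bool, (if w.1 = [] ∧ k = none then Ee n i else 0)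
      * (if w.1 = [] ∧ k = none then Ee n j else 0) = if i = j then 1 else 0 := by
  rw [Fintype.sum_option, sum_nil]
  · simp only [w0, and_self, if_true, reduceCtorEq, and_false, if_false, mul_zero,
      Finset.sum_const_zero, add_zero]
    exact sum_Ee_Ee i j
  · intro w hw
    refine Finset.sum_eq_zero fun n _ => ?_
    rw [if_neg (fun h => hw h.1), zero_mul]

lemma stm_orth {lam : ℝ} (Z : Adm N) (a : Micro) (last : List Bool)
    (k l : Option (Fin N)) (hkl : k ≠ l) (i j : Fin m → Bool) :
    ∑ w : WW B, ∑ n, stm Z lam a last w k n i * stm Z lam a last w l n j = 0 := by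
  cases a with
  | u g =>
    rw [sum_nil]
    · simp only [stm, w0, if_true]
      exact Z.gm_orth g k l hkl i j
    · intro w hw
      refine Finset.sum_eq_zero fun n _ => ?_
      simp only [stm]
      rw [if_neg hw, zero_mul]
  | me q k' =>
    refine Finset.sum_eq_zero fun w _ => Finset.sum_eq_zero fun n _ => ?_
    simp only [stm]
    by_cases h : k = none
    · rw [if_neg (c := l = none ∧ _) (fun h2 => hkl (h.trans h2.1.symm)), mul_zero]
    · rw [if_neg (fun h2 => h h2.1), zero_mul]
  | kn k' =>
    rw [sum_nil]
    · simp only [stm, w0, if_true]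
      exact gk_orth _ _ (fun _ => rfl) k l hkl i j
    · intro w hw
      refine Finset.sum_eq_zero fun n _ => ?_
      simp only [stm]
      rw [if_neg hw, zero_mul]
  | no q k' =>
    by_cases hq : q.length ≤ B
    · refine Finset.sum_eq_zero fun w _ => ?_
      simp only [stm, hq, if_true]
      by_cases hw : w.1.length = q.length
      · simp only [hw, if_true]
        have e : ∀ n, Real.sqrt (wn lam w.1) * Z.gm (Sum.inr (true, q, k')) k n (flips q w.1 i)
            * (Real.sqrt (wn lam w.1) * Z.gm (Sum.inr (true, q, k')) l n (flips q w.1 j))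
            = (Real.sqrt (wn lam w.1) * Real.sqrt (wn lam w.1))
              * (Z.gm (Sum.inr (true, q, k')) k n (flips q w.1 i)
                * Z.gm (Sum.inr (true, q, k')) l n (flips q w.1 j)) := fun n => by ring
        simp_rw [e]
        rw [← Finset.mul_sum, Z.gm_orth _ k l hkl, mul_zero]
      · simp [hw]
    · simp only [stm, hq, if_false]
      exact id_orth k l hkl i j

lemma stm_tot {lam : ℝ} (h0 : 0 ≤ lam) (h1 : lam ≤ 1) (Z : Adm N) (a : Micro) (last : List Bool)
    (i j : Fin m → Bool) :
    ∑ k, ∑ w : WW B, ∑ n, stm Z lam a last w k n i * stm Z lam a last w k n j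
      = if i = j then 1 else 0 := by
  cases a with
  | u g =>
    rw [← Z.gm_tot g i j]
    refine Finset.sum_congr rfl fun k _ => ?_
    rw [sum_nil]
    · simp only [stm, w0, if_true]
    · intro w hw
      refine Finset.sum_eq_zero fun n _ => ?_
      simp only [stm]
      rw [if_neg hw, zero_mul]
  | me q k' =>
    rw [Fintype.sum_option]
    simp only [stm, true_and, reduceCtorEq, false_and, if_false, mul_zero, Finset.sum_const_zero,
      add_zero]
    have hB : ((q.map (rd (clr k' i))).take B).length ≤ B := by simp
    rw [Finset.sum_eq_single (⟨(q.map (rd (clr k' i))).take B, hB⟩ : WW B)]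
    · simp only [if_true]
      by_cases h : i = j
      · subst h
        simp only [if_true]
        exact sum_Ee_Ee i i |>.trans (by simp)
      · rw [if_neg h]
        refine Finset.sum_eq_zero fun n _ => ?_
        split_ifs
        · unfold Ee
          by_cases h1 : n = i
          · rw [if_neg (fun h2 : n = j => h (h1.symm.trans h2)), mul_zero]
          · rw [if_neg h1, zero_mul]
        · rw [mul_zero]
    · intro w _ hw
      refine Finset.sum_eq_zero fun n _ => ?_
      rw [if_neg (fun h => hw (Subtype.ext h)), zero_mul]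
    · intro h; exact absurd (Finset.mem_univ _) h
  | kn k' =>
    rw [← gk_tot (fun _ => Z.kd last) k' (fun _ => rfl) i j]
    refine Finset.sum_congr rfl fun k _ => ?_
    rw [sum_nil]
    · simp only [stm, w0, if_true]
    · intro w hw
      refine Finset.sum_eq_zero fun n _ => ?_
      simp only [stm]
      rw [if_neg hw, zero_mul]
  | no q k' =>
    by_cases hq : q.length ≤ B
    · rw [Finset.sum_comm]
      have e : ∀ w : WW B, ∑ k, ∑ n, stm Z lam (Micro.no q k') last w k n i
          * stm Z lam (Micro.no q k') last w k n j
          = if w.1.length = q.length then wn lam w.1 * (if i = j then 1 else 0) else 0 := by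
        intro w
        simp only [stm, hq, if_true]
        by_cases hw : w.1.length = q.length
        · simp only [hw, if_true]
          have hij : (if i = j then (1 : ℝ) else 0) = if flips q w.1 i = flips q w.1 j then 1 else 0 := by
            simp only [flips_inj]
          rw [hij, ← Z.gm_tot (Sum.inr (true, q, k')) (flips q w.1 i) (flips q w.1 j),
            Finset.mul_sum]
          refine Finset.sum_congr rfl fun k _ => ?_
          rw [Finset.mul_sum]
          refine Finset.sum_congr rfl fun n _ => ?_
          have := Real.mul_self_sqrt (wn_nonneg h0 h1 w.1)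
          linear_combination (Z.gm (Sum.inr (true, q, k')) k n (flips q w.1 i)
            * Z.gm (Sum.inr (true, q, k')) k n (flips q w.1 j)) * this
        · simp [hw]
      simp_rw [e]
      rw [sum_WW B q.length hq (fun w => wn lam w * (if i = j then 1 else 0)), ← Finset.sum_mul,
        sum_wn, one_mul]
    · simp only [stm, hq, if_false]
      exact id_tot i j

/-- The control states: the remaining steps and the last outcome. -/
abbrev Cn : Type := List Micro × List Bool

/-- The machine. -/
noncomputable def MM (m B : ℕ) {lam : ℝ} (h0 : 0 ≤ lam) (h1 : lam ≤ 1) (Z : Adm N) :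
    Mach (Fin N) (Fin m → Bool) (WW B) Cn where
  m := fun c w o n i => match c.1 with
    | [] => if w.1 = [] ∧ o = none then Ee n i else 0
    | a :: _ => stm Z lam a c.2 w o n i
  nxt := fun c w => match c.1 with
    | [] => c
    | _ :: t => (t, w.1)
  orth := by
    rintro ⟨t, last⟩ k l hkl i j
    cases t with
    | nil => exact id_orth k l hkl i j
    | cons a t => exact stm_orth Z a last k l hkl i j
  tot := by
    rintro ⟨t, last⟩ i j
    cases t with
    | nil => exact id_tot i j
    | cons a t => exact stm_tot h0 h1 Z a last i j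

lemma Z_pv (Z : Adm N) (y : Fin N → Bool) (z : List Bool) : pv y (Z.kd z) = Z.O y z := by
  cases h : Z.kd z with
  | inl b => exact (Z.kd_inl h y).symm
  | inr i => exact (Z.kd_inr h y).symm

variable {lam : ℝ} (h0 : 0 ≤ lam) (h1 : lam ≤ 1) (Z : Adm N) (y : Fin N → ℤˣ)

lemma mv_fun_zero' {ι : Type*} [Fintype ι] (ψ : ι → ℝ) : mv (fun _ _ => 0) ψ = fun _ => 0 := by
  funext i; simp [mv]

lemma mv_zero_fun' {ι : Type*} [Fintype ι] (M : ι → ι → ℝ) : mv M (fun _ => 0) = fun _ => 0 := by
  funext i; simp [mv]

lemma MQ_idle (last : List Bool) (w : WW B) (ψ : (Fin m → Bool) → ℝ) :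
    mv ((MM m B h0 h1 Z).Q ([], last) w y) ψ = if w.1 = [] then ψ else fun _ => 0 := by
  have e : (MM m B h0 h1 Z).Q ([], last) w y = if w.1 = [] then Ee else fun _ _ => 0 := by
    funext n i
    unfold Mach.Q
    rw [Fintype.sum_option]
    simp only [MM, reduceCtorEq, and_false, if_false, mul_zero, Finset.sum_const_zero, add_zero,
      sgo, one_mul, and_true]
    split_ifs <;> rfl
  rw [e]
  split_ifs
  · funext n
    exact sum_Ee n ψ
  · exact mv_fun_zero' ψ

lemma MQ_u (g : Gate) (t : List Micro) (last : List Bool) (w : WW B) (ψ : (Fin m → Bool) → ℝ) :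
    mv ((MM m B h0 h1 Z).Q (Micro.u g :: t, last) w y) ψ
      = if w.1 = [] then gateAct (Z.O (bx y)) g ψ else fun _ => 0 := by
  have e : (MM m B h0 h1 Z).Q (Micro.u g :: t, last) w y
      = if w.1 = [] then (fun i j => ∑ l, sgo y l * Z.gm g l i j) else fun _ _ => 0 := by
    funext n i
    unfold Mach.Q
    simp only [MM, stm]
    split_ifs with h
    · rfl
    · simp
  rw [e]
  split_ifs
  · exact Z.gm_act g y ψ
  · exact mv_fun_zero' ψ

lemma MQ_me (q : List ℕ) (k : ℕ) (t : List Micro) (last : List Bool) (w : WW B)
    (ψ : (Fin m → Bool) → ℝ) :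
    mv ((MM m B h0 h1 Z).Q (Micro.me q k :: t, last) w y) ψ
      = fun s => if w.1 = (q.map (rd (clr k s))).take B then ψ s else 0 := by
  funext s
  have e : ∀ i, (MM m B h0 h1 Z).Q (Micro.me q k :: t, last) w y s i
      = if w.1 = (q.map (rd (clr k i))).take B then Ee s i else 0 := by
    intro i
    unfold Mach.Q
    rw [Fintype.sum_option]
    simp only [MM, stm, reduceCtorEq, false_and, if_false, mul_zero, Finset.sum_const_zero,
      add_zero, sgo, one_mul, true_and]
  unfold mv
  simp_rw [e]
  rw [Finset.sum_eq_single s]
  · have hE : Ee s s = 1 := if_pos rfl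
    rw [hE]
    by_cases hc : w.1 = (q.map (rd (clr k s))).take B
    · rw [if_pos hc, if_pos hc, one_mul]
    · rw [if_neg hc, if_neg hc, zero_mul]
  · intro i _ hi
    have hE : Ee s i = 0 := if_neg (Ne.symm hi)
    rw [hE]
    simp
  · intro h; exact absurd (Finset.mem_univ _) h

lemma MQ_kn (k : ℕ) (t : List Micro) (last : List Bool) (w : WW B)
    (ψ : (Fin m → Bool) → ℝ) :
    mv ((MM m B h0 h1 Z).Q (Micro.kn k :: t, last) w y) ψ
      = if w.1 = [] then (fun s => ψ (if Z.O (bx y) last then Xf k s else s)) else fun _ => 0 := by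
  have e : (MM m B h0 h1 Z).Q (Micro.kn k :: t, last) w y
      = if w.1 = [] then (fun i j => ∑ l, sgo y l * gk (fun _ => Z.kd last) k l i j)
        else fun _ _ => 0 := by
    funext n i
    unfold Mach.Q
    simp only [MM, stm]
    split_ifs with h
    · rfl
    · simp
  rw [e]
  by_cases hw : w.1 = []
  · rw [if_pos hw, if_pos hw]
    funext s
    rw [gk_act, Z_pv]
  · rw [if_neg hw, if_neg hw]
    exact mv_fun_zero' ψ

lemma MQ_no (q : List ℕ) (k : ℕ) (hq : q.length ≤ B) (t : List Micro) (last : List Bool) (w : WW B)
    (ψ : (Fin m → Bool) → ℝ) :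
    mv ((MM m B h0 h1 Z).Q (Micro.no q k :: t, last) w y) ψ
      = if w.1.length = q.length then (fun s => Real.sqrt (wn lam w.1)
          * gateAct (Z.O (bx y)) (Sum.inr (true, q, k)) (fun s => ψ (flips q w.1 s)) s)
        else fun _ => 0 := by
  by_cases hw : w.1.length = q.length
  · rw [if_pos hw, ← Z.gm_act (Sum.inr (true, q, k)) y]
    funext s
    have e : ∀ i, (MM m B h0 h1 Z).Q (Micro.no q k :: t, last) w y s i
        = Real.sqrt (wn lam w.1) * ∑ o, sgo y o * Z.gm (Sum.inr (true, q, k)) o s (flips q w.1 i) := by
      intro i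
      unfold Mach.Q
      simp only [MM, stm, hq, hw, if_true]
      rw [Finset.mul_sum]
      exact Finset.sum_congr rfl fun o _ => by ring
    unfold mv
    simp_rw [e, mul_assoc]
    rw [← Finset.mul_sum]
    congr 1
    rw [← sum_flips q w.1 (fun i => (∑ o, sgo y o * Z.gm (Sum.inr (true, q, k)) o s i)
      * ψ (flips q w.1 i))]
    refine Finset.sum_congr rfl fun i _ => ?_
    rw [flips_flips]
  · rw [if_neg hw]
    have e : (MM m B h0 h1 Z).Q (Micro.no q k :: t, last) w y = fun _ _ => 0 := by
      funext n i
      unfold Mach.Q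
      simp only [MM, stm, hq, hw, if_true, if_false, mul_zero, Finset.sum_const_zero]
    rw [e]
    exact mv_fun_zero' ψ

lemma val_zero' (g : Cn → ℝ) : ∀ (t : ℕ) (c : Cn),
    (MM m B h0 h1 Z).val g y t c (fun _ => 0) = 0
  | 0, c => by simp [Mach.val, nsq]
  | t + 1, c => by
    simp only [Mach.val]
    refine Finset.sum_eq_zero fun w _ => ?_
    rw [mv_zero_fun']
    exact val_zero' g t _

lemma val_smul (g : Cn → ℝ) (a : ℝ) : ∀ (t : ℕ) (c : Cn) (ψ : (Fin m → Bool) → ℝ),
    (MM m B h0 h1 Z).val g y t c (fun s => a * ψ s) = a ^ 2 * (MM m B h0 h1 Z).val g y t c ψ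
  | 0, c, ψ => by
    simp only [Mach.val]
    have : nsq (fun s => a * ψ s) = a ^ 2 * nsq ψ := nsq_smul a ψ
    rw [this]; ring
  | t + 1, c, ψ => by
    simp only [Mach.val]
    rw [Finset.mul_sum]
    refine Finset.sum_congr rfl fun w _ => ?_
    have : mv ((MM m B h0 h1 Z).Q c w y) (fun s => a * ψ s)
        = fun s => a * mv ((MM m B h0 h1 Z).Q c w y) ψ s := mv_smul _ a ψ
    rw [this]
    exact val_smul g a t _ _

/-- The output: whether the last outcome is `1`. -/
noncomputable def og' (c : Cn) : ℝ := if c.2 = [true] then 1 else 0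

lemma val_idle' (last : List Bool) : ∀ (t : ℕ) (ψ : (Fin m → Bool) → ℝ),
    (MM m B h0 h1 Z).val og' y t ([], last) ψ = if last = [true] then nsq ψ else 0
  | 0, ψ => by
    simp only [Mach.val, og']
    split_ifs <;> simp
  | t + 1, ψ => by
    simp only [Mach.val]
    rw [sum_nil]
    · rw [MQ_idle, if_pos (by rfl)]
      exact val_idle' last t ψ
    · intro w hw
      rw [MQ_idle, if_neg hw, val_zero']

/-- The steps of a gate. -/
def mic : NGate → List Micro
  | Sum.inl g => [Micro.u g]
  | Sum.inr (false, q, k) => [Micro.me q k, Micro.kn k]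
  | Sum.inr (true, q, k) => [Micro.no q k]

/-- All steps: those of the gates and the final measurement. -/
def mics (m : ℕ) (l : List NGate) : List Micro := l.flatMap mic ++ [Micro.me [0] m]

lemma mics_cons (m : ℕ) (g : NGate) (l : List NGate) : mics m (g :: l) = mic g ++ mics m l := by
  unfold mics
  rw [List.flatMap_cons, List.append_assoc]

/-- All questions have length at most `B`. -/
def Bd (B : ℕ) (l : List NGate) : Prop := ∀ b q k, Sum.inr (b, q, k) ∈ l → q.length ≤ B

lemma val_final (hB : 1 ≤ B) (last : List Bool) (t : ℕ) (ψ : (Fin m → Bool) → ℝ) :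
    (MM m B h0 h1 Z).val og' y (t + 1) (mics m [], last) ψ
      = ∑ s, if rd s 0 then ψ s ^ 2 else 0 := by
  have e0 : mics m [] = [Micro.me [0] m] := rfl
  rw [e0]
  simp only [Mach.val]
  have hcl : ∀ s : Fin m → Bool, clr m s = s := by
    intro s
    unfold clr
    rw [dif_neg (lt_irrefl m)]
  have htk : ∀ s : Fin m → Bool, ([0].map (rd (clr m s))).take B = [rd s 0] := by
    intro s
    rw [hcl]
    obtain ⟨b, rfl⟩ : ∃ b, B = b + 1 := ⟨B - 1, by omega⟩
    simp
  rw [Finset.sum_eq_single (⟨[true], by simpa using hB⟩ : WW B)]
  · rw [MQ_me]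
    change (MM m B h0 h1 Z).val og' y t ([], [true]) _ = _
    rw [val_idle', if_pos rfl]
    unfold nsq
    refine Finset.sum_congr rfl fun s _ => ?_
    beta_reduce
    rw [htk s]
    cases rd s 0 <;> simp
  · intro w _ hw
    rw [MQ_me]
    change (MM m B h0 h1 Z).val og' y t ([], w.1) _ = _
    rw [val_idle', if_neg]
    intro h; exact hw (Subtype.ext h)
  · intro h; exact absurd (Finset.mem_univ _) h

/-- The value of the machine is the probability of acceptance. -/
lemma val_acc (hB : 1 ≤ B) : ∀ (l : List NGate), Bd B l → ∀ (last : List Bool) (t : ℕ)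
    (ψ : (Fin m → Bool) → ℝ), (mics m l).length ≤ t →
    (MM m B h0 h1 Z).val og' y t (mics m l, last) ψ = accN (Z.O (bx y)) lam l ψ := by
  intro l
  induction l with
  | nil =>
    intro _ last t ψ ht
    obtain ⟨t, rfl⟩ : ∃ t', t = t' + 1 := ⟨t - 1, by
      have : (mics m []).length = 1 := rfl
      omega⟩
    rw [val_final h0 h1 Z y hB]
    rfl
  | cons g l ih =>
    intro hl last t ψ ht
    have hl' : Bd B l := fun b q k h => hl b q k (List.mem_cons_of_mem _ h)
    rw [mics_cons, List.length_append] at ht
    rcases g with g | ⟨b, q, k⟩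
    · obtain ⟨t, rfl⟩ : ∃ t', t = t' + 1 := ⟨t - 1, by simp [mic] at ht; omega⟩
      have ht' : (mics m l).length ≤ t := by simp [mic] at ht; omega
      rw [mics_cons]
      simp only [mic, List.cons_append, List.nil_append, Mach.val]
      rw [sum_nil]
      · rw [MQ_u, if_pos (by rfl)]
        change (MM m B h0 h1 Z).val og' y t (mics m l, _) _ = _
        rw [ih hl' _ t _ ht']
        rfl
      · intro w hw
        rw [MQ_u, if_neg hw, val_zero']
    · have hq : q.length ≤ B := hl b q k List.mem_cons_self
      cases b with
      | false =>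
        obtain ⟨t, rfl⟩ : ∃ t', t = t' + 1 + 1 := ⟨t - 2, by simp [mic] at ht; omega⟩
        have ht' : (mics m l).length ≤ t := by simp [mic] at ht; omega
        rw [mics_cons]
        simp only [mic, List.cons_append, List.nil_append]
        rw [Mach.val]
        have e1 : ∀ w : WW B, (MM m B h0 h1 Z).val og' y (t + 1)
            ((MM m B h0 h1 Z).nxt (Micro.me q k :: Micro.kn k :: mics m l, last) w)
            (mv ((MM m B h0 h1 Z).Q (Micro.me q k :: Micro.kn k :: mics m l, last) w y) ψ)
            = if w.1.length = q.length then accN (Z.O (bx y)) lam l (fun s =>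
                if q.map (rd (clr k s)) = w.1 then
                  gateAct (Z.O (bx y)) (Sum.inr (true, q, k)) ψ s else 0) else 0 := by
          intro w
          rw [MQ_me]
          change (MM m B h0 h1 Z).val og' y (t + 1) (Micro.kn k :: mics m l, w.1) _ = _
          rw [Mach.val, sum_nil]
          · rw [MQ_kn, if_pos (by rfl)]
            change (MM m B h0 h1 Z).val og' y t (mics m l, _) _ = _
            have htake : ∀ s : Fin m → Bool, (q.map (rd (clr k s))).take B = q.map (rd (clr k s)) :=
              fun s => List.take_of_length_le (by simpa using hq)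
            simp_rw [htake]
            by_cases hw : w.1.length = q.length
            · rw [if_pos hw, ih hl' _ t _ ht']
              congr 1
              funext s
              simp only [gateAct, flipIf_eq]
              have hc : clr k (if Z.O (bx y) w.1 = true then Xf k s else s) = clr k s := by
                split_ifs
                · exact clr_Xf k s
                · rfl
              rw [hc]
              by_cases he : q.map (rd (clr k s)) = w.1
              · rw [if_pos he.symm, if_pos he, he]
              · rw [if_neg (fun h => he h.symm), if_neg he]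
            · rw [if_neg hw]
              have e2 : (fun s : Fin m → Bool => (fun s' : Fin m → Bool =>
                  if w.1 = q.map (rd (clr k s')) then ψ s' else 0)
                  (if Z.O (bx y) w.1 = true then Xf k s else s)) = fun _ => 0 := by
                funext s
                beta_reduce
                rw [if_neg]
                intro h
                exact hw (by rw [h]; simp)
              beta_reduce at e2
              rw [e2, val_zero']
          · intro w' hw'
            rw [MQ_kn, if_neg hw', val_zero']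
        simp_rw [e1]
        rw [sum_WW B q.length hq (fun w => accN (Z.O (bx y)) lam l (fun s =>
                if q.map (rd (clr k s)) = w then
                  gateAct (Z.O (bx y)) (Sum.inr (true, q, k)) ψ s else 0))]
        rfl
      | true =>
        obtain ⟨t, rfl⟩ : ∃ t', t = t' + 1 := ⟨t - 1, by simp [mic] at ht; omega⟩
        have ht' : (mics m l).length ≤ t := by simp [mic] at ht; omega
        rw [mics_cons]
        simp only [mic, List.cons_append, List.nil_append]
        rw [Mach.val]
        have e1 : ∀ w : WW B, (MM m B h0 h1 Z).val og' y t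
            ((MM m B h0 h1 Z).nxt (Micro.no q k :: mics m l, last) w)
            (mv ((MM m B h0 h1 Z).Q (Micro.no q k :: mics m l, last) w y) ψ)
            = if w.1.length = q.length then wn lam w.1 * accN (Z.O (bx y)) lam l
                (gateAct (Z.O (bx y)) (Sum.inr (true, q, k)) (fun s => ψ (flips q w.1 s)))
              else 0 := by
          intro w
          rw [MQ_no h0 h1 Z y q k hq]
          change (MM m B h0 h1 Z).val og' y t (mics m l, w.1) _ = _
          by_cases hw : w.1.length = q.length
          · rw [if_pos hw, if_pos hw, val_smul, Real.sq_sqrt (wn_nonneg h0 h1 w.1),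
              ih hl' _ t _ ht']
          · rw [if_neg hw, if_neg hw, val_zero']
        simp_rw [e1]
        rw [sum_WW B q.length hq (fun w => wn lam w * accN (Z.O (bx y)) lam l
                (gateAct (Z.O (bx y)) (Sum.inr (true, q, k)) (fun s => ψ (flips q w s))))]
        simp_rw [wn_ofFn]
        rfl

end Pool.Agent.W938.NF
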