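import Pool.Agent.W938.NF.Inst
import Pool.Agent.W938.Hyb.Dom

/-!
# The influence theorem for circuits with noisy, measured and clean questions
-/

set_option autoImplicit false
set_option linter.unusedSectionVars false

namespace Pool.Agent.W938.NF

open Finset Pool.Agent.H722R2.AA Pool.Agent.H746R2.AA Pool.Agent.H703R2.AA Pool.Agent.H703R2.AA.Pr
  Pool.Agent.H703R2.AB
open Pool.Agent.H620R2.Gauge Pool.Agent.W938.Hyb Pool.Agent.W938.Rnd
open Pool.Agent.H572R2 (EE flp)
open Pool.Agent.H572R4.QA (var rs DegLe)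
open Pool.Agent.H889R3.RQ (inf2 tot)

lemma exists_Bd : ∀ l : List NGate, ∃ B, 1 ≤ B ∧ Bd B l
  | [] => ⟨1, le_rfl, fun b q k h => absurd h (by simp)⟩
  | g :: l => by
    obtain ⟨B, h1, h2⟩ := exists_Bd l
    rcases g with g | ⟨b, q, k⟩
    · refine ⟨B, h1, fun b q k h => ?_⟩
      rcases List.mem_cons.1 h with h | h
      · exact absurd h (by simp)
      · exact h2 b q k h
    · refine ⟨B + q.length, by omega, fun b' q' k' h => ?_⟩
      rcases List.mem_cons.1 h with h | h
      · simp only [Sum.inr.injEq, Prod.mk.injEq] at h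
        rw [h.2.1]; omega
      · exact (h2 b' q' k' h).trans (by omega)

variable {m N B : ℕ} {lam : ℝ} (h0 : 0 ≤ lam) (h1 : lam ≤ 1) (Z : Adm N)

/-- The probability of acceptance as a function of the bits of the oracle. -/
noncomputable def fN (lam : ℝ) (Z : Adm N) (c : List Unit × List NGate) (y : Fin N → Bool) : ℝ :=
  accN (Z.O y) lam c.2 (initSt c.1.length)

lemma out_fN (c : List Unit × List NGate) (hB : 1 ≤ B) (hc : Bd B c.2) (y : Fin N → ℤˣ) :
    (NP h0 h1 Z (mics c.1.length c.2) c.1.length B).out (mics c.1.length c.2).length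
      (fun h => og' ((MM c.1.length B h0 h1 Z).ctl (mics c.1.length c.2, []) h)) y
      = fN lam Z c (bx y) := by
  unfold NP
  rw [Mach.out_eq]
  exact val_acc h0 h1 Z y hB c.2 hc [] _ _ le_rfl

lemma og'_01 (c : Cn) : 0 ≤ og' c ∧ og' c ≤ 1 := by
  unfold og'; split_ifs <;> norm_num

lemma mics_pos (m : ℕ) (l : List NGate) : 1 ≤ (mics m l).length := by
  unfold mics
  simp

lemma mics_le (m : ℕ) (l : List NGate) : (mics m l).length ≤ 2 * l.length + 1 := by
  induction l with
  | nil => simp [mics]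
  | cons g l ih =>
    rw [mics_cons, List.length_append, List.length_cons]
    have : (mic g).length ≤ 2 := by
      rcases g with g | ⟨b, q, k⟩
      · simp [mic]
      · cases b <;> simp [mic]
    omega

lemma mics_ok {m n : ℕ} {l : List NGate} (h : NoiseOK m l) :
    ∀ q k, Micro.no q k ∈ mics n l → q.Nodup ∧ k ∉ q ∧ ∀ i ∈ q, i < m := by
  intro q k hm
  unfold mics at hm
  rcases List.mem_append.1 hm with h1 | h1
  · obtain ⟨g, hg, h2⟩ := List.mem_flatMap.1 h1
    apply h q k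
    rcases g with g | ⟨b, q', k'⟩
    · simp [mic] at h2
    · cases b
      · simp [mic] at h2
      · simp only [mic, List.mem_singleton, Micro.no.injEq] at h2
        rw [h2.1, h2.2]
        exact hg
  · simp at h1

lemma KK_mono {T T' Rm : ℕ} (h : T ≤ T') : KK T Rm ≤ KK T' Rm := by
  unfold KK
  gcongr

lemma KK_pos {T Rm : ℕ} (h : 1 ≤ T) : 0 < KK T Rm := by
  unfold KK
  have : (1 : ℝ) ≤ T := by exact_mod_cast h
  positivity

include h0 h1 in
/-- The influence theorem. -/
theorem inflN (hinj : InjA Z) (ℓ r : ℕ)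
    (hs : ∀ z : List Bool, z.length ≤ ℓ → ∃ b, Z.kd z = Sum.inl b) (c : List Unit × List NGate)
    (hc : CleanRounds r c.2) (hok : NoiseOK c.1.length c.2) (T' : ℕ) (hT' : 2 * c.2.length + 1 ≤ T') (v : ℝ) (hv : 0 < v)
    (hV : v ≤ var (fN lam Z c))
    (hτ : (max lam (1 - lam)) ^ (ℓ + 1) ≤ (v / (192 * (T' : ℝ) ^ 3)) ^ 2 / (4 * KK T' (2 * r))) :
    ∃ l, (v ^ 4 / (2 ^ 21 * (T' : ℝ) ^ 9 * KK T' (2 * r))) ^ 2 ≤ inf2 (fN lam Z c) l := by
  obtain ⟨B, hB, hBd⟩ := exists_Bd c.2
  set M := mics c.1.length c.2 with hM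
  have hT : 1 ≤ M.length := mics_pos _ _
  have hT2 : M.length ≤ T' := (mics_le _ _).trans hT'
  have hTr : (1 : ℝ) ≤ M.length := by exact_mod_cast hT
  have hTr2 : (M.length : ℝ) ≤ T' := by exact_mod_cast hT2
  obtain ⟨d⟩ := exists_TD (m := c.1.length) (B := B) h0 h1 Z M hinj ℓ r hs (CRM_mics _ r c.2 hc)
    (mics_ok hok)
  have hout : (NP h0 h1 Z M c.1.length B).out M.length
      (fun h => og' ((MM c.1.length B h0 h1 Z).ctl (M, []) h)) = fun y => fN lam Z c (bx y) :=
    funext fun y => out_fN h0 h1 Z c hB hBd y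
  have hK := KK_pos (Rm := 2 * r) hT
  have hK2 := KK_mono (Rm := 2 * r) hT2
  have hK3 := hK.trans_le hK2
  obtain ⟨l, hl⟩ := td_main d hT (fun h => og' ((MM c.1.length B h0 h1 Z).ctl (M, []) h))
    (fun h => (og'_01 _).1) (fun h => (og'_01 _).2) v hv
    (by rw [hout, Cov_bx]; exact hV)
    (hτ.trans (by gcongr))
  refine ⟨l, ?_⟩
  rw [hout, Inf_bx] at hl
  refine le_trans ?_ hl
  gcongr

include h0 h1 in
/-- The degree. -/
theorem degN (c : List Unit × List NGate) :
    DegLe (2 * (2 * c.2.length + 1)) (fN lam Z c) ∧ (∀ y, 0 ≤ fN lam Z c y) ∧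
      ∀ y, fN lam Z c y ≤ 1 := by
  obtain ⟨B, hB, hBd⟩ := exists_Bd c.2
  set M := mics c.1.length c.2 with hM
  have hout : ∀ y : Fin N → ℤˣ, (NP h0 h1 Z M c.1.length B).out M.length
      (fun h => og' ((MM c.1.length B h0 h1 Z).ctl (M, []) h)) y = fN lam Z c (bx y) :=
    fun y => out_fN h0 h1 Z c hB hBd y
  have hsurj : ∀ z : Fin N → Bool, ∃ y : Fin N → ℤˣ, bx y = z := by
    intro z
    refine ⟨fun i => if z i then -1 else 1, ?_⟩
    funext i
    simp only [bx]
    by_cases hx : z i = true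
    · simp [hx]
    · simp [hx]
  refine ⟨?_, ?_, ?_⟩
  · intro S hS
    have hS' : 2 * M.length < S.card := lt_of_le_of_lt
      (Nat.mul_le_mul_left 2 (mics_le _ _)) hS
    have h1 : Pool.Agent.H722R2.AA.fc (fun y : Fin N → ℤˣ => fN lam Z c (bx y)) S = 0 := by
      rw [← funext hout]
      exact Pool.Agent.H703R3.QS.Deg_out (NP h0 h1 Z M c.1.length B) _ _ S hS'
    rw [fc_eq_Ex] at h1
    have h2 : (∑ z : Fin N → Bool, fN lam Z c z * ∏ i ∈ S, (if z i then (-1 : ℝ) else 1)) / 2 ^ N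
        = 0 := by
      rw [← h1, ← Ex_bx (fun z => fN lam Z c z * ∏ i ∈ S, (if z i then (-1 : ℝ) else 1))]
      refine Ex_congr fun y => ?_
      congr 1
      refine Finset.prod_congr rfl fun i _ => ?_
      unfold Pool.Agent.H722R2.AA.sg bx
      rcases Int.units_eq_one_or (y i) with h1 | h1 <;> simp [h1]
    have h3 : ∑ z : Fin N → Bool, fN lam Z c z * ∏ i ∈ S, (if z i then (-1 : ℝ) else 1) = 0 := by
      rcases div_eq_zero_iff.1 h2 with h | h
      · exact h
      · exact absurd h (by positivity)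
    rw [← h3]
    refine Finset.sum_congr rfl fun z _ => ?_
    congr 1
    refine Finset.prod_congr rfl fun i _ => ?_
    cases z i <;> simp
  · intro z
    obtain ⟨y, rfl⟩ := hsurj z
    rw [← hout y]
    exact Pr.out_nonneg _ _ _ (fun h => (og'_01 _).1) y
  · intro z
    obtain ⟨y, rfl⟩ := hsurj z
    rw [← hout y]
    exact Pr.out_le _ _ _ (fun h => (og'_01 _).2) y

end Pool.Agent.W938.NF
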