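import Pool.Agent.W938.NF.Mic

/-!
# The times of the tests
-/

set_option autoImplicit false
set_option linter.unusedSectionVars false

namespace Pool.Agent.W938.NF

open Pool.Agent.H620R2.Gauge Pool.Agent.W938.Hyb

/-- A clean oracle gate. -/
def Mcl (a : Micro) : Prop := ∃ q k, a = Micro.u (Sum.inr (true, q, k))

/-- A round. -/
def MRd (R : List Micro) : Prop :=
  (∀ a ∈ R, Mcl a) ∧ ∀ q k q' k', Micro.u (Sum.inr (true, q, k)) ∈ R →
    Micro.u (Sum.inr (true, q', k')) ∈ R → k ∉ q'

/-- At most `r` clean rounds. -/
def CRM : ℕ → List Micro → Prop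
  | 0, l => ∀ a ∈ l, ¬ Mcl a
  | r + 1, l => ∃ F R l', l = F ++ R ++ l' ∧ (∀ a ∈ F, ¬ Mcl a) ∧ MRd R ∧ CRM r l'

lemma mic_cl {g : NGate} {q : List ℕ} {k : ℕ} (h : Micro.u (Sum.inr (true, q, k)) ∈ mic g) :
    g = Sum.inl (Sum.inr (true, q, k)) := by
  rcases g with g | ⟨b, q', k'⟩
  · simp only [mic, List.mem_singleton, Micro.u.injEq] at h
    rw [← h]
  · cases b <;> simp [mic] at h

lemma flat_cl {l : List NGate} {q : List ℕ} {k : ℕ}
    (h : Micro.u (Sum.inr (true, q, k)) ∈ l.flatMap mic) :
    Sum.inl (Sum.inr (true, q, k)) ∈ l := by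
  obtain ⟨g, hg, h1⟩ := List.mem_flatMap.1 h
  rw [← mic_cl h1]
  exact hg

lemma flat_not {l : List NGate} (h : ∀ g ∈ l, ¬ Clean g) : ∀ a ∈ l.flatMap mic, ¬ Mcl a := by
  rintro a ha ⟨q, k, rfl⟩
  exact h _ (flat_cl ha) ⟨q, k, rfl⟩

lemma CRM_mics (m : ℕ) : ∀ (r : ℕ) (l : List NGate), CleanRounds r l → CRM r (mics m l) := by
  intro r
  induction r with
  | zero =>
    intro l h a ha
    unfold mics at ha
    rcases List.mem_append.1 ha with h1 | h1
    · exact flat_not h a h1
    · rw [List.mem_singleton] at h1
      rintro ⟨q, k, h2⟩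
      rw [h1] at h2
      simp at h2
  | succ r ih =>
    rintro l ⟨F, R, l', rfl, hF, hR, hl'⟩
    refine ⟨F.flatMap mic, R.flatMap mic, mics m l', ?_, flat_not hF, ⟨?_, ?_⟩, ih l' hl'⟩
    · unfold mics
      simp [List.flatMap_append]
    · intro a ha
      obtain ⟨g, hg, h1⟩ := List.mem_flatMap.1 ha
      obtain ⟨q, k, rfl⟩ := hR.1 g hg
      simp only [mic, List.mem_singleton] at h1
      exact ⟨q, k, h1⟩
    · intro q k q' k' h1 h2
      exact hR.2 q k q' k' (flat_cl h1) (flat_cl h2)

/-- The step at the time `t` is a clean oracle gate. -/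
def frM (M : List Micro) (t : ℕ) : Prop := ∃ q k, M[t]? = some (Micro.u (Sum.inr (true, q, k)))

/-- The times of the tests and the levels. -/
theorem tstr : ∀ (r : ℕ) (M : List Micro), CRM r M → ∃ σ ρ : ℕ → ℕ,
    (∀ t, σ t ≤ t) ∧ (∀ t, ¬ frM M t → σ t = t) ∧ (∀ t, ρ t ≤ 2 * r) ∧
    (∀ t' t, t' < σ t → ρ t' ≤ ρ t) ∧ (∀ t' t, t' < σ t → frM M t' → ρ t' < ρ t) ∧
    (∀ t q k, M[t]? = some (Micro.u (Sum.inr (true, q, k))) → ∀ s, σ t ≤ s → s ≤ t →
      ∃ q' k', M[s]? = some (Micro.u (Sum.inr (true, q', k'))) ∧ k' ∉ q) := by
  intro r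
  induction r with
  | zero =>
    intro M hM
    have hn : ∀ t, ¬ frM M t := by
      rintro t ⟨q, k, h⟩
      exact hM _ (List.mem_of_getElem? h) ⟨q, k, rfl⟩
    refine ⟨id, fun _ => 0, fun t => le_rfl, fun t _ => rfl, fun t => Nat.zero_le _,
      fun t' t _ => le_rfl, fun t' t _ h => absurd h (hn t'), ?_⟩
    intro t q k h
    exact absurd ⟨q, k, h⟩ (hn t)
  | succ r ih =>
    rintro M ⟨F, R, l', rfl, hF, hR, hl'⟩
    obtain ⟨σ, ρ, h1, h2, h3, h4, h5, h6⟩ := ih l' hl'
    have gF : ∀ t, t < F.length → (F ++ R ++ l')[t]? = F[t]? := by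
      intro t ht
      rw [List.append_assoc, List.getElem?_append_left ht]
    have gR : ∀ t, F.length ≤ t → t < F.length + R.length →
        (F ++ R ++ l')[t]? = R[t - F.length]? := by
      intro t ht ht'
      rw [List.append_assoc, List.getElem?_append_right ht,
        List.getElem?_append_left (by omega)]
    have gl : ∀ t, F.length + R.length ≤ t →
        (F ++ R ++ l')[t]? = l'[t - (F.length + R.length)]? := by
      intro t ht
      rw [List.getElem?_append_right (by rw [List.length_append]; exact ht), List.length_append]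
    have nF : ∀ t, t < F.length → ¬ frM (F ++ R ++ l') t := by
      rintro t ht ⟨q, k, h⟩
      rw [gF t ht] at h
      exact hF _ (List.mem_of_getElem? h) ⟨q, k, rfl⟩
    have yR : ∀ t, F.length ≤ t → t < F.length + R.length → frM (F ++ R ++ l') t := by
      intro t ht ht'
      have hlt : t - F.length < R.length := by omega
      obtain ⟨q, k, h⟩ := hR.1 _ (List.getElem_mem hlt)
      refine ⟨q, k, ?_⟩
      rw [gR t ht ht', List.getElem?_eq_getElem hlt, h]
    have fl : ∀ t, F.length + R.length ≤ t →
        (frM (F ++ R ++ l') t ↔ frM l' (t - (F.length + R.length))) := by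
      intro t ht
      unfold frM
      rw [gl t ht]
    refine ⟨fun t => if t < F.length then t else if t < F.length + R.length then F.length
        else F.length + R.length + σ (t - (F.length + R.length)),
      fun t => if t < F.length then 0 else if t < F.length + R.length then 1
        else 2 + ρ (t - (F.length + R.length)), ?_, ?_, ?_, ?_, ?_, ?_⟩
    · intro t
      have := h1 (t - (F.length + R.length))
      dsimp only
      split_ifs <;> omega
    · intro t hf
      dsimp only
      split_ifs with c1 c2
      · rfl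
      · exact absurd (yR t (by omega) c2) hf
      · rw [fl t (by omega)] at hf
        rw [h2 _ hf]
        omega
    · intro t
      have := h3 (t - (F.length + R.length))
      dsimp only
      split_ifs <;> omega
    · intro t' t
      dsimp only
      intro hlt
      by_cases c1 : t < F.length
      · rw [if_pos c1] at hlt ⊢
        rw [if_pos (by omega)]
      · rw [if_neg c1] at hlt ⊢
        by_cases c2 : t < F.length + R.length
        · rw [if_pos c2] at hlt ⊢
          rw [if_pos hlt]
          omega
        · rw [if_neg c2] at hlt ⊢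
          by_cases c3 : t' < F.length
          · rw [if_pos c3]; omega
          · rw [if_neg c3]
            by_cases c4 : t' < F.length + R.length
            · rw [if_pos c4]; omega
            · rw [if_neg c4]
              have := h4 (t' - (F.length + R.length)) (t - (F.length + R.length)) (by omega)
              omega
    · intro t' t
      dsimp only
      intro hlt hf
      have c3 : ¬ t' < F.length := fun h => nF t' h hf
      by_cases c1 : t < F.length
      · rw [if_pos c1] at hlt
        omega
      · rw [if_neg c1] at hlt ⊢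
        by_cases c2 : t < F.length + R.length
        · rw [if_pos c2] at hlt
          omega
        · rw [if_neg c2] at hlt ⊢
          rw [if_neg c3]
          by_cases c4 : t' < F.length + R.length
          · rw [if_pos c4]; omega
          · rw [if_neg c4]
            rw [fl t' (by omega)] at hf
            have := h5 (t' - (F.length + R.length)) (t - (F.length + R.length)) (by omega) hf
            omega
    · intro t q k ht s
      dsimp only
      intro hs1 hs2
      have c1 : ¬ t < F.length := fun h => nF t h ⟨q, k, ht⟩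
      rw [if_neg c1] at hs1
      by_cases c2 : t < F.length + R.length
      · rw [if_pos c2] at hs1
        obtain ⟨q', k', h⟩ := yR s hs1 (by omega)
        refine ⟨q', k', h, ?_⟩
        rw [gR t (by omega) c2] at ht
        rw [gR s hs1 (by omega)] at h
        exact hR.2 q' k' q k (List.mem_of_getElem? h) (List.mem_of_getElem? ht)
      · rw [if_neg c2] at hs1
        rw [gl t (by omega)] at ht
        obtain ⟨q', k', h, h'⟩ := h6 _ q k ht (s - (F.length + R.length)) (by omega) (by omega)
        refine ⟨q', k', ?_, h'⟩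
        rw [gl s (by omega)]
        exact h

end Pool.Agent.W938.NF
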